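import Pool.Agent.PalW.Base

/-!
# Bad indices for fractions with small denominators
-/

namespace Pool.Agent.PalW

open Finset Pool.Agent.Pal

/-- Windows of indices contain bad indices. -/
lemma exists_bad {b : ℕ} (hb : 2 ≤ b) {ℓ i s D : ℕ} {x : ℕ × ℕ} (hD : 2 ≤ D) (hx : x ∈ J b D)
    (hi : i + s + 1 < ℓ) (hs : 2 * D ≤ b ^ (s + 1)) :
    ∃ j ∈ Ico i (i + (s + 2)), bad b ℓ (pt b x) j := by
  have hb0 : (2 : ℝ) ≤ b := by exact_mod_cast hb
  have hbp : (0 : ℝ) < b := by linarith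
  by_contra hnot
  push Not at hnot
  have hgood : ∀ j ∈ Ico i (i + (s + 2)), ∃ n : ℤ,
      |pt b x * wt b ℓ j - n| ≤ 1 / (4 * (b : ℝ) ^ 2) := by
    intro j hj
    have := hnot j hj
    unfold bad at this
    push Not at this
    obtain ⟨n, hn⟩ := this
    exact ⟨n, hn.le⟩
  set z : ℝ := ((b ^ 2 - 1 : ℕ) : ℝ) * pt b x with hz
  set β : ℝ := (b : ℝ) ^ (ℓ - (i + s) - 1) * z with hβ
  obtain ⟨n, hn⟩ := near_of_shifts hb s β (by
    intro r hr
    obtain ⟨n1, hn1⟩ := hgood (i + s - r) (mem_Ico.mpr ⟨by omega, by omega⟩)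
    obtain ⟨n2, hn2⟩ := hgood (i + s - r + 1) (mem_Ico.mpr ⟨by omega, by omega⟩)
    have := near_of_good hb (ℓ := ℓ) (i := i + s - r) (by omega) hn1 hn2
    refine ⟨b * n1 - n2, ?_⟩
    have e : (b : ℝ) ^ r * β = (b : ℝ) ^ (ℓ - (i + s - r) - 1) * z := by
      rw [hβ, ← mul_assoc, ← pow_add]
      congr 2; omega
    rw [e]
    exact this)
  rw [mem_J] at hx
  obtain ⟨h1, h2, h3, h4, h5⟩ := hx
  have hx1 : 0 < x.1 := by omega
  have hx1r : (0 : ℝ) < x.1 := by exact_mod_cast hx1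
  have hBp : (0 : ℝ) < ((b ^ 2 - 1 : ℕ) : ℝ) := BB_pos hb
  have hzeq : z = (x.2 : ℝ) / x.1 := by
    rw [hz]; unfold pt; push_cast; field_simp
  set e := ℓ - (i + s) - 1 with he
  have hne : ((b : ℤ) ^ e * x.2 - n * x.1) ≠ 0 := by
    intro h0
    have h6 : (x.1 : ℤ) ∣ (b : ℤ) ^ e * x.2 := ⟨n, by linarith⟩
    have h7 : x.1 ∣ b ^ e * x.2 := by exact_mod_cast h6
    have h8 : x.1.Coprime (b ^ e * x.2) :=
      Nat.Coprime.mul_right (Nat.Coprime.pow_right _ h3) h5.symm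
    have h9 : x.1 = 1 := Nat.Coprime.eq_one_of_dvd h8 h7
    omega
  have habs : (1 : ℝ) ≤ |(((b : ℤ) ^ e * x.2 - n * x.1 : ℤ) : ℝ)| := by
    have := Int.one_le_abs hne
    exact_mod_cast this
  have h6 : β - n = (((b : ℤ) ^ e * x.2 - n * x.1 : ℤ) : ℝ) / x.1 := by
    rw [hβ, hzeq]; push_cast; field_simp
  rw [h6, abs_div, abs_of_pos hx1r, div_le_iff₀ hx1r] at hn
  have h7 : (x.1 : ℝ) ≤ (b : ℝ) ^ (s + 1) := by
    have : x.1 ≤ b ^ (s + 1) := by omega
    exact_mod_cast this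
  have h8 : 3 / 8 / (b : ℝ) ^ (s + 1) * x.1 ≤ 3 / 8 := by
    rw [div_mul_eq_mul_div, div_le_iff₀ (by positivity)]
    nlinarith
  linarith

open Classical in
/-- Many windows. -/
lemma card_bad_ge {b : ℕ} (hb : 2 ≤ b) {m s D : ℕ} {x : ℕ × ℕ} (hD : 2 ≤ D) (hx : x ∈ J b D)
    (hs : 2 * D ≤ b ^ (s + 1)) (N : ℕ) (hN : N * (s + 2) ≤ m) :
    N ≤ ((Ico 0 m).filter (bad b (2 * m) (pt b x))).card := by
  have key : ∀ n : ℕ, n * (s + 2) ≤ m →
      n ≤ ((Ico 0 (n * (s + 2))).filter (bad b (2 * m) (pt b x))).card := by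
    intro n
    induction n with
    | zero => intro _; exact Nat.zero_le _
    | succ n ih =>
      intro hn
      have e : (n + 1) * (s + 2) = n * (s + 2) + (s + 2) := by ring
      rw [e] at hn ⊢
      have ih' := ih (by omega)
      obtain ⟨j, hj, hbj⟩ := exists_bad hb (ℓ := 2 * m) (i := n * (s + 2)) hD hx (by omega) hs
      have hu : Ico 0 (n * (s + 2) + (s + 2)) =
          Ico 0 (n * (s + 2)) ∪ Ico (n * (s + 2)) (n * (s + 2) + (s + 2)) :=
        (Ico_union_Ico_eq_Ico (Nat.zero_le _) (Nat.le_add_right _ _)).symm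
      rw [hu, filter_union, card_union_of_disjoint
        (disjoint_filter_filter (Ico_disjoint_Ico_consecutive _ _ _))]
      have h1 : 0 < ((Ico (n * (s + 2)) (n * (s + 2) + (s + 2))).filter
          (bad b (2 * m) (pt b x))).card :=
        card_pos.mpr ⟨j, mem_filter.mpr ⟨hj, hbj⟩⟩
      omega
  exact (key N hN).trans (card_le_card (filter_subset_filter _ (Ico_subset_Ico_right hN)))

open Classical in
/-- Pure high powers over a block. -/
lemma sum_kb_pow {b D : ℕ} (hb : 2 ≤ b) {κ : ℝ} (h0 : 0 < κ) (h1 : κ < 1) {m i0 i1 : ℕ}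
    (h01 : i0 < i1) (hi : i1 ≤ m) (hD : (D : ℝ) ^ 2 ≤ (b : ℝ) ^ (i1 - i0 - 1)) (lam : ℕ) :
    ∑ x ∈ J b D, (κ ^ ((Ico i0 i1).filter (bad b (2 * m) (pt b x))).card) ^ (3 * lam) ≤
      4 * BB b * (b * (1 + b * κ ^ lam) ^ (i1 - i0 - 1)) := by
  set K := i1 - i0 - 1 with hK
  have hε : 0 ≤ κ ^ lam := by positivity
  set Φ : ℝ → ℝ := fun y => (κ ^ lam) ^ chg b K (pat b 0 K (BB b * y)) with hΦ
  have hper : ∀ (y : ℝ) (n : ℤ), Φ (y + n) = Φ y := by
    intro y n
    simp only [hΦ]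
    have : BB b * (y + n) = BB b * y + (((b ^ 2 - 1 : ℕ) * n : ℤ) : ℝ) := by
      unfold BB; push_cast; ring
    rw [this, pat_add_int]
  have hpt : ∀ x ∈ J b D,
      (κ ^ ((Ico i0 i1).filter (bad b (2 * m) (pt b x))).card) ^ (3 * lam) ≤
      Φ ((b : ℝ) ^ (2 * m - i1 + 1) * pt b x) := by
    intro x _
    simp only [hΦ]
    have e3 := chg_le_bad hb h01 (by omega : 2 * i1 ≤ 2 * m + 1) (pt b x)
    have e4 := pat_shift b (2 * m - i1 + 1) (2 * m - i1 + 1) K le_rfl (BB b) (pt b x)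
    rw [Nat.sub_self] at e4
    rw [← e4]
    calc (κ ^ ((Ico i0 i1).filter (bad b (2 * m) (pt b x))).card) ^ (3 * lam)
        = κ ^ (lam * (3 * ((Ico i0 i1).filter (bad b (2 * m) (pt b x))).card)) := by
          rw [← pow_mul]; congr 1; ring
      _ ≤ κ ^ (lam * chg b K (pat b (2 * m - i1 + 1) K (BB b * pt b x))) :=
          pow_le_pow_of_le_one h0.le h1.le (Nat.mul_le_mul_left _ e3)
      _ = _ := pow_mul _ _ _
  refine (Finset.sum_le_sum hpt).trans ?_
  rw [sum_J_mul _ Φ hper]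
  exact sum_pattern hb hD hε

open Classical in
/-- Bound for moduli small compared with `b ^ m`. -/
lemma kb_blocks {b : ℕ} (hb : 2 ≤ b) {κ : ℝ} (h0 : 0 < κ) (h1 : κ < 1) {lam : ℕ} (hlam : 1 ≤ lam)
    {m K D : ℕ} (hK : 3 * lam * (K + 1) ≤ m) (hD : (D : ℝ) ^ 2 ≤ (b : ℝ) ^ K) :
    ∑ x ∈ J b D, κ ^ ((Ico 0 m).filter (bad b (2 * m) (pt b x))).card ≤
      3 * lam * (4 * BB b * (b * (1 + b * κ ^ lam) ^ K)) := by
  set n := 3 * lam with hn
  have hn1 : 1 ≤ n := by omega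
  -- pointwise bound
  have hpt : ∀ x ∈ J b D, κ ^ ((Ico 0 m).filter (bad b (2 * m) (pt b x))).card ≤
      ∑ j ∈ range n, (κ ^ ((Ico (j * (K + 1)) ((j + 1) * (K + 1))).filter
        (bad b (2 * m) (pt b x))).card) ^ n := by
    intro x _
    set a : ℕ → ℝ := fun j => κ ^ ((Ico (j * (K + 1)) ((j + 1) * (K + 1))).filter
        (bad b (2 * m) (pt b x))).card with ha
    have ha0 : ∀ j, 0 ≤ a j := fun j => by positivity
    have hprod : ∀ N : ℕ, κ ^ ((Ico 0 (N * (K + 1))).filter (bad b (2 * m) (pt b x))).card =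
        ∏ j ∈ range N, a j := by
      intro N
      induction N with
      | zero => simp
      | succ N ih =>
        rw [Finset.prod_range_succ, ← ih]
        have hu : Ico 0 ((N + 1) * (K + 1)) =
            Ico 0 (N * (K + 1)) ∪ Ico (N * (K + 1)) ((N + 1) * (K + 1)) :=
          (Ico_union_Ico_eq_Ico (Nat.zero_le _) (Nat.mul_le_mul_right _ (Nat.le_succ N))).symm
        rw [hu, filter_union, card_union_of_disjoint
          (disjoint_filter_filter (Ico_disjoint_Ico_consecutive _ _ _)), pow_add]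
    have h2 : κ ^ ((Ico 0 m).filter (bad b (2 * m) (pt b x))).card ≤ ∏ j ∈ range n, a j := by
      rw [← hprod n]
      exact pow_le_pow_of_le_one h0.le h1.le
        (card_le_card (filter_subset_filter _ (Ico_subset_Ico_right hK)))
    refine h2.trans ?_
    obtain ⟨j0, hj0, hmax⟩ := exists_max_image (range n) a ⟨0, mem_range.mpr (by omega)⟩
    calc ∏ j ∈ range n, a j ≤ ∏ j ∈ range n, a j0 :=
          Finset.prod_le_prod (fun j _ => ha0 j) hmax
      _ = (a j0) ^ n := by rw [prod_const, card_range]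
      _ ≤ ∑ j ∈ range n, (a j) ^ n :=
          Finset.single_le_sum (f := fun j => (a j) ^ n) (fun j _ => pow_nonneg (ha0 j) n) hj0
  refine (Finset.sum_le_sum hpt).trans ?_
  rw [Finset.sum_comm]
  have h3 : ∀ j ∈ range n, ∑ x ∈ J b D,
      (κ ^ ((Ico (j * (K + 1)) ((j + 1) * (K + 1))).filter
        (bad b (2 * m) (pt b x))).card) ^ n ≤
      4 * BB b * (b * (1 + b * κ ^ lam) ^ K) := by
    intro j hj
    rw [mem_range] at hj
    have e1 : (j + 1) * (K + 1) - j * (K + 1) - 1 = K := by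
      have : (j + 1) * (K + 1) = j * (K + 1) + (K + 1) := by ring
      omega
    have e2 : (j + 1) * (K + 1) ≤ m := (Nat.mul_le_mul_right _ (by omega : j + 1 ≤ n)).trans hK
    have e3 : j * (K + 1) < (j + 1) * (K + 1) := by
      have : (j + 1) * (K + 1) = j * (K + 1) + (K + 1) := by ring
      omega
    have := sum_kb_pow hb h0 h1 (D := D) (m := m) e3 e2 (by rw [e1]; exact hD) lam
    rw [e1] at this
    exact this
  refine (Finset.sum_le_sum h3).trans ?_
  rw [sum_const, card_range, nsmul_eq_mul, hn]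
  push_cast
  exact le_rfl

end Pool.Agent.PalW
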