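import Pool.Agent.PalM.Sum
import Pool.Agent.PalL.SqC

/-!
# Products of a general site function over pairs of digits
-/

namespace Pool.Agent.PalW

open Finset Pool.Agent.Pal

/-- Product of the site function over the pairs `i0 ≤ i < i1` of a string of length `ℓ + 1`. -/
noncomputable def Bk (ψ : ℝ → ℝ) (b ℓ i0 i1 : ℕ) (α : ℝ) : ℝ :=
  ∏ i ∈ Ico i0 i1, ψ (α * wt b ℓ i)

/-- Admissible site functions. -/
structure Site (b : ℕ) (ψ : ℝ → ℝ) (κ : ℝ) : Prop where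
  nonneg : ∀ x, 0 ≤ ψ x
  le_one : ∀ x, ψ x ≤ 1
  per : ∀ (x : ℝ) (k : ℤ), ψ (x + k) = ψ x
  kpos : 0 < κ
  klt : κ < 1
  bad : ∀ x : ℝ, (∀ n : ℤ, 1 / (4 * (b : ℝ) ^ 2) ≤ |x - n|) → ψ x ≤ κ

section basic

variable {b : ℕ} {ψ : ℝ → ℝ} {κ : ℝ}

lemma Bk_nonneg (h : Site b ψ κ) (ℓ i0 i1 : ℕ) (α : ℝ) : 0 ≤ Bk ψ b ℓ i0 i1 α :=
  Finset.prod_nonneg fun _ _ => h.nonneg _

lemma Bk_le_one (h : Site b ψ κ) (ℓ i0 i1 : ℕ) (α : ℝ) : Bk ψ b ℓ i0 i1 α ≤ 1 :=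
  Finset.prod_le_one (fun _ _ => h.nonneg _) fun _ _ => h.le_one _

lemma Bk_mul (ψ : ℝ → ℝ) (b ℓ : ℕ) {i0 i1 i2 : ℕ} (h01 : i0 ≤ i1) (h12 : i1 ≤ i2) (α : ℝ) :
    Bk ψ b ℓ i0 i1 α * Bk ψ b ℓ i1 i2 α = Bk ψ b ℓ i0 i2 α :=
  Finset.prod_Ico_consecutive _ h01 h12

lemma Bk_add_int (h : Site b ψ κ) (ℓ i0 i1 : ℕ) (α : ℝ) (k : ℤ) :
    Bk ψ b ℓ i0 i1 (α + k) = Bk ψ b ℓ i0 i1 α := by
  unfold Bk
  refine Finset.prod_congr rfl fun i _ => ?_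
  have : (α + k) * (wt b ℓ i : ℝ) = α * wt b ℓ i + ((k * wt b ℓ i : ℤ) : ℝ) := by
    push_cast; ring
  rw [this, h.per]

lemma Bk_le_of_le (h : Site b ψ κ) (ℓ : ℕ) {i0 i1 j0 j1 : ℕ} (h0 : i0 ≤ j0) (h1 : j1 ≤ i1)
    (α : ℝ) : Bk ψ b ℓ i0 i1 α ≤ Bk ψ b ℓ j0 j1 α := by
  rcases Nat.lt_or_ge j0 j1 with hlt | hge
  · rw [← Bk_mul ψ b ℓ h0 (by omega : j0 ≤ i1) α, ← Bk_mul ψ b ℓ (by omega : j0 ≤ j1) h1 α]
    have e1 := Bk_le_one h ℓ i0 j0 α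
    have e2 := Bk_le_one h ℓ j1 i1 α
    have e3 := Bk_nonneg h ℓ j0 j1 α
    have e4 := Bk_nonneg h ℓ j1 i1 α
    have e5 := Bk_nonneg h ℓ i0 j0 α
    calc Bk ψ b ℓ i0 j0 α * (Bk ψ b ℓ j0 j1 α * Bk ψ b ℓ j1 i1 α)
        ≤ 1 * (Bk ψ b ℓ j0 j1 α * 1) := by
          refine mul_le_mul e1 (mul_le_mul_of_nonneg_left e2 e3) (by positivity) zero_le_one
      _ = Bk ψ b ℓ j0 j1 α := by ring
  · have : Bk ψ b ℓ j0 j1 α = 1 := by unfold Bk; rw [Ico_eq_empty (by omega)]; simp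
    rw [this]
    exact Bk_le_one h _ _ _ _

/-- Scaling. -/
lemma Bk_scale (ψ : ℝ → ℝ) (b ℓ i0 i1 r : ℕ) (h : i1 ≤ ℓ + 1) (α : ℝ) :
    Bk ψ b (ℓ + 2 * r) (i0 + r) (i1 + r) α = Bk ψ b ℓ i0 i1 (b ^ r * α) := by
  unfold Bk
  rw [← Finset.prod_Ico_add']
  refine Finset.prod_congr rfl fun i hi => ?_
  rw [mem_Ico] at hi
  congr 1
  unfold wt
  have e : ℓ + 2 * r - (i + r) = (ℓ - i) + r := by omega
  rw [e]
  push_cast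
  rw [pow_add, pow_add]
  ring

open Classical in
/-- A product is small when it contains many bad indices. -/
lemma Bk_le_pow_bad (h : Site b ψ κ) (ℓ i0 i1 : ℕ) (α : ℝ) :
    Bk ψ b ℓ i0 i1 α ≤ κ ^ ((Ico i0 i1).filter (bad b ℓ α)).card := by
  unfold Bk
  rw [Finset.card_filter, ← Finset.prod_pow_eq_pow_sum]
  refine Finset.prod_le_prod (fun _ _ => h.nonneg _) fun i _ => ?_
  by_cases hb : bad b ℓ α i
  · rw [if_pos hb, pow_one]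
    exact h.bad _ hb
  · rw [if_neg hb, pow_zero]
    exact h.le_one _

/-- High powers are controlled by the digit pattern. -/
lemma Bk_pow_le_chg (h : Site b ψ κ) (hb : 2 ≤ b) {ℓ i0 i1 : ℕ} (h01 : i0 < i1)
    (h1 : 2 * i1 ≤ ℓ + 1) (lam : ℕ) (α : ℝ) :
    (Bk ψ b ℓ i0 i1 α) ^ (3 * lam) ≤ (κ ^ lam) ^
      chg b (i1 - i0 - 1) (pat b (ℓ - i1 + 1) (i1 - i0 - 1) (((b ^ 2 - 1 : ℕ) : ℝ) * α)) := by
  classical
  have e1 := Bk_le_pow_bad h ℓ i0 i1 α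
  have e2 := chg_le_bad hb h01 h1 α
  calc (Bk ψ b ℓ i0 i1 α) ^ (3 * lam)
      ≤ (κ ^ ((Ico i0 i1).filter (bad b ℓ α)).card) ^ (3 * lam) :=
        pow_le_pow_left₀ (Bk_nonneg h _ _ _ _) e1 _
    _ = κ ^ (lam * (3 * ((Ico i0 i1).filter (bad b ℓ α)).card)) := by
        rw [← pow_mul]; congr 1; ring
    _ ≤ κ ^ (lam * chg b (i1 - i0 - 1)
          (pat b (ℓ - i1 + 1) (i1 - i0 - 1) (((b ^ 2 - 1 : ℕ) : ℝ) * α))) :=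
        pow_le_pow_of_le_one h.kpos.le h.klt.le (Nat.mul_le_mul_left _ e2)
    _ = _ := pow_mul _ _ _

end basic

/-- First moment over the fractions with denominators `d`, `D ≤ d < 2 D`. -/
noncomputable def TG (ψ : ℝ → ℝ) (b m D : ℕ) : ℝ := ∑ x ∈ J b D, Bk ψ b (2 * m) 0 m (pt b x)

/-- First moment over the fractions with denominators `p ^ 2`, `P ≤ p < 2 P`. -/
noncomputable def TGS (ψ : ℝ → ℝ) (b m P : ℕ) : ℝ := ∑ x ∈ JS b P, Bk ψ b (2 * m) 0 m (pt b x)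

/-- A bound for the first moments of a sequence of functions, with a power saving in the modulus. -/
def HasF (b : ℕ) (θ : ℝ) (Ψ : ℕ → ℝ → ℝ) : Prop :=
  ∃ (σ δ C : ℝ), 0 < σ ∧ 0 < δ ∧ 0 < C ∧ ∀ m D : ℕ, 2 ≤ D →
    Real.log D ≤ θ * Real.log b * (2 * m) →
    ∑ x ∈ J b D, Ψ m (pt b x) ≤ C * D * Real.exp (-σ * Real.sqrt (2 * m) - δ * Real.log D)

/-- The same for square denominators. -/
def HasFS (b : ℕ) (θ : ℝ) (Ψ : ℕ → ℝ → ℝ) : Prop :=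
  ∀ c0 : ℝ, 0 < c0 → ∃ (σ C : ℝ) (m0 : ℕ), 0 < σ ∧ 0 < C ∧ ∀ m P : ℕ, m0 ≤ m → 2 ≤ P →
    Real.log P ≤ θ * Real.log b * (2 * m) → c0 * Real.log b * (2 * m) ≤ Real.log P →
    ∑ x ∈ JS b P, Ψ m (pt b x) ≤ C * (P : ℝ) ^ 2 * Real.exp (-σ * (2 * m))

/-- The product of the site functions over a block of `L` consecutive sites. -/
noncomputable def PhiG (ψ : ℝ → ℝ) (b L : ℕ) (w v : ℝ) : ℝ :=
  ∏ r ∈ range L, ψ ((b : ℝ) ^ r * w + (b : ℝ) ^ (L - 1 - r) * v)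

/-- The power `γ` of the block product has a positive definite majorant, of degree less than
`b ^ L` in both variables, with the value `1` at the origin and a mean at most `z`. -/
def HasMajG (ψ : ℝ → ℝ) (b L : ℕ) (γ z : ℝ) : Prop :=
  ∃ (ι : Type) (_ : Fintype ι) (c : ι → ℝ) (h h' : ι → ℤ) (G : ℝ → ℝ → ℝ),
    (∀ i, 0 ≤ c i) ∧ (∀ i, |h i| < (b : ℤ) ^ L) ∧ (∀ i, |h' i| < (b : ℤ) ^ L) ∧
    (∀ w v, (G w v : ℂ) = ∑ i, (c i : ℂ) * ex (h i * w + h' i * v)) ∧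
    ∑ i, c i = 1 ∧ (∑ i with h i = 0 ∧ h' i = 0, c i) ≤ z ∧
    ∀ w v, PhiG ψ b L w v ^ γ ≤ G w v

end Pool.Agent.PalW
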