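import Pool.Agent.PalW.Duo

/-!
# At most three prime factors, large bases
-/

namespace Pool.Agent.PalW

open Finset Pool.Agent.Pal Pool.Agent.PalM

lemma HH_le {b : ℕ} (hb : 1 ≤ b) : HH b ≤ 1 + Real.log b := by
  have h := harmonic_le_one_add_log b
  have e : (harmonic b : ℝ) = HH b := by
    unfold harmonic HH
    push_cast
    exact Finset.sum_congr rfl fun i _ => by rw [one_div]
  rw [← e]
  exact h

lemma harm_lt_big {b : ℕ} (hb : 2048 ≤ b) :
    3 / 20 + 17 / 20 * HH b < (b : ℝ) ^ ((67 : ℝ) / 250) := by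
  have hb0 : (2048 : ℝ) ≤ b := by exact_mod_cast hb
  have hbp : (0 : ℝ) < b := by linarith
  have h1 := HH_le (b := b) (by omega)
  have hl2 := Real.log_two_lt_d9
  have hl2' := Real.log_two_gt_d9
  have hy : 11 * Real.log 2 ≤ Real.log b := by
    have := Real.log_le_log (by norm_num) hb0
    rw [show (2048 : ℝ) = 2 ^ 11 by norm_num, Real.log_pow] at this
    push_cast at this
    exact this
  have h2 : (77 / 10 : ℝ) < (2048 : ℝ) ^ ((67 : ℝ) / 250) := by
    have e1 := lt_rpow_of_pow (x := 77 / 10) (y := 2048) (n := 67) (k := 250) (by norm_num)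
      (by norm_num) (by norm_num) (by norm_num)
    exact_mod_cast e1
  have h3 : (2048 : ℝ) ^ ((67 : ℝ) / 250) = Real.exp (67 / 250 * (11 * Real.log 2)) := by
    rw [Real.rpow_def_of_pos (by norm_num), show (2048 : ℝ) = 2 ^ 11 by norm_num, Real.log_pow]
    push_cast
    ring_nf
  have h4 : (b : ℝ) ^ ((67 : ℝ) / 250) = Real.exp (67 / 250 * (11 * Real.log 2)) *
      Real.exp (67 / 250 * (Real.log b - 11 * Real.log 2)) := by
    rw [Real.rpow_def_of_pos hbp, ← Real.exp_add]
    ring_nf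
  have h5 := Real.add_one_le_exp (67 / 250 * (Real.log b - 11 * Real.log 2))
  rw [h4, ← h3]
  set d := Real.log b - 11 * Real.log 2 with hd
  have hd0 : 0 ≤ d := by linarith
  have h6 : 77 / 10 * (67 / 250 * d + 1) ≤
      (2048 : ℝ) ^ ((67 : ℝ) / 250) * Real.exp (67 / 250 * d) :=
    mul_le_mul h2.le h5 (by positivity) (by positivity)
  refine lt_of_lt_of_le ?_ h6
  have h7 : Real.log b = d + 11 * Real.log 2 := by rw [hd]; ring
  rw [h7] at h1
  linarith

/-- **At most three prime factors**, in every base `b ≥ 2048`, with the full count. -/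
theorem three_full {b : ℕ} (hb : 2048 ≤ b) :
    ∃ c x₀ : ℝ, 0 < c ∧ ∀ x : ℝ, x₀ ≤ x →
      c * ((PX b x).card : ℝ) / Real.log x ≤ ((PXr b x 3 15).card : ℝ) := by
  have : Nonempty (Fin b) := ⟨⟨0, by omega⟩⟩
  have hb2 : 2 ≤ b := by omega
  have hb0 : (2048 : ℝ) ≤ b := by exact_mod_cast hb
  obtain ⟨κ, hψ⟩ := site_unif hb2
  have h : (3 / 20 + 17 / 20 * HH b) / b < (b : ℝ) ^ (-(2 * (183 / 500 : ℝ) * ((1 : ℕ) : ℝ))) := by
    have h1 := harm_lt_big hb
    have e : (b : ℝ) ^ (-(2 * (183 / 500 : ℝ) * ((1 : ℕ) : ℝ))) =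
        (b : ℝ) ^ ((67 : ℝ) / 250) / b := by
      rw [← Real.rpow_sub_one (by positivity)]
      norm_num
    rw [e]
    exact div_lt_div_of_pos_right h1 (by positivity)
  have hmaj := majG_unif (hasMaj (by omega : 7 ≤ b))
  exact count_full hb2 (fun a => a.2) (fun a a' h => Fin.ext h) (Fintype.card_fin b)
    (X := 2623) (a0 := 175) (by norm_num) (by norm_num)
    (coreW hb2 (fun a => a.2) (fun d hd => ⟨⟨d, hd⟩, rfl⟩) hψ Sv.chk3 (θ := 183 / 500)
      (by norm_num) (by norm_num)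
      (hasF_of_majG hb2 le_rfl hψ hmaj (by norm_num) (by norm_num) h)
      (hasFS_of_majG hb2 le_rfl hψ hmaj (by norm_num) (by norm_num) h))

end Pool.Agent.PalW
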