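import Pool.Agent.PalW.Base

/-!
# Counting in residue classes with exponential sums
-/

namespace Pool.Agent.PalW

open Finset Pool.Agent.Pal

/-- Comparison of a residue class modulo `q` with one modulo `gcd(q, B)`. -/
lemma cnt_gen {Ω : Type} (S : Finset Ω) (n : Ω → ℕ) {q B : ℕ} (hq : 0 < q) (a : ℤ) :
    |((S.filter (fun ω => (n ω : ℤ) ≡ a [ZMOD q])).card : ℝ) -
      ((Nat.gcd q B : ℕ) : ℝ) / q *
        ((S.filter (fun ω => (n ω : ℤ) ≡ a [ZMOD (Nat.gcd q B : ℕ)])).card : ℝ)| ≤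
      1 / q * ∑ c ∈ (range q).filter (fun c => ¬ q ∣ B * c),
        ‖∑ ω ∈ S, ex (n ω * ((c : ℝ) / q))‖ := by
  set g := Nat.gcd q B with hg
  have hqr : (0 : ℝ) < q := by exact_mod_cast hq
  have hind : ∀ n : ℤ, ∀ m : ℕ, (if (n ≡ a [ZMOD m]) then (1 : ℂ) else 0) =
      if ((m : ℤ) ∣ n - a) then (1 : ℂ) else 0 := by
    intro n m
    have : (n ≡ a [ZMOD m]) ↔ ((m : ℤ) ∣ n - a) := by
      rw [Int.modEq_comm]; exact Int.modEq_iff_dvd
    by_cases h : n ≡ a [ZMOD m]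
    · rw [if_pos h, if_pos (this.mp h)]
    · rw [if_neg h, if_neg (fun h' => h (this.mpr h'))]
  have h1 : ∀ m : ℕ, (((S.filter (fun ω => (n ω : ℤ) ≡ a [ZMOD m])).card : ℝ) : ℂ) =
      ∑ ω ∈ S, if ((m : ℤ) ∣ (n ω : ℤ) - a) then (1 : ℂ) else 0 := by
    intro m
    rw [Finset.card_filter]
    push_cast
    refine Finset.sum_congr rfl fun h _ => ?_
    rw [← hind _ m]
    split_ifs <;> simp
  -- difference of the indicators
  have h2 : ∀ n : ℤ, (q : ℂ) * ((if ((q : ℤ) ∣ n) then (1 : ℂ) else 0) -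
      (g : ℂ) / q * (if ((g : ℤ) ∣ n) then (1 : ℂ) else 0)) =
      ∑ c ∈ (range q).filter (fun c => ¬ q ∣ B * c), ex ((c : ℝ) * ((n : ℝ) / q)) := by
    intro n
    have e1 := sum_ex_eq hq n
    have e2 := sum_ex_dvd (B := B) hq n
    rw [← hg] at e2
    rw [← Finset.sum_filter_add_sum_filter_not (range q) (fun c => q ∣ B * c), e2] at e1
    have hqc : (q : ℂ) ≠ 0 := by exact_mod_cast hqr.ne'
    have e3 : ∑ c ∈ (range q).filter (fun c => ¬ q ∣ B * c), ex ((c : ℝ) * ((n : ℝ) / q)) =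
        (if (q : ℤ) ∣ n then (q : ℂ) else 0) - (if (g : ℤ) ∣ n then (g : ℂ) else 0) := by
      rw [← e1]; ring
    rw [e3]
    split_ifs <;> field_simp <;> ring
  have h3 : (((((S.filter (fun ω => (n ω : ℤ) ≡ a [ZMOD q])).card : ℝ) -
      (g : ℝ) / q * ((S.filter (fun ω => (n ω : ℤ) ≡ a [ZMOD g])).card : ℝ)) : ℝ) : ℂ) =
      1 / q * ∑ c ∈ (range q).filter (fun c => ¬ q ∣ B * c),
        ex (-(c * (a / q))) * ∑ ω ∈ S, ex (n ω * ((c : ℝ) / q)) := by
    have hqc : (q : ℂ) ≠ 0 := by exact_mod_cast hqr.ne'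
    rw [Complex.ofReal_sub, Complex.ofReal_mul, h1 q, h1 g, Complex.ofReal_div]
    rw [Finset.mul_sum, ← Finset.sum_sub_distrib]
    have e1 : ∀ ω ∈ S, ((if ((q : ℤ) ∣ (n ω : ℤ) - a) then (1 : ℂ) else 0) -
        ((g : ℝ) : ℂ) / ((q : ℝ) : ℂ) * (if ((g : ℤ) ∣ (n ω : ℤ) - a) then (1 : ℂ) else 0)) =
        1 / q * ∑ c ∈ (range q).filter (fun c => ¬ q ∣ B * c),
          ex ((c : ℝ) * ((((n ω : ℤ) - a : ℤ) : ℝ) / q)) := by
      intro ω _
      rw [← h2]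
      push_cast
      field_simp
    rw [Finset.sum_congr rfl e1, ← Finset.mul_sum]
    congr 1
    rw [Finset.sum_comm]
    refine Finset.sum_congr rfl fun c _ => ?_
    rw [Finset.mul_sum]
    refine Finset.sum_congr rfl fun ω _ => ?_
    rw [← ex_add]
    congr 1
    push_cast
    field_simp
    ring
  have h4 : |((S.filter (fun ω => (n ω : ℤ) ≡ a [ZMOD q])).card : ℝ) -
      (g : ℝ) / q * ((S.filter (fun ω => (n ω : ℤ) ≡ a [ZMOD g])).card : ℝ)| =
      ‖(((((S.filter (fun ω => (n ω : ℤ) ≡ a [ZMOD q])).card : ℝ) -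
      (g : ℝ) / q * ((S.filter (fun ω => (n ω : ℤ) ≡ a [ZMOD g])).card : ℝ)) : ℝ) : ℂ)‖ := by
    rw [Complex.norm_real, Real.norm_eq_abs]
  rw [h4, h3, norm_mul]
  have h5 : ‖(1 / (q : ℂ))‖ = 1 / q := by
    rw [norm_div, norm_one, Complex.norm_natCast]
  rw [h5]
  refine mul_le_mul_of_nonneg_left ?_ (by positivity)
  refine (norm_sum_le _ _).trans (Finset.sum_le_sum fun c _ => ?_)
  rw [norm_mul, norm_ex, one_mul]

/-- Equidistribution of the presieved family. -/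
lemma Nq_gen {Ω : Type} [Fintype Ω] (n : Ω → ℕ) {b K q : ℕ} (hb : 2 ≤ b) (hK : 0 < K)
    (hq : 0 < q) (hcop : (K * (b ^ 2 - 1)).Coprime q) :
    |(((univ : Finset Ω).filter (fun ω => n ω ≡ 1 [MOD K * (b ^ 2 - 1)] ∧ q ∣ n ω)).card : ℝ) -
      (((univ : Finset Ω).filter (fun ω => (n ω : ℤ) ≡ 1 [ZMOD (b ^ 2 - 1 : ℕ)])).card : ℝ) / K / q| ≤
      1 / ((K * (b ^ 2 - 1) * q : ℕ) : ℝ) *
        ∑ c ∈ (range (K * (b ^ 2 - 1) * q)).filter
          (fun c => ¬ K * (b ^ 2 - 1) * q ∣ (b ^ 2 - 1) * c),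
          ‖∑ ω, ex (n ω * ((c : ℝ) / ((K * (b ^ 2 - 1) * q : ℕ) : ℝ)))‖ := by
  have hB0 : 0 < b ^ 2 - 1 := by
    have : 2 ^ 2 ≤ b ^ 2 := Nat.pow_le_pow_left hb 2
    omega
  set B := b ^ 2 - 1 with hB
  set M := K * B * q with hM
  have hM0 : 0 < M := by positivity
  have hgcd : Nat.gcd M B = B := by
    rw [Nat.gcd_comm]
    exact Nat.gcd_eq_left ((Dvd.intro_left K rfl).trans (Dvd.intro _ rfl))
  obtain ⟨α, hα1, hα2⟩ := Nat.chineseRemainder hcop 1 0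
  have h1 : ((univ : Finset Ω).filter (fun ω => n ω ≡ 1 [MOD K * B] ∧ q ∣ n ω)) =
      (univ : Finset Ω).filter (fun ω => (n ω : ℤ) ≡ ((α : ℕ) : ℤ) [ZMOD M]) := by
    refine Finset.filter_congr fun h _ => ?_
    rw [Int.natCast_modEq_iff, hM, ← Nat.modEq_and_modEq_iff_modEq_mul hcop]
    constructor
    · rintro ⟨a1, a2⟩
      exact ⟨a1.trans hα1.symm, ((Nat.modEq_zero_iff_dvd).mpr a2).trans hα2.symm⟩
    · rintro ⟨a1, a2⟩
      exact ⟨a1.trans hα1, (Nat.modEq_zero_iff_dvd).mp (a2.trans hα2)⟩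
  have h2 : ((univ : Finset Ω).filter (fun ω => (n ω : ℤ) ≡ 1 [ZMOD (B : ℕ)])) =
      (univ : Finset Ω).filter (fun ω => (n ω : ℤ) ≡ ((α : ℕ) : ℤ) [ZMOD (B : ℕ)]) := by
    refine Finset.filter_congr fun h _ => ?_
    have e1 : ((α : ℕ) : ℤ) ≡ 1 [ZMOD (B : ℤ)] := by
      have e2 : α ≡ 1 [MOD B] := hα1.of_mul_left K
      have := Int.natCast_modEq_iff.mpr e2
      rw [Nat.cast_one] at this
      exact this
    exact ⟨fun h => h.trans e1.symm, fun h => h.trans e1⟩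
  have d1 := cnt_gen (univ : Finset Ω) n (q := M) (B := B) hM0 ((α : ℕ) : ℤ)
  rw [hgcd, ← h2, ← h1] at d1
  have hKr : (0 : ℝ) < K := by exact_mod_cast hK
  have hqr : (0 : ℝ) < q := by exact_mod_cast hq
  have hBr : (0 : ℝ) < B := by exact_mod_cast hB0
  have h4 : (((univ : Finset Ω).filter (fun ω => (n ω : ℤ) ≡ 1 [ZMOD (B : ℕ)])).card : ℝ) / K / q =
      (B : ℝ) / M *
        (((univ : Finset Ω).filter (fun ω => (n ω : ℤ) ≡ 1 [ZMOD (B : ℕ)])).card : ℝ) := by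
    rw [hM]
    push_cast
    field_simp
  rw [h4]
  exact d1

/-- A finite family may be indexed by natural numbers. -/
lemma exists_transfer {Ω : Type} [Fintype Ω] (n : Ω → ℕ) :
    ∃ (N : ℕ) (a : ℕ → ℕ), ∀ (P : ℕ → Prop) [DecidablePred P],
      ((range N).filter (fun i => P (a i))).card =
        ((univ : Finset Ω).filter (fun ω => P (n ω))).card := by
  classical
  have e := Fintype.equivFin Ω
  refine ⟨Fintype.card Ω, fun i => if h : i < Fintype.card Ω then n (e.symm ⟨i, h⟩) else 0, ?_⟩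
  intro P _
  refine Finset.card_bij (fun i hi => e.symm ⟨i, mem_range.mp (mem_filter.mp hi).1⟩) ?_ ?_ ?_
  · intro i hi
    have h1 := mem_range.mp (mem_filter.mp hi).1
    have h2 := (mem_filter.mp hi).2
    simp only [h1, dif_pos] at h2
    exact mem_filter.mpr ⟨mem_univ _, h2⟩
  · intro i hi j hj hij
    have := e.symm.injective hij
    simpa using this
  · intro ω hω
    refine ⟨(e ω : ℕ), ?_, ?_⟩
    · rw [mem_filter, mem_range]
      refine ⟨(e ω).2, ?_⟩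
      simp only [(e ω).2, dif_pos]
      have := (mem_filter.mp hω).2
      simpa using this
    · simp

end Pool.Agent.PalW
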