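import Pool.Agent.PalW.Gen

/-!
# Exponential sums over the palindromes built from letters
-/

namespace Pool.Agent.PalW

open Finset Pool.Agent.Pal

section

variable {A : Type} (g : A → ℕ) {b : ℕ}

/-- The exponential of a sum is the product of the exponentials. -/
private lemma ex_sum {ι : Type} (s : Finset ι) (f : ι → ℝ) :
    ex (∑ j ∈ s, f j) = ∏ j ∈ s, ex (f j) := by
  classical
  induction s using Finset.induction_on with
  | empty => simp [ex_zero]
  | insert a s ha ih => rw [Finset.sum_insert ha, Finset.prod_insert ha, ex_add, ih]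

/-- The exponential sum factorises. -/
lemma norm_exp_nv [Fintype A] [Nonempty A] (m : ℕ) (α : ℝ) :
    ‖∑ ω : Fin m → A, ex (nv g b m ω * α)‖ =
      (Fintype.card A : ℝ) ^ m * Bk (psi g) b (2 * m) 0 m (b * α) := by
  have hA : (Fintype.card A : ℝ) ≠ 0 := by
    exact_mod_cast Fintype.card_ne_zero
  have h1 : ∀ ω : Fin m → A, ex (nv g b m ω * α) =
      ex ((1 + (b : ℝ) ^ (2 * m + 2) + (b : ℝ) ^ (m + 1)) * α) *
        ∏ j : Fin m, ex (g (ω j) * (b * α * wt b (2 * m) j)) := by
    intro ω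
    rw [← ex_sum, ← ex_add]
    congr 1
    unfold nv
    push_cast
    rw [Finset.mul_sum, add_mul, Finset.sum_mul]
    congr 1
    refine Finset.sum_congr rfl fun j _ => ?_
    ring
  have h2 : ∑ ω : Fin m → A, ex (nv g b m ω * α) =
      ex ((1 + (b : ℝ) ^ (2 * m + 2) + (b : ℝ) ^ (m + 1)) * α) *
        ∏ j : Fin m, ∑ a, ex (g a * (b * α * wt b (2 * m) j)) := by
    rw [Finset.prod_univ_sum, Fintype.piFinset_univ, Finset.mul_sum]
    exact Finset.sum_congr rfl fun ω _ => h1 ω
  rw [h2, norm_mul, norm_ex, one_mul, norm_prod]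
  unfold Bk psi
  have h3 : ∏ i ∈ Ico 0 m, ‖∑ a, ex (g a * (b * α * wt b (2 * m) i))‖ / (Fintype.card A : ℝ) =
      (∏ j : Fin m, ‖∑ a, ex (g a * (b * α * wt b (2 * m) j))‖) / (Fintype.card A : ℝ) ^ m := by
    rw [Finset.prod_div_distrib, Finset.prod_const, Nat.card_Ico, Nat.sub_zero,
      ← Finset.range_eq_Ico]
    congr 1
    exact (Fin.prod_univ_eq_prod_range
      (fun i => ‖∑ a, ex (g a * (b * α * wt b (2 * m) i))‖) m).symm
  rw [h3, mul_div_cancel₀ _ (pow_ne_zero m hA)]

end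

end Pool.Agent.PalW
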