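import Pool.Agent.PalW.Gen

/-!
# Palindromes built from letters modulo `b ^ 2 - 1`
-/

namespace Pool.Agent.PalW

open Finset Pool.Agent.Pal

section

variable {A : Type} (g : A → ℕ) {b : ℕ}

/-- A positive proportion is `1` modulo `b ^ 2 - 1`. -/
lemma N1_ge_gen [Fintype A] [DecidableEq A] (hb : 2 ≤ b) (hg : ∀ d < b, ∃ a, g a = d) {m : ℕ}
    (hm : Odd m) (hm3 : 3 ≤ m) :
    (Fintype.card A) ^ m ≤ (Fintype.card A) ^ 2 *
      ((univ : Finset (Fin m → A)).filter (fun ω => (nv g b m ω : ℤ) ≡ 1 [ZMOD (b ^ 2 - 1 : ℕ)])).card := by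
  classical
  obtain ⟨n, rfl⟩ : ∃ n, m = n + 2 := ⟨m - 2, by omega⟩
  have hb2 : 4 ≤ b ^ 2 := by nlinarith
  obtain ⟨N, hN⟩ : ∃ N, N = b ^ 2 - 1 := ⟨_, rfl⟩
  have : NeZero N := ⟨by omega⟩
  rw [← hN]
  have hβ : (b : ZMod N) ^ 2 = 1 := by
    have h1 : ((b ^ 2 : ℕ) : ZMod N) = ((N + 1 : ℕ) : ZMod N) := by
      congr 1; omega
    push_cast at h1
    rw [h1, ZMod.natCast_self]; ring
  obtain ⟨k, hk⟩ := hm
  have hpow : ∀ i : ℕ, (b : ZMod N) ^ (2 * i) = 1 := fun i => by rw [pow_mul, hβ, one_pow]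
  -- the value of `nv` in `ZMod N`
  have hnv : ∀ ω : Fin (n + 2) → A, ((nv g b (n + 2) ω : ℕ) : ZMod N)
      = 3 + 2 * ∑ j : Fin (n + 2), (g (ω j) : ZMod N) * (b : ZMod N) ^ ((j : ℕ) + 1) := by
    intro ω
    unfold nv wt
    push_cast
    have e1 : (b : ZMod N) ^ (2 * (n + 2) + 2) = 1 := by
      rw [show 2 * (n + 2) + 2 = 2 * (n + 3) by ring]; exact hpow _
    have e2 : (b : ZMod N) ^ (n + 2 + 1) = 1 := by
      rw [show n + 2 + 1 = 2 * (k + 1) by omega]; exact hpow _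
    rw [e1, e2, Finset.mul_sum, Finset.mul_sum]
    have e3 : ∀ j : Fin (n + 2), (b : ZMod N) * ((g (ω j) : ZMod N) *
        ((b : ZMod N) ^ (j : ℕ) + (b : ZMod N) ^ (2 * (n + 2) - (j : ℕ))))
        = 2 * ((g (ω j) : ZMod N) * (b : ZMod N) ^ ((j : ℕ) + 1)) := by
      intro j
      have hj : (j : ℕ) < n + 2 := j.2
      have e4 : (b : ZMod N) ^ (2 * (n + 2) - (j : ℕ)) = (b : ZMod N) ^ (j : ℕ) := by
        have h5 : (b : ZMod N) ^ (2 * (n + 2) - (j : ℕ)) * (b : ZMod N) ^ (j : ℕ) = 1 := by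
          rw [← pow_add, show 2 * (n + 2) - (j : ℕ) + (j : ℕ) = 2 * (n + 2) by omega]
          exact hpow _
        have h6 : (b : ZMod N) ^ (j : ℕ) * (b : ZMod N) ^ (j : ℕ) = 1 := by
          rw [← pow_add, show (j : ℕ) + (j : ℕ) = 2 * (j : ℕ) by ring]; exact hpow _
        calc (b : ZMod N) ^ (2 * (n + 2) - (j : ℕ))
            = (b : ZMod N) ^ (2 * (n + 2) - (j : ℕ)) * ((b : ZMod N) ^ (j : ℕ) * (b : ZMod N) ^ (j : ℕ)) := by
              rw [h6, mul_one]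
          _ = ((b : ZMod N) ^ (2 * (n + 2) - (j : ℕ)) * (b : ZMod N) ^ (j : ℕ)) * (b : ZMod N) ^ (j : ℕ) := by
              ring
          _ = (b : ZMod N) ^ (j : ℕ) := by rw [h5, one_mul]
      rw [e4]; ring
    rw [Finset.sum_congr rfl fun j _ => e3 j]
    ring
  have hex : ∀ τ : Fin n → A, ∃ p : A × A,
      ((nv g b (n + 2) (Fin.cons p.1 (Fin.cons p.2 τ : Fin (n + 1) → A) : Fin (n + 2) → A) : ℕ) : ZMod N) = 1 := by
    intro τ
    obtain ⟨S, hS⟩ : ∃ S : ZMod N, S = ∑ i : Fin n, (g (τ i) : ZMod N) * (b : ZMod N) ^ ((i : ℕ) + 3) :=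
      ⟨_, rfl⟩
    obtain ⟨v, hv⟩ : ∃ v, v = (-(1 + S)).val := ⟨_, rfl⟩
    have hvN : v < N := by rw [hv]; exact ZMod.val_lt _
    have hvc : ((v : ℕ) : ZMod N) = -(1 + S) := by rw [hv]; exact ZMod.natCast_zmod_val _
    have hlt : v < b * b := by
      have : b * b = b ^ 2 := by ring
      omega
    have h0 : v / b < b := Nat.div_lt_of_lt_mul hlt
    have h1 : v % b < b := Nat.mod_lt _ (by omega)
    obtain ⟨a0, ha0⟩ := hg _ h0
    obtain ⟨a1, ha1⟩ := hg _ h1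
    refine ⟨(a0, a1), ?_⟩
    rw [hnv, Fin.sum_univ_succ, Fin.sum_univ_succ]
    simp only [Fin.cons_zero, Fin.cons_succ, Fin.val_zero, Fin.val_succ, zero_add, pow_one]
    have e1 : ∑ i : Fin n, (g (τ i) : ZMod N) * (b : ZMod N) ^ ((i : ℕ) + 1 + 1 + 1) = S := by
      rw [hS]
    rw [e1, ha0, ha1]
    have e2 : ((v % b + b * (v / b) : ℕ) : ZMod N) = -(1 + S) := by
      rw [Nat.mod_add_div]; exact hvc
    push_cast at e2
    have e3 : (b : ZMod N) ^ (1 + 1) = 1 := hβ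
    rw [e3]
    linear_combination 2 * e2
  choose p hp using hex
  have hcard : (Fintype.card A) ^ n ≤
      ((univ : Finset (Fin (n + 2) → A)).filter
        (fun ω => (nv g b (n + 2) ω : ℤ) ≡ 1 [ZMOD (N : ℕ)])).card := by
    have h1 : (Fintype.card A) ^ n = (univ : Finset (Fin n → A)).card := by
      rw [Finset.card_univ, Fintype.card_fun, Fintype.card_fin]
    rw [h1]
    refine Finset.card_le_card_of_injOn
      (fun τ => (Fin.cons (p τ).1 (Fin.cons (p τ).2 τ : Fin (n + 1) → A) : Fin (n + 2) → A)) ?_ ?_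
    · intro τ _
      simp only [Finset.coe_filter, Finset.mem_univ, true_and, Set.mem_ofPred_eq]
      rw [← ZMod.intCast_eq_intCast_iff]
      push_cast
      exact hp τ
    · intro τ _ τ' _ h
      have h2 := (Fin.cons_injective2 h).2
      exact (Fin.cons_injective2 h2).2
  calc (Fintype.card A) ^ (n + 2) = (Fintype.card A) ^ 2 * (Fintype.card A) ^ n := by ring
    _ ≤ _ := Nat.mul_le_mul_left _ hcard

end

end Pool.Agent.PalW
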