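import Pool.Agent.PalW.Base
import Pool.Agent.PalSieve.WSieve

/-!
# Averages over the moduli
-/

namespace Pool.Agent.PalW

open Finset Pool.Agent.Pal Pool.Agent.PalL

/-- The average over the moduli, with divisor weights. -/
theorem mod_gen {b : ℕ} (hb : 2 ≤ b) {θ : ℝ} (hθ : θ < 1 / 2) {Ψ : ℕ → ℝ → ℝ}
    (h0 : ∀ m α, 0 ≤ Ψ m α) (hF : HasF b θ Ψ) (A : ℕ) :
    ∃ (σ C : ℝ), 0 < σ ∧ 0 < C ∧ ∀ m Q : ℕ, 1 ≤ m → 1 ≤ Q →
      Real.log Q ≤ θ * Real.log b * (2 * m) →
      ∑ q ∈ (Icc 1 Q).filter (fun q => q.Coprime b), (q.divisors.card : ℝ) ^ A * (1 / (q : ℝ) *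
        ∑ c ∈ (range q).filter (fun c => ¬ q ∣ (b ^ 2 - 1) * c), Ψ m ((c : ℝ) / q)) ≤
      C * Real.exp (-σ * Real.sqrt (2 * m)) := by
  obtain ⟨σ, δ, C, hσ, hδ, hC, hmain⟩ := hF
  obtain ⟨Cd, hCd, hdiv⟩ := card_divisors_le_rpow (η := δ / (A + 1)) (by positivity)
  have hL := log_pos_b hb
  set L := Real.log b with hLdef
  obtain ⟨Cp, hCp, hpoly⟩ := exists_pow_mul_exp_le hσ (2 ^ A + 1)
  have hCd0 : 0 < Cd := by linarith
  refine ⟨σ / 2, (2 * (1 + L) ^ (2 ^ A + 1)) * (Cd ^ A * Real.exp δ * C) * Cp, by positivity,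
    by positivity, ?_⟩
  intro m Q hm hQ hQL
  have hmr : (1 : ℝ) ≤ 2 * m := by
    have : (1 : ℝ) ≤ m := by exact_mod_cast hm
    linarith
  have hlogQ : 0 ≤ Real.log Q := Real.log_nonneg (by exact_mod_cast hQ)
  have hlogQ' : Real.log Q ≤ L * (2 * m) := by
    refine hQL.trans ?_
    have : 0 ≤ (1 - θ) * (L * (2 * m)) := mul_nonneg (by linarith) (by positivity)
    linarith
  set W : ℝ := Cd ^ A * Real.exp δ * (C * Real.exp (-σ * Real.sqrt (2 * m))) with hW
  have hW0 : 0 ≤ W := by positivity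
  have hstep : ∑ q ∈ (Icc 1 Q).filter (fun q => q.Coprime b), (q.divisors.card : ℝ) ^ A *
        (1 / (q : ℝ) * ∑ c ∈ (range q).filter (fun c => ¬ q ∣ (b ^ 2 - 1) * c),
          Ψ m ((c : ℝ) / q)) ≤
      ∑ j ∈ Ico 1 (Nat.log 2 Q + 1), (1 + Real.log Q) ^ (2 ^ A) * W := by
    calc ∑ q ∈ (Icc 1 Q).filter (fun q => q.Coprime b), (q.divisors.card : ℝ) ^ A *
        (1 / (q : ℝ) * ∑ c ∈ (range q).filter (fun c => ¬ q ∣ (b ^ 2 - 1) * c),
          Ψ m ((c : ℝ) / q))
        ≤ ∑ q ∈ (Icc 1 Q).filter (fun q => q.Coprime b), (q.divisors.card : ℝ) ^ A *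
          (1 / (q : ℝ) * ∑ j ∈ Ico 1 (Nat.log 2 Q + 1),
            ∑ x ∈ (J b (2 ^ j)).filter (fun x => x.1 ∣ q), Ψ m (pt b x)) := by
          refine Finset.sum_le_sum fun q hq => ?_
          rw [mem_filter, mem_Icc] at hq
          refine mul_le_mul_of_nonneg_left ?_ (by positivity)
          exact mul_le_mul_of_nonneg_left (sum_frac_le hb (by omega) hq.1.2 hq.2 (Ψ m)
            (h0 m)) (by positivity)
      _ = ∑ j ∈ Ico 1 (Nat.log 2 Q + 1), ∑ x ∈ J b (2 ^ j), Ψ m (pt b x) *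
            ∑ q ∈ (Icc 1 Q).filter (fun q => q.Coprime b),
              (if x.1 ∣ q then (q.divisors.card : ℝ) ^ A / (q : ℝ) else 0) := by
          have e1 : ∀ q ∈ (Icc 1 Q).filter (fun q => q.Coprime b), (q.divisors.card : ℝ) ^ A *
              (1 / (q : ℝ) * ∑ j ∈ Ico 1 (Nat.log 2 Q + 1),
                ∑ x ∈ (J b (2 ^ j)).filter (fun x => x.1 ∣ q), Ψ m (pt b x)) =
              ∑ j ∈ Ico 1 (Nat.log 2 Q + 1), ∑ x ∈ J b (2 ^ j), Ψ m (pt b x) *
                (if x.1 ∣ q then (q.divisors.card : ℝ) ^ A / (q : ℝ) else 0) := by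
            intro q _
            rw [Finset.mul_sum, Finset.mul_sum]
            refine Finset.sum_congr rfl fun j _ => ?_
            rw [Finset.sum_filter, Finset.mul_sum, Finset.mul_sum]
            refine Finset.sum_congr rfl fun x _ => ?_
            split_ifs <;> ring
          rw [Finset.sum_congr rfl e1, Finset.sum_comm]
          refine Finset.sum_congr rfl fun j _ => ?_
          rw [Finset.sum_comm]
          refine Finset.sum_congr rfl fun x _ => ?_
          rw [Finset.mul_sum]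
      _ ≤ ∑ j ∈ Ico 1 (Nat.log 2 Q + 1), ∑ x ∈ J b (2 ^ j), Ψ m (pt b x) *
            ((1 + Real.log Q) ^ (2 ^ A) *
              (Cd ^ A * Real.exp δ * Real.exp (δ * Real.log ((2 ^ j : ℕ) : ℝ)) / 2 ^ j)) := by
          refine Finset.sum_le_sum fun j hj => Finset.sum_le_sum fun x hx => ?_
          refine mul_le_mul_of_nonneg_left ?_ (h0 _ _)
          rw [mem_J] at hx
          have hx1 : 0 < x.1 := lt_of_lt_of_le (by positivity) hx.1
          have hx1r : (0 : ℝ) < x.1 := by exact_mod_cast hx1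
          have h2j : (2 : ℝ) ^ j ≤ x.1 := by exact_mod_cast hx.1
          have h1 : ∑ q ∈ (Icc 1 Q).filter (fun q => q.Coprime b),
              (if x.1 ∣ q then (q.divisors.card : ℝ) ^ A / (q : ℝ) else 0) ≤
              ∑ e ∈ Icc 1 Q, (x.1.divisors.card : ℝ) ^ A / (x.1 : ℝ) *
                ((e.divisors.card : ℝ) ^ A / (e : ℝ)) := by
            rw [← Finset.sum_filter]
            have h2 : ∑ e ∈ Icc 1 Q, (x.1.divisors.card : ℝ) ^ A / (x.1 : ℝ) *
                ((e.divisors.card : ℝ) ^ A / (e : ℝ)) ≥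
                ∑ q ∈ (Icc 1 Q).image (fun e => x.1 * e), (q.divisors.card : ℝ) ^ A / (q : ℝ) := by
              rw [sum_image (by
                intro u _ v _ huv
                exact Nat.eq_of_mul_eq_mul_left hx1 huv)]
              refine Finset.sum_le_sum fun e _ => ?_
              push_cast
              rw [div_mul_div_comm, ← mul_pow]
              refine div_le_div_of_nonneg_right (pow_le_pow_left₀ (by positivity) ?_ A)
                (by positivity)
              exact_mod_cast card_divisors_mul_le x.1 e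
            refine le_trans ?_ h2
            refine sum_le_sum_of_subset_of_nonneg ?_ fun _ _ _ => by positivity
            intro q hq
            rw [mem_filter, mem_filter, mem_Icc] at hq
            obtain ⟨⟨⟨q1, q2⟩, _⟩, e, he⟩ := hq
            rw [mem_image]
            refine ⟨e, ?_, he.symm⟩
            rw [mem_Icc]
            constructor
            · rcases Nat.eq_zero_or_pos e with h | h
              · rw [h] at he; omega
              · exact h
            · calc e ≤ x.1 * e := Nat.le_mul_of_pos_left e hx1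
                _ = q := he.symm
                _ ≤ Q := q2
          refine h1.trans ?_
          rw [← Finset.mul_sum, mul_comm]
          refine mul_le_mul (sum_tau_pow_le A Q hQ) ?_ (by positivity) (by positivity)
          have h3 : (x.1.divisors.card : ℝ) ^ A ≤
              Cd ^ A * Real.exp δ * Real.exp (δ * Real.log ((2 ^ j : ℕ) : ℝ)) := by
            have h4 := hdiv x.1 hx1
            have h5 : (x.1.divisors.card : ℝ) ^ A ≤ (Cd * (x.1 : ℝ) ^ (δ / (A + 1))) ^ A :=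
              pow_le_pow_left₀ (by positivity) h4 A
            refine h5.trans ?_
            rw [mul_pow, mul_assoc]
            refine mul_le_mul_of_nonneg_left ?_ (by positivity)
            rw [← Real.exp_add, ← Real.rpow_natCast, ← Real.rpow_mul hx1r.le,
              Real.rpow_def_of_pos hx1r, Real.exp_le_exp]
            have h6 : Real.log x.1 ≤ 1 + Real.log ((2 ^ j : ℕ) : ℝ) := by
              have h7 : (x.1 : ℝ) ≤ 2 * ((2 ^ j : ℕ) : ℝ) := by exact_mod_cast hx.2.1.le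
              have h8 := Real.log_le_log hx1r h7
              rw [Real.log_mul (by norm_num) (by positivity)] at h8
              have := Real.log_two_lt_d9
              linarith
            have h9 : 0 ≤ Real.log x.1 := Real.log_nonneg (by exact_mod_cast hx1)
            have h10 : δ / (A + 1) * A ≤ δ := by
              rw [div_mul_eq_mul_div, div_le_iff₀ (by positivity)]
              nlinarith
            calc Real.log x.1 * (δ / (A + 1) * A) ≤ Real.log x.1 * δ :=
                  mul_le_mul_of_nonneg_left h10 h9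
              _ ≤ (1 + Real.log ((2 ^ j : ℕ) : ℝ)) * δ := mul_le_mul_of_nonneg_right h6 hδ.le
              _ = _ := by ring
          calc (x.1.divisors.card : ℝ) ^ A / (x.1 : ℝ)
              ≤ (Cd ^ A * Real.exp δ * Real.exp (δ * Real.log ((2 ^ j : ℕ) : ℝ))) / (x.1 : ℝ) :=
                div_le_div_of_nonneg_right h3 hx1r.le
            _ ≤ _ := div_le_div_of_nonneg_left (by positivity) (by positivity) h2j
      _ ≤ ∑ j ∈ Ico 1 (Nat.log 2 Q + 1), (1 + Real.log Q) ^ (2 ^ A) * W := by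
          refine Finset.sum_le_sum fun j hj => ?_
          rw [mem_Ico] at hj
          rw [← Finset.sum_mul]
          have h2j : 2 ≤ 2 ^ j := by
            calc 2 = 2 ^ 1 := by norm_num
              _ ≤ 2 ^ j := Nat.pow_le_pow_right (by norm_num) hj.1
          have h2jQ : 2 ^ j ≤ Q := by
            calc 2 ^ j ≤ 2 ^ Nat.log 2 Q := Nat.pow_le_pow_right (by norm_num) (by omega)
              _ ≤ Q := Nat.pow_log_le_self 2 (by omega)
          have hlog : Real.log ((2 ^ j : ℕ) : ℝ) ≤ θ * L * (2 * m) := by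
            refine le_trans (Real.log_le_log ?_ ?_) hQL
            · have : 0 < 2 ^ j := by positivity
              exact_mod_cast this
            · exact_mod_cast h2jQ
          have h := hmain m (2 ^ j) h2j hlog
          have hjpos : (0 : ℝ) < 2 ^ j := by positivity
          calc (∑ x ∈ J b (2 ^ j), Ψ m (pt b x)) * ((1 + Real.log Q) ^ (2 ^ A) *
              (Cd ^ A * Real.exp δ * Real.exp (δ * Real.log ((2 ^ j : ℕ) : ℝ)) / 2 ^ j))
              ≤ (C * ((2 ^ j : ℕ) : ℝ) *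
                  Real.exp (-σ * Real.sqrt (2 * m) - δ * Real.log ((2 ^ j : ℕ) : ℝ))) *
                  ((1 + Real.log Q) ^ (2 ^ A) *
              (Cd ^ A * Real.exp δ * Real.exp (δ * Real.log ((2 ^ j : ℕ) : ℝ)) / 2 ^ j)) :=
                mul_le_mul_of_nonneg_right h (by positivity)
            _ = (1 + Real.log Q) ^ (2 ^ A) * W := by
                rw [hW, Real.exp_sub]
                have : Real.exp (δ * Real.log ((2 ^ j : ℕ) : ℝ)) ≠ 0 := (Real.exp_pos _).ne'
                push_cast at this ⊢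
                field_simp
  refine hstep.trans ?_
  rw [sum_const, Nat.card_Ico, nsmul_eq_mul]
  have e1 : Nat.log 2 Q + 1 - 1 = Nat.log 2 Q := by omega
  rw [e1]
  have hlog2 : (Nat.log 2 Q : ℝ) ≤ 2 * (L * (2 * m)) := by
    have h1 : 2 ^ Nat.log 2 Q ≤ Q := Nat.pow_log_le_self 2 (by omega)
    have h2 : ((2 : ℝ)) ^ Nat.log 2 Q ≤ Q := by exact_mod_cast h1
    have h3 := Real.log_le_log (by positivity) h2
    rw [Real.log_pow] at h3
    have h4 : (1 : ℝ) / 2 ≤ Real.log 2 := by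
      have := Real.log_two_gt_d9; linarith
    have h5 : (Nat.log 2 Q : ℝ) * (1 / 2) ≤ (Nat.log 2 Q : ℝ) * Real.log 2 :=
      mul_le_mul_of_nonneg_left h4 (Nat.cast_nonneg _)
    linarith
  have hcoef : (Nat.log 2 Q : ℝ) * (1 + Real.log Q) ^ (2 ^ A) ≤
      2 * (1 + L) ^ (2 ^ A + 1) * (2 * m : ℝ) ^ (2 ^ A + 1) := by
    calc (Nat.log 2 Q : ℝ) * (1 + Real.log Q) ^ (2 ^ A)
        ≤ (2 * ((1 + L) * (2 * m))) * ((1 + L) * (2 * m)) ^ (2 ^ A) := by
          refine mul_le_mul (by nlinarith) (pow_le_pow_left₀ (by positivity) (by nlinarith) _)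
            (by positivity) (by positivity)
      _ = _ := by rw [mul_pow, pow_succ, pow_succ]; ring
  have hp := hpoly (2 * m)
  push_cast at hp
  calc (Nat.log 2 Q : ℝ) * ((1 + Real.log Q) ^ (2 ^ A) * W)
      = ((Nat.log 2 Q : ℝ) * (1 + Real.log Q) ^ (2 ^ A)) * W := by ring
    _ ≤ (2 * (1 + L) ^ (2 ^ A + 1) * (2 * m : ℝ) ^ (2 ^ A + 1)) * W :=
        mul_le_mul_of_nonneg_right hcoef hW0
    _ = (2 * (1 + L) ^ (2 ^ A + 1)) * (Cd ^ A * Real.exp δ * C) *
        ((2 * m : ℝ) ^ (2 ^ A + 1) * Real.exp (-σ * Real.sqrt (2 * m))) := by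
        rw [hW]; ring
    _ ≤ (2 * (1 + L) ^ (2 ^ A + 1)) * (Cd ^ A * Real.exp δ * C) *
        (Cp * Real.exp (-(σ / 2) * Real.sqrt (2 * m))) := mul_le_mul_of_nonneg_left hp (by positivity)
    _ = _ := by ring

/-- The total error of the sieve. -/
theorem Etot_gen {b : ℕ} (hb : 2 ≤ b) {K w : ℕ} (hK : 0 < K) (hKb : K.Coprime b) (hbw : b ≤ w)
    {θ : ℝ} (hθ : θ < 1 / 2) {Ψ : ℕ → ℝ → ℝ} (h0 : ∀ m α, 0 ≤ Ψ m α) (hF : HasF b θ Ψ) :
    ∃ σ C : ℝ, 0 < σ ∧ 0 < C ∧ ∀ m D : ℕ, 1 ≤ m → 1 ≤ D →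
      Real.log ((K * (b ^ 2 - 1) * D : ℕ) : ℝ) ≤ θ * Real.log b * (2 * m) →
      Sv.Etot w D (fun q => 1 / ((K * (b ^ 2 - 1) * q : ℕ) : ℝ) *
        ∑ c ∈ (range (K * (b ^ 2 - 1) * q)).filter
          (fun c => ¬ K * (b ^ 2 - 1) * q ∣ (b ^ 2 - 1) * c),
          Ψ m ((c : ℝ) / ((K * (b ^ 2 - 1) * q : ℕ) : ℝ))) ≤
        C * Real.exp (-σ * Real.sqrt (2 * m)) := by
  obtain ⟨σ, C, hσ, hC, hmain⟩ := mod_gen hb hθ h0 hF 3
  refine ⟨σ, C, hσ, hC, ?_⟩
  intro m D hm hD hlog
  have hB3 := sq_sub_one_pos hb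
  have hB0 : 0 < b ^ 2 - 1 := by omega
  set B := b ^ 2 - 1 with hB
  have hBb : B.Coprime b := by
    have hb1 : 1 ≤ b ^ 2 := Nat.one_le_pow _ _ (by omega)
    have h2 : b ^ 2 - 1 + 1 = b ^ 2 := Nat.sub_add_cancel hb1
    have h3 : (b ^ 2 - 1).Coprime (b ^ 2) := by
      rw [← h2]; simp
    exact Nat.Coprime.coprime_dvd_right (dvd_pow_self b two_ne_zero) h3
  refine le_trans ?_ (hmain m (K * B * D) hm (by
    have : 0 < K * B * D := by positivity
    omega) hlog)
  unfold Sv.Etot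
  have hinj : Set.InjOn (fun q => K * B * q) (Sv.MM w D : Set ℕ) := by
    intro x _ y _ hxy
    exact Nat.eq_of_mul_eq_mul_left (by positivity) hxy
  have e1 : ∀ q ∈ Sv.MM w D, (q.divisors.card : ℝ) ^ 3 * (1 / ((K * B * q : ℕ) : ℝ) *
      ∑ c ∈ (range (K * B * q)).filter (fun c => ¬ K * B * q ∣ (b ^ 2 - 1) * c),
          Ψ m ((c : ℝ) / ((K * B * q : ℕ) : ℝ))) ≤
      ((K * B * q).divisors.card : ℝ) ^ 3 * (1 / ((K * B * q : ℕ) : ℝ) *
        ∑ c ∈ (range (K * B * q)).filter (fun c => ¬ K * B * q ∣ (b ^ 2 - 1) * c),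
          Ψ m ((c : ℝ) / ((K * B * q : ℕ) : ℝ))) := by
    intro q hq
    unfold Sv.MM at hq
    rw [mem_filter, mem_Ico] at hq
    have e2 : q.divisors.card ≤ (K * B * q).divisors.card := by
      refine card_le_card (Nat.divisors_subset_of_dvd ?_ (Dvd.intro_left _ rfl))
      have : 0 < K * B * q := by
        have := hq.1.1
        positivity
      omega
    have e3 : (q.divisors.card : ℝ) ^ 3 ≤ ((K * B * q).divisors.card : ℝ) ^ 3 :=
      pow_le_pow_left₀ (Nat.cast_nonneg _) (by exact_mod_cast e2) 3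
    refine mul_le_mul_of_nonneg_right e3 ?_
    have : 0 ≤ ∑ c ∈ (range (K * B * q)).filter (fun c => ¬ K * B * q ∣ (b ^ 2 - 1) * c),
          Ψ m ((c : ℝ) / ((K * B * q : ℕ) : ℝ)) := Finset.sum_nonneg fun _ _ => h0 _ _
    positivity
  refine (Finset.sum_le_sum e1).trans ?_
  rw [← sum_image (f := fun q : ℕ => (q.divisors.card : ℝ) ^ 3 * (1 / (q : ℝ) *
      ∑ c ∈ (range q).filter (fun c => ¬ q ∣ (b ^ 2 - 1) * c), Ψ m ((c : ℝ) / q))) hinj]
  refine sum_le_sum_of_subset_of_nonneg ?_ fun q _ _ => ?_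
  · intro x hx
    obtain ⟨q, hq, rfl⟩ := mem_image.mp hx
    unfold Sv.MM at hq
    rw [mem_filter, mem_Ico] at hq
    rw [mem_filter, mem_Icc]
    refine ⟨⟨?_, Nat.mul_le_mul_left _ hq.1.2.le⟩, ?_⟩
    · have : 0 < K * B * q := by
        have := hq.1.1
        positivity
      omega
    · refine Nat.Coprime.mul_left (Nat.Coprime.mul_left hKb hBb) ?_
      rw [Nat.coprime_iff_gcd_eq_one]
      by_contra hne
      obtain ⟨p, hp, hpd⟩ := Nat.exists_prime_and_dvd hne
      have p1 : p ∣ q := hpd.trans (Nat.gcd_dvd_left _ _)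
      have p2 : p ∣ b := hpd.trans (Nat.gcd_dvd_right _ _)
      have p3 := hq.2 p (Nat.mem_primeFactors.mpr ⟨hp, p1, by omega⟩)
      have p4 := Nat.le_of_dvd (by omega) p2
      omega
  · have : 0 ≤ ∑ c ∈ (range q).filter (fun c => ¬ q ∣ (b ^ 2 - 1) * c),
        Ψ m ((c : ℝ) / q) := Finset.sum_nonneg fun _ _ => h0 _ _
    positivity

end Pool.Agent.PalW
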