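import Pool.Agent.PalW.Cnt

/-!
# Members divisible by squares of primes
-/

namespace Pool.Agent.PalW

open Finset Pool.Agent.Pal Pool.Agent.PalL

/-- Members divisible by squares of primes, one dyadic block. -/
theorem sq_block_gen {b : ℕ} (hb : 2 ≤ b) {θ c0 : ℝ} {Ψ : ℕ → ℝ → ℝ}
    (h0 : ∀ m α, 0 ≤ Ψ m α) (hF : HasF b θ Ψ) (hFS : HasFS b θ Ψ) (hc0 : 0 < c0)
    {Ω : ℕ → Type} [∀ m, Fintype (Ω m)] (n : ∀ m, Ω m → ℕ) (W : ℕ → ℝ) (hW : ∀ m, 0 < W m)
    (hcard : ∀ m, (Fintype.card (Ω m) : ℝ) ≤ W m)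
    (hexp : ∀ m α, ‖∑ ω, ex (n m ω * α)‖ ≤ W m * Ψ m α) :
    ∃ (σ C : ℝ) (m0 : ℕ), 0 < σ ∧ 0 < C ∧ ∀ m P : ℕ, m0 ≤ m → b + 2 ≤ P →
      Real.log P ≤ θ * Real.log b * (2 * m) → c0 * Real.log b * (2 * m) ≤ Real.log P →
      ∑ p ∈ (Ico P (2 * P)).filter Nat.Prime,
        (((univ : Finset (Ω m)).filter (fun ω => p ^ 2 ∣ n m ω)).card : ℝ) ≤
        C * W m * Real.exp (-σ * (2 * m)) := by
  obtain ⟨σ1, C1, m1, hσ1, hC1, h1⟩ := hFS c0 hc0
  obtain ⟨σ2, δ2, C2, hσ2, hδ2, hC2, h2⟩ := hF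
  have hb0 : (2 : ℝ) ≤ b := by exact_mod_cast hb
  have hbp : (0 : ℝ) < b := by linarith
  have hb1 : (1 : ℝ) ≤ b := by linarith
  have hL := log_pos_b hb
  set L := Real.log b with hLdef
  set σ' : ℝ := min σ1 (c0 * L) with hσ'
  refine ⟨σ', C1 + C2 + 1, m1, by positivity, by positivity, ?_⟩
  intro m P hm hP hPL hPc
  have hPp : (0 : ℝ) < P := by
    have : 0 < P := by omega
    exact_mod_cast this
  have hmn : (0 : ℝ) ≤ 2 * m := by positivity
  have hWm := hW m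
  -- each prime is coprime to `b (b^2-1)`
  have hcop : ∀ p ∈ (Ico P (2 * P)).filter Nat.Prime, p.Coprime b ∧ p.Coprime (b ^ 2 - 1) := by
    intro p hp
    rw [mem_filter, mem_Ico] at hp
    have hpp := hp.2
    constructor
    · rw [hpp.coprime_iff_not_dvd]
      intro h
      have := Nat.le_of_dvd (by omega) h
      omega
    · rw [hpp.coprime_iff_not_dvd]
      intro h
      have h3 : b ^ 2 - 1 = (b + 1) * (b - 1) := by
        have := Nat.sq_sub_sq b 1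
        simpa using this
      rw [h3, hpp.dvd_mul] at h
      rcases h with h | h
      · have := Nat.le_of_dvd (by omega) h
        omega
      · have := Nat.le_of_dvd (by omega) h
        omega
  have hterm : ∀ p ∈ (Ico P (2 * P)).filter Nat.Prime,
      (((univ : Finset (Ω m)).filter (fun ω => p ^ 2 ∣ n m ω)).card : ℝ) ≤
      W m / (P : ℝ) ^ 2 + 1 / (P : ℝ) ^ 2 *
        ∑ c ∈ (range (p ^ 2)).filter (fun c => ¬ p ^ 2 ∣ (b ^ 2 - 1) * c),
          W m * Ψ m ((c : ℝ) / ((p ^ 2 : ℕ) : ℝ)) := by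
    intro p hp
    have hc := hcop p hp
    rw [mem_filter, mem_Ico] at hp
    have hp0 : 0 < p := hp.2.pos
    have h3 := cnt_gen (univ : Finset (Ω m)) (n m) (q := p ^ 2) (B := b ^ 2 - 1)
      (by positivity) 0
    have h4 : Nat.gcd (p ^ 2) (b ^ 2 - 1) = 1 := Nat.Coprime.pow_left 2 hc.2
    rw [h4] at h3
    have h9 : (univ : Finset (Ω m)).filter (fun ω => (n m ω : ℤ) ≡ 0 [ZMOD (p ^ 2 : ℕ)]) =
        (univ : Finset (Ω m)).filter (fun ω => p ^ 2 ∣ n m ω) := by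
      refine Finset.filter_congr fun ω _ => ?_
      rw [Int.modEq_zero_iff_dvd, Int.natCast_dvd_natCast]
    rw [h9] at h3
    have h5 : (((univ : Finset (Ω m)).filter
        (fun ω => (n m ω : ℤ) ≡ 0 [ZMOD (1 : ℕ)])).card : ℝ) ≤ W m := by
      refine le_trans ?_ (hcard m)
      have := card_filter_le (univ : Finset (Ω m)) (fun ω => (n m ω : ℤ) ≡ 0 [ZMOD (1 : ℕ)])
      rw [Finset.card_univ] at this
      exact_mod_cast this
    have hPp2 : (P : ℝ) ^ 2 ≤ ((p ^ 2 : ℕ) : ℝ) := by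
      push_cast
      exact pow_le_pow_left₀ hPp.le (by exact_mod_cast hp.1.1) 2
    have h6 : (1 : ℝ) / ((p ^ 2 : ℕ) : ℝ) ≤ 1 / (P : ℝ) ^ 2 :=
      one_div_le_one_div_of_le (by positivity) hPp2
    have hS0 : 0 ≤ ∑ c ∈ (range (p ^ 2)).filter (fun c => ¬ p ^ 2 ∣ (b ^ 2 - 1) * c),
          W m * Ψ m ((c : ℝ) / ((p ^ 2 : ℕ) : ℝ)) :=
      Finset.sum_nonneg fun _ _ => mul_nonneg hWm.le (h0 _ _)
    have h7 := (abs_le.mp h3).2
    have h8 : ((1 : ℕ) : ℝ) / ((p ^ 2 : ℕ) : ℝ) * (((univ : Finset (Ω m)).filter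
        (fun ω => (n m ω : ℤ) ≡ 0 [ZMOD (1 : ℕ)])).card : ℝ) ≤ 1 / (P : ℝ) ^ 2 * W m := by
      push_cast at h6 ⊢
      exact mul_le_mul h6 (by exact_mod_cast h5) (Nat.cast_nonneg _) (by positivity)
    have h10 : 1 / ((p ^ 2 : ℕ) : ℝ) * ∑ c ∈ (range (p ^ 2)).filter
          (fun c => ¬ p ^ 2 ∣ (b ^ 2 - 1) * c),
          ‖∑ ω ∈ (univ : Finset (Ω m)), ex (n m ω * ((c : ℝ) / ((p ^ 2 : ℕ) : ℝ)))‖ ≤
        1 / ((p ^ 2 : ℕ) : ℝ) * ∑ c ∈ (range (p ^ 2)).filter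
          (fun c => ¬ p ^ 2 ∣ (b ^ 2 - 1) * c),
          W m * Ψ m ((c : ℝ) / ((p ^ 2 : ℕ) : ℝ)) :=
      mul_le_mul_of_nonneg_left (Finset.sum_le_sum fun c _ => hexp m _) (by positivity)
    calc (((univ : Finset (Ω m)).filter (fun ω => p ^ 2 ∣ n m ω)).card : ℝ)
        ≤ ((1 : ℕ) : ℝ) / ((p ^ 2 : ℕ) : ℝ) * (((univ : Finset (Ω m)).filter
            (fun ω => (n m ω : ℤ) ≡ 0 [ZMOD (1 : ℕ)])).card : ℝ) +
          1 / ((p ^ 2 : ℕ) : ℝ) *
          ∑ c ∈ (range (p ^ 2)).filter (fun c => ¬ p ^ 2 ∣ (b ^ 2 - 1) * c),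
          W m * Ψ m ((c : ℝ) / ((p ^ 2 : ℕ) : ℝ)) := by linarith
      _ ≤ 1 / (P : ℝ) ^ 2 * W m + 1 / (P : ℝ) ^ 2 *
          ∑ c ∈ (range (p ^ 2)).filter (fun c => ¬ p ^ 2 ∣ (b ^ 2 - 1) * c),
          W m * Ψ m ((c : ℝ) / ((p ^ 2 : ℕ) : ℝ)) :=
          add_le_add h8 (mul_le_mul_of_nonneg_right h6 hS0)
      _ = _ := by ring
  refine (Finset.sum_le_sum hterm).trans ?_
  rw [Finset.sum_add_distrib, ← Finset.mul_sum, sum_const, nsmul_eq_mul]
  have hfil : (Ico P (2 * P)).filter Nat.Prime =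
      (Ico P (2 * P)).filter (fun p => p.Prime ∧ p.Coprime b) := by
    refine Finset.filter_congr fun p hp => ?_
    constructor
    · intro h
      exact ⟨h, (hcop p (mem_filter.mpr ⟨hp, h⟩)).1⟩
    · exact fun h => h.1
  have hcardP : (((Ico P (2 * P)).filter Nat.Prime).card : ℝ) ≤ P := by
    have h3 : ((Ico P (2 * P)).filter Nat.Prime).card ≤ P := by
      refine (card_filter_le _ _).trans ?_
      rw [Nat.card_Ico]; omega
    exact_mod_cast h3
  have hexpP : 1 / (P : ℝ) ≤ Real.exp (-σ' * (2 * m)) := by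
    have h3 : 1 / (P : ℝ) = Real.exp (-Real.log P) := by
      rw [Real.exp_neg, Real.exp_log hPp, one_div]
    rw [h3, Real.exp_le_exp]
    have h4 : σ' * (2 * m) ≤ c0 * L * (2 * m) :=
      mul_le_mul_of_nonneg_right (min_le_right _ _) hmn
    linarith
  have t1 : (((Ico P (2 * P)).filter Nat.Prime).card : ℝ) * (W m / (P : ℝ) ^ 2) ≤
      W m * Real.exp (-σ' * (2 * m)) := by
    calc (((Ico P (2 * P)).filter Nat.Prime).card : ℝ) * (W m / (P : ℝ) ^ 2)
        ≤ P * (W m / (P : ℝ) ^ 2) := by gcongr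
      _ = W m * (1 / (P : ℝ)) := by field_simp
      _ ≤ W m * Real.exp (-σ' * (2 * m)) := by gcongr
  have t2 : 1 / (P : ℝ) ^ 2 * ∑ p ∈ (Ico P (2 * P)).filter Nat.Prime,
        ∑ c ∈ (range (p ^ 2)).filter (fun c => ¬ p ^ 2 ∣ (b ^ 2 - 1) * c),
          W m * Ψ m ((c : ℝ) / ((p ^ 2 : ℕ) : ℝ)) ≤
      (C1 + C2) * W m * Real.exp (-σ' * (2 * m)) := by
    rw [hfil]
    have h3 := sum_frac_sq_le hb (fun α => W m * Ψ m α) (fun α => mul_nonneg hWm.le (h0 m α)) P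
    have h4 := h1 m P hm (by omega) hPL hPc
    have h5 := h2 m P (by omega) hPL
    have h6 : ∑ x ∈ JS b P, W m * Ψ m (pt b x) ≤ C1 * W m * (P : ℝ) ^ 2 *
        Real.exp (-σ' * (2 * m)) := by
      rw [← Finset.mul_sum]
      have h8 : Real.exp (-σ1 * (2 * m)) ≤ Real.exp (-σ' * (2 * m)) := by
        rw [Real.exp_le_exp]
        have : σ' * (2 * m) ≤ σ1 * (2 * m) := mul_le_mul_of_nonneg_right (min_le_left _ _) hmn
        linarith
      calc W m * ∑ x ∈ JS b P, Ψ m (pt b x)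
          ≤ W m * (C1 * (P : ℝ) ^ 2 * Real.exp (-σ1 * (2 * m))) :=
            mul_le_mul_of_nonneg_left h4 hWm.le
        _ ≤ W m * (C1 * (P : ℝ) ^ 2 * Real.exp (-σ' * (2 * m))) := by gcongr
        _ = _ := by ring
    have h7 : ∑ x ∈ J b P, W m * Ψ m (pt b x) ≤ C2 * W m * (P : ℝ) ^ 2 *
        Real.exp (-σ' * (2 * m)) := by
      rw [← Finset.mul_sum]
      have h8 : Real.exp (-σ2 * Real.sqrt (2 * m) - δ2 * Real.log P) ≤ 1 := by
        rw [Real.exp_le_one_iff]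
        have h9 := Real.sqrt_nonneg (2 * (m : ℝ))
        have h10 : 0 ≤ Real.log P := Real.log_nonneg (by
          have : 1 ≤ P := by omega
          exact_mod_cast this)
        have : 0 ≤ σ2 * Real.sqrt (2 * m) := by positivity
        have : 0 ≤ δ2 * Real.log P := by positivity
        linarith
      calc W m * ∑ x ∈ J b P, Ψ m (pt b x)
          ≤ W m * (C2 * P * Real.exp (-σ2 * Real.sqrt (2 * m) - δ2 * Real.log P)) :=
            mul_le_mul_of_nonneg_left h5 hWm.le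
        _ ≤ W m * (C2 * P * 1) := by gcongr
        _ = C2 * W m * (P : ℝ) ^ 2 * (1 / P) := by field_simp
        _ ≤ _ := by gcongr
    have h8 := h3.trans (add_le_add h6 h7)
    rw [one_div, inv_mul_le_iff₀ (by positivity)]
    refine h8.trans (le_of_eq ?_)
    ring
  calc _ ≤ W m * Real.exp (-σ' * (2 * m)) +
        (C1 + C2) * W m * Real.exp (-σ' * (2 * m)) := add_le_add t1 t2
    _ = _ := by ring

/-- Members divisible by squares of primes in a long range. -/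
theorem sq_gen {b : ℕ} (hb : 2 ≤ b) {θ c0 : ℝ} (hθ : θ < 1 / 2) {Ψ : ℕ → ℝ → ℝ}
    (h0 : ∀ m α, 0 ≤ Ψ m α) (hF : HasF b θ Ψ) (hFS : HasFS b θ Ψ) (hc0 : 0 < c0)
    {Ω : ℕ → Type} [∀ m, Fintype (Ω m)] (n : ∀ m, Ω m → ℕ) (W : ℕ → ℝ) (hW : ∀ m, 0 < W m)
    (hcard : ∀ m, (Fintype.card (Ω m) : ℝ) ≤ W m)
    (hexp : ∀ m α, ‖∑ ω, ex (n m ω * α)‖ ≤ W m * Ψ m α) :
    ∃ (σ C : ℝ) (m0 : ℕ), 0 < σ ∧ 0 < C ∧ ∀ m u v : ℕ, m0 ≤ m → b + 2 ≤ u →
      Real.log v ≤ θ * Real.log b * (2 * m) → c0 * Real.log b * (2 * m) ≤ Real.log u →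
      ∑ p ∈ (Ico u v).filter Nat.Prime,
        (((univ : Finset (Ω m)).filter (fun ω => p ^ 2 ∣ n m ω)).card : ℝ) ≤
        C * W m * Real.exp (-σ * (2 * m)) := by
  obtain ⟨σ, C, m0, hσ, hC, hmain⟩ := sq_block_gen hb h0 hF hFS hc0 n W hW hcard hexp
  obtain ⟨C', hC', hpoly⟩ := exists_poly_mul_exp_le hσ 2
  have hL := log_pos_b hb
  set L := Real.log b with hLdef
  refine ⟨σ / 2, 2 * (1 + L) * C * C', m0, by positivity, by positivity, ?_⟩
  intro m u v hm hu hv hu'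
  have hmn : (0 : ℝ) ≤ 2 * m := by positivity
  have hWm := hW m
  set J := Nat.log 2 v + 1 with hJ
  have hJv : v ≤ u * 2 ^ J := by
    have h1 : v < 2 ^ J := Nat.lt_pow_succ_log_self (by norm_num) _
    calc v ≤ 2 ^ J := h1.le
      _ = 1 * 2 ^ J := (one_mul _).symm
      _ ≤ u * 2 ^ J := Nat.mul_le_mul_right _ (by omega)
  have h0 := dyadic_le (fun p => if p.Prime then
      (((univ : Finset (Ω m)).filter (fun ω => p ^ 2 ∣ n m ω)).card : ℝ) else 0)
    (fun n => by split_ifs <;> positivity) (u := u) (v := v) (J := J) (by omega) hJv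
  simp only [← Finset.sum_filter] at h0
  refine h0.trans ?_
  set W' : ℝ := C * W m * Real.exp (-σ * (2 * m)) with hW'
  have hW0 : 0 ≤ W' := by positivity
  have h1 : ∀ j ∈ (range J).filter (fun j => u * 2 ^ j < v),
      ∑ p ∈ (Ico (u * 2 ^ j) (2 * (u * 2 ^ j))).filter Nat.Prime,
        (((univ : Finset (Ω m)).filter (fun ω => p ^ 2 ∣ n m ω)).card : ℝ) ≤ W' := by
    intro j hj
    rw [mem_filter] at hj
    have h2j : 1 ≤ 2 ^ j := Nat.one_le_two_pow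
    have hPu : u ≤ u * 2 ^ j := Nat.le_mul_of_pos_right _ h2j
    refine hmain m (u * 2 ^ j) hm (by omega) ?_ ?_
    · refine (Real.log_le_log ?_ ?_).trans hv
      · have : 0 < u * 2 ^ j := by omega
        exact_mod_cast this
      · exact_mod_cast hj.2.le
    · refine hu'.trans (Real.log_le_log ?_ ?_)
      · have : 0 < u := by omega
        exact_mod_cast this
      · exact_mod_cast hPu
  refine (Finset.sum_le_sum h1).trans ?_
  rw [sum_const, nsmul_eq_mul]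
  have hcard : (((range J).filter (fun j => u * 2 ^ j < v)).card : ℝ) ≤
      2 * (1 + L) * (2 * (m : ℝ) + 1) := by
    have h2 : (((range J).filter (fun j => u * 2 ^ j < v)).card : ℝ) ≤ J := by
      have := card_filter_le (range J) (fun j => u * 2 ^ j < v)
      rw [card_range] at this
      exact_mod_cast this
    refine h2.trans ?_
    rcases Nat.eq_zero_or_pos v with h | h
    · rw [hJ, h]
      simp only [Nat.log_zero_right]
      push_cast
      nlinarith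
    · have h3 : 2 ^ Nat.log 2 v ≤ v := Nat.pow_log_le_self 2 (by omega)
      have h4 : ((2 : ℝ)) ^ Nat.log 2 v ≤ v := by exact_mod_cast h3
      have h5 := Real.log_le_log (by positivity) h4
      rw [Real.log_pow] at h5
      have h6 : (1 : ℝ) / 2 ≤ Real.log 2 := by
        have := Real.log_two_gt_d9; linarith
      have h7 : (Nat.log 2 v : ℝ) * (1 / 2) ≤ (Nat.log 2 v : ℝ) * Real.log 2 :=
        mul_le_mul_of_nonneg_left h6 (Nat.cast_nonneg _)
      have h8 : θ * L * (2 * m) ≤ L * (2 * m) := by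
        have : 0 ≤ (1 - θ) * (L * (2 * m)) := mul_nonneg (by linarith) (by positivity)
        linarith
      rw [hJ]
      push_cast
      nlinarith
  have hpm : (2 * (m : ℝ) + 1) ^ 2 * Real.exp (-σ * (2 * m)) ≤
      C' * Real.exp (-(σ / 2) * (2 * m)) := by
    have := hpoly (2 * m)
    push_cast at this
    exact this
  have hexpm : Real.exp (-σ * (2 * (m : ℝ))) * (2 * (m : ℝ) + 1) ≤
      (2 * (m : ℝ) + 1) ^ 2 * Real.exp (-σ * (2 * m)) := by
    have h2 : (0 : ℝ) < Real.exp (-σ * (2 * m)) := Real.exp_pos _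
    have h3 : (2 * (m : ℝ) + 1) ≤ (2 * (m : ℝ) + 1) ^ 2 := by nlinarith
    calc Real.exp (-σ * (2 * (m : ℝ))) * (2 * (m : ℝ) + 1)
        ≤ Real.exp (-σ * (2 * (m : ℝ))) * (2 * (m : ℝ) + 1) ^ 2 := by gcongr
      _ = _ := by ring
  calc (((range J).filter (fun j => u * 2 ^ j < v)).card : ℝ) * W'
      ≤ 2 * (1 + L) * (2 * (m : ℝ) + 1) * W' := mul_le_mul_of_nonneg_right hcard hW0
    _ = 2 * (1 + L) * C * W m * (Real.exp (-σ * (2 * m)) * (2 * (m : ℝ) + 1)) := by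
        rw [hW']; ring
    _ ≤ 2 * (1 + L) * C * W m * (C' * Real.exp (-(σ / 2) * (2 * m))) := by
        have := hexpm.trans hpm
        gcongr
    _ = _ := by ring

end Pool.Agent.PalW
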