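import Pool.Agent.PalW.Lev
import Pool.Agent.PalW.GenE
import Pool.Agent.PalW.GenN
import Pool.Agent.PalW.Mod
import Pool.Agent.PalW.SqG
import Pool.Agent.PalT.SieveT
import Pool.Agent.PalSieve.P5Core

/-!
# Palindromes built from letters with few prime factors
-/

namespace Pool.Agent.PalW

open Finset Pool.Agent.Pal

/-- The dilated function. -/
lemma HasF.dil {b : ℕ} {θ : ℝ} {Ψ : ℕ → ℝ → ℝ} (h : HasF b θ Ψ)
    (hper : ∀ (m : ℕ) (y : ℝ) (n : ℤ), Ψ m (y + n) = Ψ m y) :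
    HasF b θ (fun m α => Ψ m (b * α)) := by
  obtain ⟨σ, δ, C, h1, h2, h3, h4⟩ := h
  refine ⟨σ, δ, C, h1, h2, h3, fun m D hD hlog => ?_⟩
  have := sum_J_mul (b := b) (D := D) 1 (Ψ m) (hper m)
  rw [pow_one] at this
  rw [this]
  exact h4 m D hD hlog

/-- The dilated function. -/
lemma HasFS.dil {b : ℕ} (hb : 2 ≤ b) {θ : ℝ} {Ψ : ℕ → ℝ → ℝ} (h : HasFS b θ Ψ)
    (hper : ∀ (m : ℕ) (y : ℝ) (n : ℤ), Ψ m (y + n) = Ψ m y) :
    HasFS b θ (fun m α => Ψ m (b * α)) := by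
  intro c0 hc0
  obtain ⟨σ, C, m0, h1, h3, h4⟩ := h c0 hc0
  refine ⟨σ, C, m0, h1, h3, fun m P hm hP hlog hlog' => ?_⟩
  have := (fam_JS hb P).perm 1 (Ψ m) (hper m)
  rw [pow_one] at this
  rw [this]
  exact h4 m P hm hP hlog hlog'

/-- The parameter `Y`. -/
lemma exists_YX {X : ℕ} (hX : X ≠ 0) (b m : ℕ) : ∃ Y : ℕ, b ^ (2 * m + 3) < Y ^ X :=
  ⟨b ^ (2 * m + 3) + 1, (Nat.lt_succ_self _).trans_le (Nat.le_self_pow hX _)⟩

/-- The parameter `Y`. -/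
def YX {X : ℕ} (hX : X ≠ 0) (b m : ℕ) : ℕ := Nat.find (exists_YX hX b m)

lemma YX_spec {X : ℕ} (hX : X ≠ 0) (b m : ℕ) : b ^ (2 * m + 3) < (YX hX b m) ^ X :=
  Nat.find_spec (exists_YX hX b m)

lemma YX_min {X : ℕ} (hX : X ≠ 0) {b m Z : ℕ} (h : Z < YX hX b m) :
    Z ^ X ≤ b ^ (2 * m + 3) := by
  have := Nat.find_min (exists_YX hX b m) h
  omega

lemma YX_ge {X : ℕ} (hX : X ≠ 0) {b m Y0 : ℕ} (hb : 2 ≤ b) (hm : Y0 ^ X ≤ m) : Y0 ≤ YX hX b m := by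
  by_contra hlt
  push Not at hlt
  have h1 := YX_spec hX b m
  have h2 : (YX hX b m) ^ X ≤ Y0 ^ X := Nat.pow_le_pow_left hlt.le _
  have h3 : m < b ^ (2 * m + 3) :=
    (Nat.lt_pow_self (by omega : 1 < b)).trans_le (Nat.pow_le_pow_right (by omega) (by omega))
  omega

lemma log_YX_gt {X : ℕ} (hX : X ≠ 0) {b m : ℕ} (hb : 2 ≤ b) :
    (2 * (m : ℝ) + 3) * Real.log b / X < Real.log (YX hX b m) := by
  have h1 : ((b ^ (2 * m + 3) : ℕ) : ℝ) < (((YX hX b m) ^ X : ℕ) : ℝ) := by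
    exact_mod_cast YX_spec hX b m
  push_cast at h1
  have hb0 : (0 : ℝ) < b := by
    have : (2 : ℝ) ≤ b := by exact_mod_cast hb
    linarith
  have h2 := Real.log_lt_log (by positivity) h1
  rw [Real.log_pow, Real.log_pow] at h2
  push_cast at h2
  have hXr : (0 : ℝ) < X := by
    have : 0 < X := Nat.pos_of_ne_zero hX
    exact_mod_cast this
  rw [div_lt_iff₀ hXr]
  linarith

lemma log_YX_le {X : ℕ} (hX : X ≠ 0) {b m : ℕ} (hb : 2 ≤ b) (hY : 2 ≤ YX hX b m) :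
    Real.log (YX hX b m) ≤ Real.log 2 + (2 * (m : ℝ) + 3) * Real.log b / X := by
  have h1 : (((YX hX b m - 1) ^ X : ℕ) : ℝ) ≤ ((b ^ (2 * m + 3) : ℕ) : ℝ) := by
    exact_mod_cast YX_min hX (b := b) (m := m) (Z := YX hX b m - 1) (by omega)
  have hb0 : (0 : ℝ) < b := by
    have : (2 : ℝ) ≤ b := by exact_mod_cast hb
    linarith
  have hZ : (1 : ℝ) ≤ ((YX hX b m - 1 : ℕ) : ℝ) := by
    have : 1 ≤ YX hX b m - 1 := by omega
    exact_mod_cast this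
  have h3 : ((YX hX b m : ℕ) : ℝ) ≤ 2 * ((YX hX b m - 1 : ℕ) : ℝ) := by
    have : YX hX b m ≤ 2 * (YX hX b m - 1) := by omega
    exact_mod_cast this
  have hY0 : (0 : ℝ) < (YX hX b m : ℝ) := by
    have : 0 < YX hX b m := by omega
    exact_mod_cast this
  rw [Nat.cast_pow, Nat.cast_pow] at h1
  have h2 := Real.log_le_log (by positivity) h1
  rw [Real.log_pow, Real.log_pow] at h2
  have h4 := Real.log_le_log hY0 h3
  rw [Real.log_mul (by norm_num) (by linarith)] at h4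
  push_cast at h2
  have hXr : (0 : ℝ) < X := by
    have : 0 < X := Nat.pos_of_ne_zero hX
    exact_mod_cast this
  have h5 : Real.log ((YX hX b m - 1 : ℕ) : ℝ) ≤ (2 * (m : ℝ) + 3) * Real.log b / X := by
    rw [le_div_iff₀ hXr]
    linarith
  linarith

open Classical in
/-- The members with at most `r` prime factors, all of them large. -/
noncomputable def GW {A : Type} [Fintype A] (g : A → ℕ) (b m r a0 X : ℕ) : Finset (Fin m → A) :=
  univ.filter (fun ω => ArithmeticFunction.cardFactors (nv g b m ω) ≤ r ∧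
    ∀ p ∈ (nv g b m ω).primeFactors, b ^ (a0 * (2 * m + 3)) ≤ p ^ X)

/-- The numbers `≡ 1` modulo `b` and modulo the product of the small primes. -/
lemma primes_gt_of_modEq {b w n : ℕ} (h1 : n % b = 1) (h2 : n ≡ 1 [MOD Kp b w * (b ^ 2 - 1)]) :
    ∀ p ∈ n.primeFactors, w < p := by
  intro p hp
  obtain ⟨hp1, hp2, hp3⟩ := Nat.mem_primeFactors.mp hp
  by_contra hle
  push Not at hle
  by_cases hpb : p ∣ b
  · have h4 : p ∣ n % b := (Nat.dvd_mod_iff hpb).mpr hp2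
    rw [h1] at h4
    exact hp1.one_lt.ne' (Nat.dvd_one.mp h4)
  · have h3 : p ∣ Kp b w := by
      unfold Kp
      exact Finset.dvd_prod_of_mem _ (mem_filter.mpr ⟨mem_Icc.mpr ⟨hp1.one_lt.le, hle⟩, hp1, hpb⟩)
    have h4 : n ≡ 1 [MOD p] := h2.of_dvd (h3.trans (Dvd.intro _ rfl))
    have h5 : p ∣ 1 := (h4.dvd_iff dvd_rfl).mp hp2
    exact hp1.one_lt.ne' (Nat.dvd_one.mp h5)

lemma aux_small {c1 P C3 m e : ℝ} (hm : 0 < m) (hP : 0 ≤ P)
    (h3 : (2 * m) ^ 2 * e ≤ C3) (h4 : P * C3 ≤ m * c1) : P * e ≤ 1 / 4 * (c1 / m) := by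
  have h5 : P * ((2 * m) ^ 2 * e) ≤ m * c1 := (mul_le_mul_of_nonneg_left h3 hP).trans h4
  rw [← mul_div_assoc, le_div_iff₀ hm]
  have h6 : m * (4 * (P * e * m)) ≤ m * c1 := by
    calc m * (4 * (P * e * m)) = P * ((2 * m) ^ 2 * e) := by ring
      _ ≤ _ := h5
  have h7 := le_of_mul_le_mul_left h6 hm
  linarith

/-- **The lower bound in the family.** -/
theorem coreW {A : Type} [Fintype A] [DecidableEq A] [Nonempty A] {g : A → ℕ} {b : ℕ} (hb : 2 ≤ b)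
    (hg : ∀ a, g a < b) (hs : ∀ d < b, ∃ a, g a = d) {κ0 : ℝ} (hψ : Site b (psi g) κ0)
    {E a1 a0 v r X : ℕ} (hchk : Sv.chkT E a1 a0 v r X = true) {θ : ℝ} (hθE : (E : ℝ) < θ * X)
    (hθ : θ < 1 / 2) (hF : HasF b θ (fun m α => Bk (psi g) b (2 * m) 0 m α))
    (hFS : HasFS b θ (fun m α => Bk (psi g) b (2 * m) 0 m α)) :
    ∃ c : ℝ, 0 < c ∧ ∃ m0 : ℕ, ∀ m : ℕ, m0 ≤ m → Odd m →
      c * (Fintype.card A : ℝ) ^ m / m ≤ ((GW g b m r a0 X).card : ℝ) := by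
  classical
  -- numerical facts
  have hnum : 2 ≤ a1 ∧ a1 ≤ a0 ∧ a0 + 1 ≤ v ∧ v + 3 ≤ E := by
    have h := hchk
    simp only [Sv.chkT, Bool.and_eq_true, Nat.ble_eq] at h
    obtain ⟨⟨⟨⟨⟨⟨⟨⟨⟨c1, c2⟩, c3⟩, c4⟩, c5⟩, c6⟩, c7⟩, c8⟩, c9⟩, c10⟩ := h
    exact ⟨c1, c2, c3, c4⟩
  obtain ⟨n1, n2, n3, n4⟩ := hnum
  have hX0 : X ≠ 0 := by
    rintro rfl
    have : (0 : ℝ) ≤ E := Nat.cast_nonneg _
    simp at hθE
    linarith
  have hXr : (0 : ℝ) < X := by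
    have : 0 < X := Nat.pos_of_ne_zero hX0
    exact_mod_cast this
  have hEr : (0 : ℝ) < E := by
    have : 0 < E := by omega
    exact_mod_cast this
  have ha0r : (0 : ℝ) < a0 := by
    have : 0 < a0 := by omega
    exact_mod_cast this
  have hper : ∀ (m : ℕ) (y : ℝ) (n : ℤ), Bk (psi g) b (2 * m) 0 m (y + n) =
      Bk (psi g) b (2 * m) 0 m y := fun m y n => Bk_add_int hψ _ _ _ _ _
  set Ψ : ℕ → ℝ → ℝ := fun m α => Bk (psi g) b (2 * m) 0 m (b * α) with hΨ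
  have hΨ0 : ∀ m α, 0 ≤ Ψ m α := fun m α => Bk_nonneg hψ _ _ _ _
  have hF' : HasF b θ Ψ := hF.dil hper
  have hFS' : HasFS b θ Ψ := hFS.dil hb hper
  set w := max 1000000 (b + 1) with hw
  have hw1 : 1000000 ≤ w := le_max_left _ _
  have hwb : b + 1 ≤ w := le_max_right _ _
  set K := Kp b w with hK
  have hK0 : 0 < K := Kp_pos b w
  have hB3 := sq_sub_one_pos hb
  set q0 := Fintype.card A with hq0
  have hq0p : 0 < q0 := Fintype.card_pos
  have hq0r : (0 : ℝ) < q0 := by exact_mod_cast hq0p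
  obtain ⟨κ, hκ, Ks, hKs, Y0, hsieve⟩ := Sv.weighted_sieveT hw1 hchk
  obtain ⟨σ, C, hσ, hC, hE⟩ := Etot_gen hb (K := K) (w := w) hK0 (Kp_coprime b w) (by omega)
    hθ hΨ0 hF'
  obtain ⟨σ2, C2, m6, hσ2, hC2, hSq⟩ := sq_gen hb (c0 := a0 / X) hθ hΨ0 hF' hFS' (by positivity)
    (Ω := fun m => Fin m → A) (fun m => nv g b m) (fun m => (q0 : ℝ) ^ m)
    (fun m => by positivity) (fun m => by
      rw [Fintype.card_fun, Fintype.card_fin]
      push_cast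
      exact le_rfl) (fun m α => (norm_exp_nv g m α).le)
  obtain ⟨C3, hC3, hexp1⟩ := exists_pow_mul_exp_le hσ 2
  obtain ⟨C4, hC4, hexp2⟩ := exists_poly_mul_exp_le hσ2 2
  have hL := log_pos_b hb
  set L := Real.log b with hLdef
  have hb0 : (2 : ℝ) ≤ b := by exact_mod_cast hb
  have hbp : (0 : ℝ) < b := by linarith
  have hKr : (0 : ℝ) < K := by exact_mod_cast hK0
  set c1 : ℝ := κ / ((q0 : ℝ) ^ 2 * K * (1 + 5 * L)) with hc1
  have hc1p : 0 < c1 := by positivity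
  set κ' : ℝ := θ - E / X with hκ'def
  have hκ' : 0 < κ' := by
    rw [hκ'def, sub_pos, div_lt_iff₀ hXr]
    exact hθE
  obtain ⟨m1, hm1⟩ := exists_nat_ge (Ks * C * C3 / c1)
  obtain ⟨m2, hm2⟩ := exists_nat_ge (Ks * C2 * C4 / c1)
  obtain ⟨m3, hm3⟩ := exists_nat_ge
    ((Real.log ((K * (b ^ 2 - 1) : ℕ) : ℝ) + E * Real.log 2 + 3 * (E * L / X)) / (2 * κ' * L))
  refine ⟨c1 / 2, by positivity, Y0 ^ X + (b + 2) ^ X + m6 + m1 + m2 + m3 + 4, ?_⟩
  intro m hm hmo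
  have hmY : Y0 ≤ YX hX0 b m := YX_ge hX0 hb (by omega)
  have hmY2 : b + 2 ≤ YX hX0 b m := YX_ge hX0 hb (by omega)
  have hm4 : 4 ≤ m := by omega
  have hmr : (4 : ℝ) ≤ m := by exact_mod_cast hm4
  have hm0 : (0 : ℝ) < m := by linarith
  have hspec := YX_spec hX0 b m
  have hlY1 := log_YX_gt hX0 hb (m := m)
  have hlY2 := log_YX_le hX0 hb (m := m) (by omega : 2 ≤ YX hX0 b m)
  -- the family
  obtain ⟨N, a, htr⟩ := exists_transfer (fun ω : Fin m → A => nv g b m ω)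
  have hall : ∀ i ∈ range N, 0 < a i ∧ a i < b ^ (2 * m + 3) ∧ a i % b = 1 := by
    intro i hi
    by_contra hcon
    have h1 := htr (fun n => ¬ (0 < n ∧ n < b ^ (2 * m + 3) ∧ n % b = 1))
    rw [Finset.filter_false_of_mem (s := (univ : Finset (Fin m → A)))] at h1
    · rw [card_empty, card_eq_zero] at h1
      have : i ∈ (range N).filter (fun i => ¬ (0 < a i ∧ a i < b ^ (2 * m + 3) ∧ a i % b = 1)) :=
        mem_filter.mpr ⟨hi, hcon⟩
      rw [h1] at this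
      exact absurd this (notMem_empty i)
    · intro ω _ hne
      exact hne ⟨nv_pos g b m ω, nv_lt g hb hg m ω, nv_mod_b g hb m ω⟩
  set I : Finset ℕ := (range N).filter (fun i => a i ≡ 1 [MOD K * (b ^ 2 - 1)]) with hI
  set N1 : ℕ := ((univ : Finset (Fin m → A)).filter
    (fun ω => (nv g b m ω : ℤ) ≡ 1 [ZMOD (b ^ 2 - 1 : ℕ)])).card with hN1
  set ff : ℕ → ℝ := fun q => 1 / ((K * (b ^ 2 - 1) * q : ℕ) : ℝ) *
        ∑ c ∈ (range (K * (b ^ 2 - 1) * q)).filter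
          (fun c => ¬ K * (b ^ 2 - 1) * q ∣ (b ^ 2 - 1) * c),
          Ψ m ((c : ℝ) / ((K * (b ^ 2 - 1) * q : ℕ) : ℝ)) with hff
  have hff0 : ∀ q, 0 ≤ ff q := fun q => mul_nonneg (by positivity)
    (Finset.sum_nonneg fun _ _ => hΨ0 _ _)
  have hNq : ∀ q, (Sv.Nq I a q : ℝ) = (((univ : Finset (Fin m → A)).filter
      (fun ω => nv g b m ω ≡ 1 [MOD K * (b ^ 2 - 1)] ∧ q ∣ nv g b m ω)).card : ℝ) := by
    intro q
    have h1 := htr (fun n => n ≡ 1 [MOD K * (b ^ 2 - 1)] ∧ q ∣ n)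
    unfold Sv.Nq
    rw [hI, filter_filter]
    exact_mod_cast h1
  have hGood : ((Sv.GoodT r a0 (YX hX0 b m) I a).card : ℝ) ≤ ((GW g b m r a0 X).card : ℝ) := by
    have h1 := htr (fun n => ArithmeticFunction.cardFactors n ≤ r ∧
      ∀ p ∈ n.primeFactors, b ^ (a0 * (2 * m + 3)) ≤ p ^ X)
    have h2 : (Sv.GoodT r a0 (YX hX0 b m) I a).card ≤ ((range N).filter (fun i =>
        ArithmeticFunction.cardFactors (a i) ≤ r ∧
        ∀ p ∈ (a i).primeFactors, b ^ (a0 * (2 * m + 3)) ≤ p ^ X)).card := by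
      refine card_le_card fun i hi => ?_
      unfold Sv.GoodT at hi
      rw [hI, mem_filter, mem_filter] at hi
      refine mem_filter.mpr ⟨hi.1.1, hi.2.1, fun p hp => ?_⟩
      calc b ^ (a0 * (2 * m + 3)) = (b ^ (2 * m + 3)) ^ a0 := by rw [← pow_mul]; congr 1; ring
        _ ≤ (YX hX0 b m ^ X) ^ a0 := Nat.pow_le_pow_left hspec.le _
        _ = (YX hX0 b m ^ a0) ^ X := by rw [← pow_mul, ← pow_mul, mul_comm]
        _ ≤ p ^ X := Nat.pow_le_pow_left (hi.2.2 p hp) _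
    rw [h1] at h2
    have h3 : (GW g b m r a0 X).card = ((univ : Finset (Fin m → A)).filter (fun ω =>
        ArithmeticFunction.cardFactors (nv g b m ω) ≤ r ∧
        ∀ p ∈ (nv g b m ω).primeFactors, b ^ (a0 * (2 * m + 3)) ≤ p ^ X)).card := by
      unfold GW
      congr
    rw [h3]
    exact_mod_cast h2
  have hsv := hsieve (YX hX0 b m) hmY I a ((N1 : ℝ) / K) (fun q => (q0 : ℝ) ^ m * ff q)
    (by positivity) (fun q => mul_nonneg (by positivity) (hff0 q))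
    (fun i hi => by
      rw [hI, mem_filter] at hi
      obtain ⟨k1, k2, k3⟩ := hall i hi.1
      exact ⟨k1, k2.trans hspec, primes_gt_of_modEq k3 hi.2⟩)
    (fun q hq => by
      have hq0' : 0 < q := by
        unfold Sv.MM at hq
        rw [mem_filter, mem_Ico] at hq
        omega
      have h1 := Nq_gen (fun ω : Fin m → A => nv g b m ω) hb hK0 hq0'
        (coprime_of_MM hb hwb hq)
      rw [hNq q]
      refine h1.trans (le_of_eq ?_)
      simp only [hff]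
      have e : ∀ c : ℕ, ‖∑ ω : Fin m → A,
          ex (nv g b m ω * ((c : ℝ) / ((K * (b ^ 2 - 1) * q : ℕ) : ℝ)))‖ =
          (q0 : ℝ) ^ m * Ψ m ((c : ℝ) / ((K * (b ^ 2 - 1) * q : ℕ) : ℝ)) :=
        fun c => norm_exp_nv g m _
      rw [Finset.sum_congr rfl fun c _ => e c, ← Finset.mul_sum]
      ring)
  generalize YX hX0 b m = Y at *
  have hEtot : Sv.Etot w (Y ^ E) (fun q => (q0 : ℝ) ^ m * ff q) =
      (q0 : ℝ) ^ m * Sv.Etot w (Y ^ E) ff := by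
    unfold Sv.Etot
    rw [Finset.mul_sum]
    exact Finset.sum_congr rfl fun q _ => by ring
  rw [hEtot] at hsv
  have hlog2 : Real.log 2 ≤ 1 := by
    have := Real.log_two_lt_d9
    linarith
  have hlog20 : 0 ≤ Real.log 2 := Real.log_nonneg (by norm_num)
  have hlY0 : 0 < Real.log Y := lt_trans (by positivity) hlY1
  have hX1 : (1 : ℝ) ≤ X := by
    have : 1 ≤ X := Nat.pos_of_ne_zero hX0
    exact_mod_cast this
  have hlY3 : Real.log Y ≤ (1 + 5 * L) * m := by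
    have h1 : (2 * (m : ℝ) + 3) * L / X ≤ (2 * (m : ℝ) + 3) * L := div_le_self (by positivity) hX1
    have h2 : (2 * (m : ℝ) + 3) * L ≤ (5 * m) * L := mul_le_mul_of_nonneg_right (by linarith) hL.le
    have h3 : (1 + 5 * L) * (m : ℝ) = m + (5 * m) * L := by ring
    rw [h3]
    linarith
  have hYp : 0 < Y := by omega
  have hYr : (0 : ℝ) < Y := by exact_mod_cast hYp
  have hKB0 : 0 < K * (b ^ 2 - 1) := by positivity
  have hKB : (1 : ℝ) ≤ ((K * (b ^ 2 - 1) : ℕ) : ℝ) := by exact_mod_cast hKB0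
  have hlKB : 0 ≤ Real.log ((K * (b ^ 2 - 1) : ℕ) : ℝ) := Real.log_nonneg hKB
  have hm3r : (m3 : ℝ) ≤ m := by
    have : m3 ≤ m := by omega
    exact_mod_cast this
  have hconst : Real.log ((K * (b ^ 2 - 1) : ℕ) : ℝ) + E * Real.log 2 + 3 * (E * L / X) ≤
      2 * κ' * L * m := by
    have h1 := hm3.trans hm3r
    rw [div_le_iff₀ (by positivity)] at h1
    linarith
  have hElY : E * Real.log Y ≤ E * Real.log 2 + (2 * m) * (E * L / X) + 3 * (E * L / X) := by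
    have h1 := mul_le_mul_of_nonneg_left hlY2 hEr.le
    refine h1.trans (le_of_eq ?_)
    ring
  have hsum : Real.log ((K * (b ^ 2 - 1) : ℕ) : ℝ) + E * Real.log Y ≤ θ * L * (2 * m) := by
    have h1 : θ * L * (2 * m) = 2 * κ' * L * m + (2 * m) * (E * L / X) := by
      rw [hκ'def]
      ring
    rw [h1]
    linarith
  have hlevel : Real.log ((K * (b ^ 2 - 1) * Y ^ E : ℕ) : ℝ) ≤ θ * L * (2 * m) := by
    rw [Nat.cast_mul (K * (b ^ 2 - 1)), Real.log_mul (by linarith)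
      (Nat.cast_ne_zero.mpr (pow_pos hYp E).ne'), Nat.cast_pow Y, Real.log_pow]
    exact hsum
  have hE1 := hE m (Y ^ E) (by omega) (Nat.one_le_pow _ _ (by omega)) hlevel
  -- squares
  have hYa0 : b + 2 ≤ Y ^ a0 := hmY2.trans (Nat.le_self_pow (by omega) _)
  have hv : Real.log ((Y ^ v : ℕ) : ℝ) ≤ θ * L * (2 * m) := by
    rw [Nat.cast_pow, Real.log_pow]
    have h1 : (v : ℝ) ≤ E := by
      have : v ≤ E := by omega
      exact_mod_cast this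
    have h2 := mul_le_mul_of_nonneg_right h1 hlY0.le
    linarith
  have hu : (a0 : ℝ) / X * L * (2 * m) ≤ Real.log ((Y ^ a0 : ℕ) : ℝ) := by
    rw [Nat.cast_pow, Real.log_pow]
    have h1 := mul_le_mul_of_nonneg_left hlY1.le ha0r.le
    have h2 : (a0 : ℝ) * ((2 * (m : ℝ) + 3) * L / X) = (a0 : ℝ) / X * L * (2 * m) +
        3 * ((a0 : ℝ) / X * L) := by ring
    have h3 : 0 < 3 * ((a0 : ℝ) / X * L) := by positivity
    linarith
  have hS1 := hSq m (Y ^ a0) (Y ^ v) (by omega) hYa0 hv hu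
  have hS2 : ∑ p ∈ (Ico (Y ^ a0) (Y ^ v)).filter Nat.Prime, (Sv.Nq I a (p ^ 2) : ℝ) ≤
      C2 * (q0 : ℝ) ^ m * Real.exp (-σ2 * (2 * m)) := by
    refine (Finset.sum_le_sum fun p _ => ?_).trans hS1
    rw [hNq (p ^ 2)]
    exact_mod_cast card_le_card fun ω hω => by
      rw [mem_filter] at hω ⊢
      exact ⟨hω.1, hω.2.2⟩
  -- comparisons
  have hN1ge : (q0 : ℝ) ^ m ≤ (q0 : ℝ) ^ 2 * N1 := by
    have h0 : q0 ^ m ≤ q0 ^ 2 * N1 := N1_ge_gen g hb hs hmo (by omega : 3 ≤ m)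
    have h1 : ((q0 ^ m : ℕ) : ℝ) ≤ ((q0 ^ 2 * N1 : ℕ) : ℝ) := Nat.cast_le.mpr h0
    rw [Nat.cast_mul, Nat.cast_pow, Nat.cast_pow] at h1
    exact h1
  have hqm : (0 : ℝ) < (q0 : ℝ) ^ m := by positivity
  have hXX : c1 * (q0 : ℝ) ^ m / m ≤ κ * ((N1 : ℝ) / K) / Real.log Y := by
    have h1 : κ * ((N1 : ℝ) / K) / ((1 + 5 * L) * m) ≤ κ * ((N1 : ℝ) / K) / Real.log Y :=
      div_le_div_of_nonneg_left (by positivity) hlY0 hlY3
    refine le_trans ?_ h1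
    have h2 : κ * ((q0 : ℝ) ^ m / (q0 : ℝ) ^ 2 / K) / ((1 + 5 * L) * m) ≤
        κ * ((N1 : ℝ) / K) / ((1 + 5 * L) * m) := by
      have : (q0 : ℝ) ^ m / (q0 : ℝ) ^ 2 / K ≤ (N1 : ℝ) / K := by
        refine div_le_div_of_nonneg_right ?_ hKr.le
        rw [div_le_iff₀ (by positivity)]
        linarith
      exact div_le_div_of_nonneg_right (mul_le_mul_of_nonneg_left this hκ.le) (by positivity)
    refine le_trans (le_of_eq ?_) h2
    rw [hc1]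
    field_simp
  have hm1r : Ks * C * C3 ≤ m * c1 := by
    have h1 : m1 ≤ m := by omega
    have h2 : Ks * C * C3 / c1 ≤ m := hm1.trans (by exact_mod_cast h1)
    rwa [div_le_iff₀ hc1p] at h2
  have hm2r : Ks * C2 * C4 ≤ m * c1 := by
    have h1 : m2 ≤ m := by omega
    have h2 : Ks * C2 * C4 / c1 ≤ m := hm2.trans (by exact_mod_cast h1)
    rwa [div_le_iff₀ hc1p] at h2
  have hcast : ((2 * m : ℕ) : ℝ) = 2 * (m : ℝ) := by push_cast; ring
  have hA1 : Ks * C * Real.exp (-σ * Real.sqrt (2 * m)) ≤ 1 / 4 * (c1 / m) := by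
    refine aux_small hm0 (by positivity) ?_ hm1r
    have h1 := hexp1 (2 * m)
    rw [hcast] at h1
    have h2 : Real.exp (-(σ / 2) * Real.sqrt (2 * (m : ℝ))) ≤ 1 := by
      rw [Real.exp_le_one_iff]
      have h9 := mul_nonneg (half_pos hσ).le (Real.sqrt_nonneg (2 * (m : ℝ)))
      rw [neg_mul]
      linarith only [h9]
    calc (2 * (m : ℝ)) ^ 2 * Real.exp (-σ * Real.sqrt (2 * m))
        ≤ C3 * Real.exp (-(σ / 2) * Real.sqrt (2 * m)) := h1
      _ ≤ C3 * 1 := mul_le_mul_of_nonneg_left h2 hC3.le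
      _ = C3 := mul_one _
  have hA2 : Ks * C2 * Real.exp (-σ2 * (2 * m)) ≤ 1 / 4 * (c1 / m) := by
    refine aux_small hm0 (by positivity) ?_ hm2r
    have h1 := hexp2 (2 * m)
    rw [hcast] at h1
    have h2 : Real.exp (-(σ2 / 2) * (2 * (m : ℝ))) ≤ 1 := by
      rw [Real.exp_le_one_iff]
      have h9 := mul_nonneg (half_pos hσ2).le (by linarith : (0 : ℝ) ≤ 2 * (m : ℝ))
      rw [neg_mul]
      linarith only [h9]
    have h3 : (2 * (m : ℝ)) ^ 2 ≤ (2 * (m : ℝ) + 1) ^ 2 :=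
      pow_le_pow_left₀ (by linarith) (by linarith) 2
    calc (2 * (m : ℝ)) ^ 2 * Real.exp (-σ2 * (2 * m))
        ≤ (2 * (m : ℝ) + 1) ^ 2 * Real.exp (-σ2 * (2 * m)) :=
          mul_le_mul_of_nonneg_right h3 (Real.exp_pos _).le
      _ ≤ C4 * Real.exp (-(σ2 / 2) * (2 * m)) := h1
      _ ≤ C4 * 1 := mul_le_mul_of_nonneg_left h2 hC4.le
      _ = C4 := mul_one _
  have hT1 : Ks * ((q0 : ℝ) ^ m * Sv.Etot w (Y ^ E) ff) ≤ 1 / 4 * (c1 * (q0 : ℝ) ^ m / m) := by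
    calc Ks * ((q0 : ℝ) ^ m * Sv.Etot w (Y ^ E) ff)
        ≤ Ks * ((q0 : ℝ) ^ m * (C * Real.exp (-σ * Real.sqrt (2 * m)))) :=
          mul_le_mul_of_nonneg_left (mul_le_mul_of_nonneg_left hE1 hqm.le) hKs.le
      _ = (q0 : ℝ) ^ m * (Ks * C * Real.exp (-σ * Real.sqrt (2 * m))) := by ring
      _ ≤ (q0 : ℝ) ^ m * (1 / 4 * (c1 / m)) := mul_le_mul_of_nonneg_left hA1 hqm.le
      _ = _ := by ring
  have hT2 : Ks * ∑ p ∈ (Ico (Y ^ a0) (Y ^ v)).filter Nat.Prime, (Sv.Nq I a (p ^ 2) : ℝ) ≤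
      1 / 4 * (c1 * (q0 : ℝ) ^ m / m) := by
    calc _ ≤ Ks * (C2 * (q0 : ℝ) ^ m * Real.exp (-σ2 * (2 * m))) :=
          mul_le_mul_of_nonneg_left hS2 hKs.le
      _ = (q0 : ℝ) ^ m * (Ks * C2 * Real.exp (-σ2 * (2 * m))) := by ring
      _ ≤ (q0 : ℝ) ^ m * (1 / 4 * (c1 / m)) := mul_le_mul_of_nonneg_left hA2 hqm.le
      _ = _ := by ring
  have hfin : c1 / 2 * (q0 : ℝ) ^ m / m = 1 / 2 * (c1 * (q0 : ℝ) ^ m / m) := by ring
  rw [hfin]
  linarith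

end Pool.Agent.PalW
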