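import Pool.Agent.PalW.Pair

/-!
# Coincidences in the pair family
-/

namespace Pool.Agent.PalW

open Finset Pool.Agent.Pal Pool.Agent.PalM

/-- The number of coincidences. -/
def R2 {A : Type} [Fintype A] (g : A → ℕ) : ℕ :=
  ((univ : Finset (A × A)).filter (fun p => g p.1 = g p.2)).card

/-- Number of solutions of `u + v = u' + v'`. -/
lemma card_coinc (k k' u u' : ℕ) :
    ((univ : Finset (Fin k' × Fin k')).filter
      (fun q => u + (q.1 : ℕ) = u' + (q.2 : ℕ))).card ≤ k' - (max u u' - min u u') := by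
  have h : ((univ : Finset (Fin k' × Fin k')).filter
      (fun q => u + (q.1 : ℕ) = u' + (q.2 : ℕ))).card ≤
      (range (k' - (max u u' - min u u'))).card := by
    refine card_le_card_of_injOn (fun q => min (q.1 : ℕ) (q.2 : ℕ)) ?_ ?_
    · intro q hq
      rw [mem_coe, mem_filter] at hq
      have h1 : (q.1 : ℕ) < k' := q.1.2
      have h2 : (q.2 : ℕ) < k' := q.2.2
      have h3 : u + (q.1 : ℕ) = u' + (q.2 : ℕ) := hq.2
      have h4 : min (q.1 : ℕ) (q.2 : ℕ) < k' - (max u u' - min u u') := by omega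
      exact mem_coe.mpr (mem_range.mpr h4)
    · intro q hq q' hq' heq
      rw [mem_coe, mem_filter] at hq hq'
      have h3 : u + (q.1 : ℕ) = u' + (q.2 : ℕ) := hq.2
      have h4 : u + (q'.1 : ℕ) = u' + (q'.2 : ℕ) := hq'.2
      have h5 : min (q.1 : ℕ) (q.2 : ℕ) = min (q'.1 : ℕ) (q'.2 : ℕ) := heq
      have h6 : (q.1 : ℕ) = (q'.1 : ℕ) := by omega
      have h7 : (q.2 : ℕ) = (q'.2 : ℕ) := by omega
      exact Prod.ext (Fin.ext h6) (Fin.ext h7)
  rwa [card_range] at h

/-- The sum of the distances. -/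
lemma sum_dist (k' : ℕ) : ∀ k : ℕ, k ≤ k' →
    3 * ∑ u ∈ range k, ∑ u' ∈ range k, (k' - (max u u' - min u u')) + (k ^ 3 - k) =
      3 * (k ^ 2 * k') := by
  intro k
  induction k with
  | zero => intro _; simp
  | succ n ih =>
    intro hk
    have h0 := ih (by omega)
    have e1 : ∑ u ∈ range (n + 1), ∑ u' ∈ range (n + 1), (k' - (max u u' - min u u')) =
        ∑ u ∈ range n, ∑ u' ∈ range n, (k' - (max u u' - min u u')) +
        2 * ∑ u ∈ range n, (k' - (n - u)) + k' := by
      rw [Finset.sum_range_succ, Finset.sum_range_succ]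
      have e2 : ∀ u ∈ range n, ∑ u' ∈ range (n + 1), (k' - (max u u' - min u u')) =
          ∑ u' ∈ range n, (k' - (max u u' - min u u')) + (k' - (n - u)) := by
        intro u hu
        rw [mem_range] at hu
        rw [Finset.sum_range_succ]
        congr 2
        rw [max_eq_right hu.le, min_eq_left hu.le]
      rw [Finset.sum_congr rfl e2, Finset.sum_add_distrib]
      have e3 : ∑ u' ∈ range n, (k' - (max n u' - min n u')) = ∑ u ∈ range n, (k' - (n - u)) := by
        refine Finset.sum_congr rfl fun u hu => ?_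
        rw [mem_range] at hu
        rw [max_eq_left hu.le, min_eq_right hu.le]
      rw [e3, max_self, min_self]
      have e4 : k' - (n - n) = k' := by omega
      rw [e4]
      ring
    have e5 : 2 * ∑ u ∈ range n, (k' - (n - u)) + n * (n + 1) = 2 * (n * k') := by
      have : ∀ j, j ≤ n → 2 * ∑ u ∈ range j, (k' - (n - u)) + 2 * (j * n) =
          2 * (j * k') + j * (j - 1) := by
        intro j
        induction j with
        | zero => intro _; simp
        | succ i ihi =>
          intro hi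
          have h1 := ihi (by omega)
          rw [Finset.sum_range_succ]
          obtain ⟨d, hd⟩ : ∃ d, n = i + 1 + d := ⟨n - (i + 1), by omega⟩
          obtain ⟨f, hf⟩ : ∃ f, k' = n + f := ⟨k' - n, by omega⟩
          have e6 : k' - (n - i) = f + i := by omega
          rw [e6]
          rcases Nat.eq_zero_or_pos i with h0 | h0
          · subst h0
            simp at h1 ⊢
            nlinarith
          · obtain ⟨i', rfl⟩ : ∃ i', i = i' + 1 := ⟨i - 1, by omega⟩
            have e7 : i' + 1 + 1 - 1 = i' + 1 := by omega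
            have e8 : i' + 1 - 1 = i' := by omega
            rw [e7]
            rw [e8] at h1
            nlinarith
      have h1 := this n le_rfl
      rcases Nat.eq_zero_or_pos n with h0 | h0
      · subst h0
        simp
      · obtain ⟨n', rfl⟩ : ∃ n', n = n' + 1 := ⟨n - 1, by omega⟩
        have e8 : n' + 1 - 1 = n' := by omega
        rw [e8] at h1
        nlinarith
    rw [e1]
    have h3 : n ≤ n ^ 3 := Nat.le_self_pow (by norm_num) n
    have h4 : n + 1 ≤ (n + 1) ^ 3 := Nat.le_self_pow (by norm_num) _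
    have h5 : (n + 1) ^ 3 - (n + 1) = n ^ 3 - n + 3 * (n * (n + 1)) := by
      have e9 : (n + 1) ^ 3 = n ^ 3 + 3 * n ^ 2 + 3 * n + 1 := by ring
      have e10 : 3 * (n * (n + 1)) = 3 * n ^ 2 + 3 * n := by ring
      omega
    rw [h5]
    nlinarith

/-- The number of coincidences of the pair family. -/
lemma R2_le {b : ℕ} : 3 * R2 (gP b) + (kA b ^ 3 - kA b) ≤ 3 * (kA b ^ 2 * kB b) := by
  have hkk : kA b ≤ kB b := by
    unfold kA kB
    omega
  rw [← sum_dist (kB b) (kA b) hkk]
  refine Nat.add_le_add_right (Nat.mul_le_mul_left _ ?_) _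
  unfold R2
  have h1 : ((univ : Finset (PL b × PL b)).filter (fun p => gP b p.1 = gP b p.2)).card =
      ∑ u : Fin (kA b), ∑ u' : Fin (kA b), ((univ : Finset (Fin (kB b) × Fin (kB b))).filter
      (fun q => (u : ℕ) + (q.1 : ℕ) = (u' : ℕ) + (q.2 : ℕ))).card := by
    rw [← Fintype.sum_prod_type' (f := fun u u' : Fin (kA b) =>
      ((univ : Finset (Fin (kB b) × Fin (kB b))).filter
      (fun q => (u : ℕ) + (q.1 : ℕ) = (u' : ℕ) + (q.2 : ℕ))).card), ← Finset.card_sigma]
    refine card_bij' (fun p _ => ⟨(p.1.1, p.2.1), (p.1.2, p.2.2)⟩)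
      (fun q _ => ((q.1.1, q.2.1), (q.1.2, q.2.2))) ?_ ?_ ?_ ?_
    · intro p hp
      rw [mem_filter] at hp
      rw [mem_sigma, mem_filter]
      exact ⟨mem_univ _, mem_univ _, hp.2⟩
    · intro q hq
      rw [mem_sigma, mem_filter] at hq
      rw [mem_filter]
      exact ⟨mem_univ _, hq.2.2⟩
    · intro p _
      rfl
    · intro q _
      rfl
  rw [h1, ← Fin.sum_univ_eq_sum_range (fun u => ∑ u' ∈ range (kA b), (kB b - (max u u' - min u u')))]
  refine Finset.sum_le_sum fun u _ => ?_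
  rw [← Fin.sum_univ_eq_sum_range (fun u' => (kB b - (max (u : ℕ) u' - min (u : ℕ) u')))]
  exact Finset.sum_le_sum fun u' _ => card_coinc (kA b) (kB b) u u'

/-- The second moment of the letters. -/
lemma rho_pair {b : ℕ} (hb : 2 ≤ b) :
    3 * (b : ℝ) / 4 * R2 (gP b) ≤ (Fintype.card (PL b) : ℝ) ^ 2 := by
  have h := R2_le (b := b)
  rw [card_PL]
  generalize R2 (gP b) = R at h ⊢
  rcases Nat.even_or_odd' b with ⟨k, hk | hk⟩
  · have hk1 : 1 ≤ k := by omega
    have e1 : kA b = k := by unfold kA; omega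
    have e2 : kB b = k + 1 := by unfold kB; omega
    rw [e1, e2] at h ⊢
    have h3 : k ≤ k ^ 3 := Nat.le_self_pow (by norm_num) k
    have h4 : 3 * R + k ^ 3 ≤ 3 * (k ^ 2 * (k + 1)) + k := by omega
    have h5 : 3 * (R : ℝ) + (k : ℝ) ^ 3 ≤ 3 * ((k : ℝ) ^ 2 * (k + 1)) + k := by
      exact_mod_cast h4
    have hk1r : (1 : ℝ) ≤ k := by exact_mod_cast hk1
    have hbk : (b : ℝ) = 2 * k := by rw [hk]; push_cast; ring
    rw [hbk]
    push_cast
    have h6 : 3 * (2 * (k : ℝ)) / 4 * R ≤ k / 2 * (2 * (k : ℝ) ^ 3 + 3 * k ^ 2 + k) := by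
      have : 3 * (R : ℝ) ≤ 2 * (k : ℝ) ^ 3 + 3 * k ^ 2 + k := by nlinarith
      nlinarith
    refine h6.trans ?_
    nlinarith [pow_pos (by linarith : (0 : ℝ) < k) 3, pow_pos (by linarith : (0 : ℝ) < k) 2]
  · have hk1 : 1 ≤ k := by omega
    have e1 : kA b = k + 1 := by unfold kA; omega
    have e2 : kB b = k + 1 := by unfold kB; omega
    rw [e1, e2] at h ⊢
    have h3 : k + 1 ≤ (k + 1) ^ 3 := Nat.le_self_pow (by norm_num) _
    have h4 : 3 * R + (k + 1) ^ 3 ≤ 3 * ((k + 1) ^ 2 * (k + 1)) + (k + 1) := by omega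
    have h5 : 3 * (R : ℝ) + ((k : ℝ) + 1) ^ 3 ≤
        3 * (((k : ℝ) + 1) ^ 2 * ((k : ℝ) + 1)) + ((k : ℝ) + 1) := by exact_mod_cast h4
    have hk1r : (1 : ℝ) ≤ k := by exact_mod_cast hk1
    have hbk : (b : ℝ) = 2 * k + 1 := by rw [hk]; push_cast; ring
    rw [hbk]
    push_cast
    set t : ℝ := (k : ℝ) + 1 with ht
    have ht2 : (2 : ℝ) ≤ t := by linarith
    have e3 : 2 * (k : ℝ) + 1 = 2 * t - 1 := by rw [ht]; ring
    rw [e3]
    have h7 : 3 * (R : ℝ) ≤ 2 * t ^ 3 + t := by nlinarith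
    have h6 : 3 * (2 * t - 1) / 4 * R ≤ (2 * t - 1) / 4 * (2 * t ^ 3 + t) := by
      have : (0 : ℝ) ≤ (2 * t - 1) / 4 := by linarith
      nlinarith
    refine h6.trans ?_
    nlinarith [pow_pos (by linarith : (0 : ℝ) < t) 3, pow_pos (by linarith : (0 : ℝ) < t) 2]

end Pool.Agent.PalW
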