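import Pool.Agent.PalW.Core
import Pool.Agent.PalW.Rho
import Pool.Agent.PalSieve.P5

/-!
# Palindromes up to `x` with few prime factors
-/

namespace Pool.Agent.PalW

open Finset Pool.Agent.Pal

/-- The palindromes up to `x`. -/
noncomputable def PX (b : ℕ) (x : ℝ) : Finset ℕ :=
  (Icc 1 ⌊x⌋₊).filter (fun n : ℕ => (Nat.digits b n).reverse = Nat.digits b n)

open Classical in
/-- The palindromes up to `x` with at most `r` prime factors, all of them at least `x ^ (1/e)`. -/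
noncomputable def PXr (b : ℕ) (x : ℝ) (r e : ℕ) : Finset ℕ :=
  (PX b x).filter (fun n : ℕ => ArithmeticFunction.cardFactors n ≤ r ∧
    ∀ p : ℕ, p.Prime → p ∣ n → x ≤ (p : ℝ) ^ e)

lemma mem_GW {A : Type} [Fintype A] {g : A → ℕ} {b m r a0 X : ℕ} {ω : Fin m → A} :
    ω ∈ GW g b m r a0 X ↔ ArithmeticFunction.cardFactors (nv g b m ω) ≤ r ∧
      ∀ p ∈ (nv g b m ω).primeFactors, b ^ (a0 * (2 * m + 3)) ≤ p ^ X := by
  classical
  unfold GW
  rw [mem_filter]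
  simp only [mem_univ, true_and]

/-- The members of the family that are counted. -/
lemma nv_mem {A : Type} [Fintype A] {g : A → ℕ} {b : ℕ} (hb : 2 ≤ b) (hg : ∀ a, g a < b)
    {m r a0 X e : ℕ} (hX : X ≠ 0) (hm : X * (2 * m + 7) ≤ a0 * (2 * m + 3) * e) {x : ℝ}
    (hx1 : b ^ (2 * m + 3) ≤ ⌊x⌋₊) (hx2 : x < (b : ℝ) ^ (2 * m + 7)) {ω : Fin m → A}
    (hω : ω ∈ GW g b m r a0 X) : nv g b m ω ∈ PXr b x r e := by
  classical
  rw [mem_GW] at hω
  unfold PXr PX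
  rw [mem_filter, mem_filter, mem_Icc]
  have h0 := nv_pos g b m ω
  have h1 := nv_lt g hb hg m ω
  refine ⟨⟨⟨h0, by omega⟩, nv_isPal g hb hg m ω⟩, hω.1, fun p hp hpd => ?_⟩
  have h2 := hω.2 p (Nat.mem_primeFactors.mpr ⟨hp, hpd, by omega⟩)
  have h3 : (b ^ (2 * m + 7)) ^ X ≤ (p ^ e) ^ X := by
    calc (b ^ (2 * m + 7)) ^ X = b ^ (X * (2 * m + 7)) := by rw [← pow_mul, mul_comm]
      _ ≤ b ^ (a0 * (2 * m + 3) * e) := Nat.pow_le_pow_right (by omega) hm
      _ = (b ^ (a0 * (2 * m + 3))) ^ e := by rw [pow_mul]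
      _ ≤ (p ^ X) ^ e := Nat.pow_le_pow_left h2 _
      _ = (p ^ e) ^ X := by rw [← pow_mul, ← pow_mul, mul_comm]
  have h4 : b ^ (2 * m + 7) ≤ p ^ e := (Nat.pow_le_pow_iff_left hX).mp h3
  have h5 : ((b : ℝ)) ^ (2 * m + 7) ≤ (p : ℝ) ^ e := by exact_mod_cast h4
  exact hx2.le.trans h5

/-- Cauchy's inequality for the number of values. -/
lemma sq_card_le {A : Type} [Fintype A] {g : A → ℕ} {b : ℕ} (hb : 2 ≤ b) (hg : ∀ a, g a < b)
    {m : ℕ} (S : Finset (Fin m → A)) (T : Finset ℕ) (h : ∀ ω ∈ S, nv g b m ω ∈ T) :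
    S.card ^ 2 ≤ T.card * R2 g ^ m := by
  classical
  have h1 : S.card = ∑ n ∈ T, (S.filter (fun ω => nv g b m ω = n)).card :=
    card_eq_sum_card_fiberwise h
  have h2 : (∑ n ∈ T, (S.filter (fun ω => nv g b m ω = n)).card) ^ 2 ≤
      T.card * ∑ n ∈ T, (S.filter (fun ω => nv g b m ω = n)).card ^ 2 := sq_sum_le_card_mul_sum_sq
  rw [← h1] at h2
  refine h2.trans (Nat.mul_le_mul_left _ ?_)
  have h3 : ∑ n ∈ T, (S.filter (fun ω => nv g b m ω = n)).card ^ 2 ≤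
      ((univ : Finset ((Fin m → A) × (Fin m → A))).filter
        (fun p => ∀ j, g (p.1 j) = g (p.2 j))).card := by
    have e1 : ∀ n ∈ T, (S.filter (fun ω => nv g b m ω = n)).card ^ 2 =
        ((S.filter (fun ω => nv g b m ω = n)) ×ˢ (S.filter (fun ω => nv g b m ω = n))).card := by
      intro n _
      rw [card_product, sq]
    rw [Finset.sum_congr rfl e1, ← card_biUnion]
    · refine card_le_card fun p hp => ?_
      rw [mem_biUnion] at hp
      obtain ⟨n, _, hp⟩ := hp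
      rw [mem_product, mem_filter, mem_filter] at hp
      rw [mem_filter]
      exact ⟨mem_univ _, nv_inj g hb hg m p.1 p.2 (hp.1.2.trans hp.2.2.symm)⟩
    · intro n _ n' _ hne
      rw [Function.onFun, Finset.disjoint_left]
      intro p hp hp'
      rw [mem_product, mem_filter, mem_filter] at hp hp'
      exact hne (hp.1.2.symm.trans hp'.1.2)
  refine h3.trans ?_
  set S2 := (univ : Finset (A × A)).filter (fun p => g p.1 = g p.2) with hS2
  have h4 : ((univ : Finset ((Fin m → A) × (Fin m → A))).filter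
        (fun p => ∀ j, g (p.1 j) = g (p.2 j))).card ≤
      (Fintype.piFinset (fun _ : Fin m => S2)).card := by
    refine card_le_card_of_injOn (fun p j => (p.1 j, p.2 j)) ?_ ?_
    · intro p hp
      rw [mem_coe, mem_filter] at hp
      rw [mem_coe, Fintype.mem_piFinset]
      intro j
      rw [hS2, mem_filter]
      exact ⟨mem_univ _, hp.2 j⟩
    · intro p _ p' _ heq
      have e : ∀ j, (p.1 j, p.2 j) = (p'.1 j, p'.2 j) := fun j => congrFun heq j
      refine Prod.ext (funext fun j => ?_) (funext fun j => ?_)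
      · exact (Prod.mk.inj (e j)).1
      · exact (Prod.mk.inj (e j)).2
  refine h4.trans (le_of_eq ?_)
  rw [Fintype.card_piFinset, Finset.prod_const, card_univ, Fintype.card_fin]
  rfl

/-- Choice of `m`. -/
lemma exists_m {b : ℕ} (hb : 2 ≤ b) {M : ℕ} {x : ℝ} (hx : ((b ^ (4 * M + 5) : ℕ) : ℝ) ≤ x) :
    ∃ m, M ≤ m ∧ Odd m ∧ b ^ (2 * m + 3) ≤ ⌊x⌋₊ ∧ x < (b : ℝ) ^ (2 * m + 7) ∧
      ⌊x⌋₊ < b ^ (2 * m + 7) := by
  have hx1 : b ^ (4 * M + 5) ≤ ⌊x⌋₊ := Nat.le_floor hx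
  set X := ⌊x⌋₊ with hX
  have hX0 : X ≠ 0 := by
    have : 0 < b ^ (4 * M + 5) := pow_pos (by omega) _
    omega
  set n := Nat.log b X with hn
  have hn1 : b ^ n ≤ X := Nat.pow_log_le_self b hX0
  have hn2 : X < b ^ (n + 1) := Nat.lt_pow_succ_log_self (by omega) X
  have hn3 : 4 * M + 5 ≤ n := by
    have := hx1.trans_lt hn2
    have := (Nat.pow_lt_pow_iff_right (by omega : 1 < b)).mp this
    omega
  refine ⟨2 * ((n - 1) / 4) - 1, by omega, ⟨(n - 1) / 4 - 1, by omega⟩, ?_, ?_, ?_⟩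
  · exact (Nat.pow_le_pow_right (by omega) (by omega)).trans hn1
  · have h1 : x < (X : ℝ) + 1 := Nat.lt_floor_add_one x
    have h2 : ((X + 1 : ℕ) : ℝ) ≤ ((b ^ (n + 1) : ℕ) : ℝ) := by exact_mod_cast hn2
    have hb1 : (1 : ℝ) ≤ b := by
      have : 1 ≤ b := by omega
      exact_mod_cast this
    have h3 : (b : ℝ) ^ (n + 1) ≤ (b : ℝ) ^ (2 * (2 * ((n - 1) / 4) - 1) + 7) :=
      pow_le_pow_right₀ hb1 (by omega)
    push_cast at h2
    linarith
  · exact hn2.trans_le (Nat.pow_le_pow_right (by omega) (by omega))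

/-- **Many palindromes**: the lower bound, for letters with coincidences. -/
theorem count_dist {A : Type} [Fintype A] [DecidableEq A] [Nonempty A] {g : A → ℕ} {b : ℕ}
    (hb : 2 ≤ b) (hg : ∀ a, g a < b) {r a0 X e : ℕ} (hX : X ≠ 0) (he : X < a0 * e)
    (hcore : ∃ c : ℝ, 0 < c ∧ ∃ m0 : ℕ, ∀ m : ℕ, m0 ≤ m → Odd m →
      c * (Fintype.card A : ℝ) ^ m / m ≤ ((GW g b m r a0 X).card : ℝ))
    {ρ : ℝ} (hρ : 1 ≤ ρ) (hρ2 : ρ * R2 g ≤ (Fintype.card A : ℝ) ^ 2) :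
    ∃ c x₀ : ℝ, 0 < c ∧ ∀ x : ℝ, x₀ ≤ x →
      c * x ^ (Real.log ρ / (2 * Real.log b)) / (Real.log x) ^ 2 ≤ ((PXr b x r e).card : ℝ) := by
  classical
  obtain ⟨c, hc, m0, hm0⟩ := hcore
  have hL := log_pos_b hb
  set L := Real.log b with hLdef
  have hb0 : (2 : ℝ) ≤ b := by exact_mod_cast hb
  have hbp : (0 : ℝ) < b := by linarith
  have hρ0 : 0 < ρ := by linarith
  refine ⟨c ^ 2 * (2 * L) ^ 2 / ρ ^ 4, ((b ^ (4 * (m0 + 4 * X + 1) + 5) : ℕ) : ℝ), by positivity, ?_⟩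
  intro x hx
  obtain ⟨m, hm, hmo, hx1, hx2, hx3⟩ := exists_m hb hx
  have hm1 : (1 : ℝ) ≤ m := by
    have : 1 ≤ m := by omega
    exact_mod_cast this
  have hx0 : 0 < x := lt_of_lt_of_le (by positivity) hx
  have hcond : X * (2 * m + 7) ≤ a0 * (2 * m + 3) * e := by
    have h1 : (X + 1) * (2 * m + 3) ≤ a0 * e * (2 * m + 3) := Nat.mul_le_mul_right _ he
    have h2 : a0 * e * (2 * m + 3) = a0 * (2 * m + 3) * e := by ring
    rw [h2] at h1
    refine le_trans ?_ h1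
    nlinarith
  have h1 := hm0 m (by omega) hmo
  have h2 := sq_card_le hb hg (GW g b m r a0 X) (PXr b x r e)
    (fun ω hω => nv_mem hb hg hX hcond hx1 hx2 hω)
  have h3 : ((GW g b m r a0 X).card : ℝ) ^ 2 ≤ ((PXr b x r e).card : ℝ) * (R2 g : ℝ) ^ m := by
    exact_mod_cast h2
  have hR2 : (0 : ℝ) < R2 g := by
    obtain ⟨a⟩ := (inferInstance : Nonempty A)
    have : 0 < R2 g := card_pos.mpr ⟨(a, a), mem_filter.mpr ⟨mem_univ _, rfl⟩⟩
    exact_mod_cast this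
  set q0 : ℝ := (Fintype.card A : ℝ) with hq0
  have hq0p : 0 < q0 := by
    have : 0 < Fintype.card A := Fintype.card_pos
    rw [hq0]
    exact_mod_cast this
  have h4 : c ^ 2 * ρ ^ m / (m : ℝ) ^ 2 ≤ ((PXr b x r e).card : ℝ) := by
    have e1 : (c * q0 ^ m / m) ^ 2 ≤ ((PXr b x r e).card : ℝ) * (R2 g : ℝ) ^ m :=
      (pow_le_pow_left₀ (by positivity) h1 2).trans h3
    have e2 : ρ ^ m * (R2 g : ℝ) ^ m ≤ (q0 ^ m) ^ 2 := by
      rw [← mul_pow, ← pow_mul, mul_comm m 2, pow_mul]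
      exact pow_le_pow_left₀ (by positivity) hρ2 m
    have e3 : c ^ 2 * ρ ^ m / (m : ℝ) ^ 2 * (R2 g : ℝ) ^ m ≤
        ((PXr b x r e).card : ℝ) * (R2 g : ℝ) ^ m := by
      refine le_trans ?_ e1
      calc c ^ 2 * ρ ^ m / (m : ℝ) ^ 2 * (R2 g : ℝ) ^ m =
            c ^ 2 / (m : ℝ) ^ 2 * (ρ ^ m * (R2 g : ℝ) ^ m) := by ring
        _ ≤ c ^ 2 / (m : ℝ) ^ 2 * (q0 ^ m) ^ 2 := mul_le_mul_of_nonneg_left e2 (by positivity)
        _ = (c * q0 ^ m / m) ^ 2 := by ring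
    exact le_of_mul_le_mul_right e3 (by positivity)
  refine le_trans ?_ h4
  -- comparison with `x`
  have hlx2 : Real.log x ≤ (2 * m + 7) * L := by
    have := Real.log_le_log hx0 hx2.le
    rw [Real.log_pow] at this
    push_cast at this
    exact this
  have hlx1 : 2 * (m : ℝ) * L ≤ Real.log x := by
    have e1 : (b : ℝ) ^ (2 * m) ≤ x := by
      have e2 : b ^ (2 * m) ≤ ⌊x⌋₊ := (Nat.pow_le_pow_right (by omega) (by omega)).trans hx1
      have e3 : ((⌊x⌋₊ : ℕ) : ℝ) ≤ x := Nat.floor_le hx0.le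
      have e4 : ((b ^ (2 * m) : ℕ) : ℝ) ≤ (⌊x⌋₊ : ℕ) := by exact_mod_cast e2
      push_cast at e4
      linarith
    have e5 := Real.log_le_log (by positivity) e1
    rw [Real.log_pow] at e5
    push_cast at e5
    exact e5
  have hlx0 : 0 < 2 * (m : ℝ) * L := by positivity
  have hlρ : 0 ≤ Real.log ρ := Real.log_nonneg hρ
  have hxη : x ^ (Real.log ρ / (2 * L)) ≤ ρ ^ m * ρ ^ 4 := by
    rw [Real.rpow_def_of_pos hx0, ← pow_add]
    have e1 : Real.log x * (Real.log ρ / (2 * L)) ≤ ((m + 4 : ℕ) : ℝ) * Real.log ρ := by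
      have e2 : Real.log x * (Real.log ρ / (2 * L)) ≤ (2 * m + 7) * L * (Real.log ρ / (2 * L)) :=
        mul_le_mul_of_nonneg_right hlx2 (by positivity)
      have e3 : (2 * (m : ℝ) + 7) * L * (Real.log ρ / (2 * L)) = (m + 7 / 2) * Real.log ρ := by
        field_simp
      push_cast
      nlinarith
    calc Real.exp (Real.log x * (Real.log ρ / (2 * L))) ≤
          Real.exp (((m + 4 : ℕ) : ℝ) * Real.log ρ) := Real.exp_le_exp.mpr e1
      _ = ρ ^ (m + 4) := by rw [← Real.log_pow, Real.exp_log (by positivity)]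
  have hsq : (2 * (m : ℝ) * L) ^ 2 ≤ (Real.log x) ^ 2 := pow_le_pow_left₀ hlx0.le hlx1 2
  calc c ^ 2 * (2 * L) ^ 2 / ρ ^ 4 * x ^ (Real.log ρ / (2 * L)) / (Real.log x) ^ 2
      ≤ c ^ 2 * (2 * L) ^ 2 / ρ ^ 4 * (ρ ^ m * ρ ^ 4) / (Real.log x) ^ 2 :=
        div_le_div_of_nonneg_right (mul_le_mul_of_nonneg_left hxη (by positivity)) (by positivity)
    _ ≤ c ^ 2 * (2 * L) ^ 2 / ρ ^ 4 * (ρ ^ m * ρ ^ 4) / (2 * (m : ℝ) * L) ^ 2 :=
        div_le_div_of_nonneg_left (by positivity) (by positivity) hsq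
    _ = c ^ 2 * ρ ^ m / (m : ℝ) ^ 2 := by
        field_simp

/-- **A lower bound of the right order**, for an injective alphabet of full size. -/
theorem count_full {A : Type} [Fintype A] [DecidableEq A] [Nonempty A] {g : A → ℕ} {b : ℕ}
    (hb : 2 ≤ b) (hg : ∀ a, g a < b) (hinj : Function.Injective g) (hcard : Fintype.card A = b)
    {r a0 X e : ℕ} (hX : X ≠ 0) (he : X < a0 * e)
    (hcore : ∃ c : ℝ, 0 < c ∧ ∃ m0 : ℕ, ∀ m : ℕ, m0 ≤ m → Odd m →
      c * (Fintype.card A : ℝ) ^ m / m ≤ ((GW g b m r a0 X).card : ℝ)) :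
    ∃ c x₀ : ℝ, 0 < c ∧ ∀ x : ℝ, x₀ ≤ x →
      c * ((PX b x).card : ℝ) / Real.log x ≤ ((PXr b x r e).card : ℝ) := by
  classical
  obtain ⟨c, hc, m0, hm0⟩ := hcore
  have hL := log_pos_b hb
  have hb0 : (2 : ℝ) ≤ b := by exact_mod_cast hb
  have hbp : (0 : ℝ) < b := by linarith
  refine ⟨c * Real.log b / (2 * (b : ℝ) ^ 4), ((b ^ (4 * (m0 + 4 * X + 1) + 5) : ℕ) : ℝ),
    by positivity, ?_⟩
  intro x hx
  obtain ⟨m, hm, hmo, hx1, hx2, hx3⟩ := exists_m hb hx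
  have hm1 : (1 : ℝ) ≤ m := by
    have : 1 ≤ m := by omega
    exact_mod_cast this
  have hx0 : 0 < x := lt_of_lt_of_le (by positivity) hx
  have hcond : X * (2 * m + 7) ≤ a0 * (2 * m + 3) * e := by
    have h1 : (X + 1) * (2 * m + 3) ≤ a0 * e * (2 * m + 3) := Nat.mul_le_mul_right _ he
    have h2 : a0 * e * (2 * m + 3) = a0 * (2 * m + 3) * e := by ring
    rw [h2] at h1
    refine le_trans ?_ h1
    nlinarith
  have h1 := hm0 m (by omega) hmo
  rw [hcard] at h1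
  have h2 : (GW g b m r a0 X).card ≤ (PXr b x r e).card := by
    refine card_le_card_of_injOn (nv g b m)
      (fun ω hω => nv_mem hb hg hX hcond hx1 hx2 hω) ?_
    intro ω _ ω' _ heq
    exact funext fun j => hinj (nv_inj g hb hg m ω ω' heq j)
  have h3 : ((GW g b m r a0 X).card : ℝ) ≤ ((PXr b x r e).card : ℝ) := by exact_mod_cast h2
  have hcount : ((PX b x).card : ℝ) ≤ 4 * (b : ℝ) ^ (m + 4) := by
    have k1 := palCount_le (X := ⌊x⌋₊) (n := 2 * m + 6) hb (by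
      have : 2 * m + 6 + 1 = 2 * m + 7 := by omega
      rw [this]
      exact hx3)
    have k2 : (PX b x).card ≤ palCount b ⌊x⌋₊ 1 0 := by
      unfold palCount PX
      refine card_le_card fun k hk => ?_
      rw [mem_filter] at hk ⊢
      refine ⟨hk.1, hk.2, ?_⟩
      rw [Int.modEq_zero_iff_dvd]
      simp
    have k3 : ((PX b x).card : ℝ) ≤ (palCount b ⌊x⌋₊ 1 0 : ℝ) := by exact_mod_cast k2
    have k4 : (b : ℝ) ^ ((2 * m + 6) / 2 + 1) ≤ (b : ℝ) ^ (m + 4) :=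
      pow_le_pow_right₀ (by linarith) (by omega)
    linarith
  have hlog : 2 * (m : ℝ) * Real.log b ≤ Real.log x := by
    have e1 : (b : ℝ) ^ (2 * m) ≤ x := by
      have e2 : b ^ (2 * m) ≤ ⌊x⌋₊ := (Nat.pow_le_pow_right (by omega) (by omega)).trans hx1
      have e3 : ((⌊x⌋₊ : ℕ) : ℝ) ≤ x := Nat.floor_le hx0.le
      have e4 : ((b ^ (2 * m) : ℕ) : ℝ) ≤ (⌊x⌋₊ : ℕ) := by exact_mod_cast e2
      push_cast at e4
      linarith
    have e5 := Real.log_le_log (by positivity) e1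
    rw [Real.log_pow] at e5
    push_cast at e5
    exact e5
  have hlogp : 0 < 2 * (m : ℝ) * Real.log b := by positivity
  refine le_trans ?_ (h1.trans h3)
  have h5 : c * Real.log b / (2 * (b : ℝ) ^ 4) * ((PX b x).card : ℝ) ≤
      c * Real.log b / (2 * (b : ℝ) ^ 4) * (4 * (b : ℝ) ^ (m + 4)) :=
    mul_le_mul_of_nonneg_left hcount (by positivity)
  calc c * Real.log b / (2 * (b : ℝ) ^ 4) * ((PX b x).card : ℝ) / Real.log x ≤
        c * Real.log b / (2 * (b : ℝ) ^ 4) * (4 * (b : ℝ) ^ (m + 4)) / Real.log x :=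
        div_le_div_of_nonneg_right h5 (hlogp.trans_le hlog).le
    _ ≤ c * Real.log b / (2 * (b : ℝ) ^ 4) * (4 * (b : ℝ) ^ (m + 4)) /
        (2 * (m : ℝ) * Real.log b) :=
        div_le_div_of_nonneg_left (by positivity) hlogp hlog
    _ = c * (b : ℝ) ^ m / m := by
        rw [pow_add]
        field_simp
        ring

end Pool.Agent.PalW
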