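import Pool.Agent.PalW.Gen
import Pool.Agent.PalM.Mix

/-!
# The pair family: digits `u + v` with `u < ⌊(b+1)/2⌋`, `v ≤ ⌊b/2⌋`
-/

namespace Pool.Agent.PalW

open Finset Pool.Agent.Pal Pool.Agent.PalM

/-- Number of values of the first summand. -/
def kA (b : ℕ) : ℕ := (b + 1) / 2

/-- Number of values of the second summand. -/
def kB (b : ℕ) : ℕ := b / 2 + 1

/-- The letters. -/
abbrev PL (b : ℕ) : Type := Fin (kA b) × Fin (kB b)

/-- The digit of a letter. -/
def gP (b : ℕ) (a : PL b) : ℕ := (a.1 : ℕ) + (a.2 : ℕ)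

lemma kA_add_kB (b : ℕ) : kA b + kB b = b + 1 := by
  unfold kA kB
  omega

lemma gP_lt {b : ℕ} (a : PL b) : gP b a < b := by
  have h1 := a.1.2
  have h2 := a.2.2
  have h3 := kA_add_kB b
  unfold gP
  omega

lemma kA_pos {b : ℕ} (hb : 1 ≤ b) : 0 < kA b := by
  unfold kA
  omega

lemma kB_pos (b : ℕ) : 0 < kB b := by
  unfold kB
  omega

lemma gP_surj {b : ℕ} (hb : 1 ≤ b) : ∀ d < b, ∃ a : PL b, gP b a = d := by
  intro d hd
  have h0 := kA_pos hb
  have h3 := kA_add_kB b
  rcases Nat.lt_or_ge d (kA b) with h | h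
  · refine ⟨(⟨d, h⟩, ⟨0, kB_pos b⟩), ?_⟩
    unfold gP
    simp
  · refine ⟨(⟨kA b - 1, by omega⟩, ⟨d - (kA b - 1), by omega⟩), ?_⟩
    unfold gP
    simp only
    omega

lemma card_PL (b : ℕ) : Fintype.card (PL b) = kA b * kB b := by
  simp [PL]

lemma psi_pair (b : ℕ) (y : ℝ) : psi (gP b) y = phi (kA b) y * phi (kB b) y := by
  unfold psi phi dir
  rw [card_PL, div_mul_div_comm, ← norm_mul, Nat.cast_mul]
  congr 2
  rw [Fintype.sum_prod_type, ← Fin.sum_univ_eq_sum_range (fun n => ex (n * y)) (kA b),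
    ← Fin.sum_univ_eq_sum_range (fun n => ex (n * y)) (kB b), Finset.sum_mul_sum]
  refine Finset.sum_congr rfl fun u _ => Finset.sum_congr rfl fun v _ => ?_
  rw [← ex_add]
  congr 1
  unfold gP
  push_cast
  ring

lemma site_pair {b : ℕ} (hb : 3 ≤ b) : ∃ κ, Site b (psi (gP b)) κ := by
  have hk : 2 ≤ kA b := by
    unfold kA
    omega
  have hbr : (3 : ℝ) ≤ b := by exact_mod_cast hb
  obtain ⟨κ, h0, h1, h2⟩ := exists_phi_le hk (τ := 1 / (4 * (b : ℝ) ^ 2)) (by positivity) (by
    rw [div_le_div_iff₀ (by positivity) (by norm_num)]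
    nlinarith)
  refine ⟨κ, ?_, ?_, ?_, h0, h1, ?_⟩
  · intro x
    rw [psi_pair]
    exact mul_nonneg (phi_nonneg _ _) (phi_nonneg _ _)
  · intro x
    rw [psi_pair]
    exact mul_le_one₀ (phi_le_one _ _) (phi_nonneg _ _) (phi_le_one _ _)
  · intro x k
    rw [psi_pair, psi_pair, phi_add_int, phi_add_int]
  · intro x hx
    rw [psi_pair]
    calc phi (kA b) x * phi (kB b) x ≤ κ * 1 :=
          mul_le_mul (h2 x hx) (phi_le_one _ _) (phi_nonneg _ _) h0.le
      _ = κ := mul_one _

/-- The product of two squared kernels as an exponential sum. -/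
lemma phi_sq_mul_mix (k k' : ℕ) (y y' : ℝ) :
    ((phi k y ^ 2 * phi k' y' ^ 2 : ℝ) : ℂ) = ∑ p : Fin k × Fin k, ∑ q : Fin k' × Fin k',
      (((1 / ((k : ℝ) ^ 2 * (k' : ℝ) ^ 2) : ℝ)) : ℂ) *
        ex ((((p.1 : ℕ) : ℤ) - ((p.2 : ℕ) : ℤ) : ℤ) * y +
          (((q.1 : ℕ) : ℤ) - ((q.2 : ℕ) : ℤ) : ℤ) * y') := by
  rw [Complex.ofReal_mul, phi_sq_mix, phi_sq_mix, ← Fintype.sum_prod_type', ← Fintype.sum_prod_type',
    Finset.sum_mul_sum]
  refine Finset.sum_congr rfl fun p _ => Finset.sum_congr rfl fun q _ => ?_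
  rw [ex_add]
  push_cast
  have h : (1 : ℂ) / ((k : ℂ) ^ 2 * (k' : ℂ) ^ 2) = 1 / (k : ℂ) ^ 2 * (1 / (k' : ℂ) ^ 2) := by
    rw [div_mul_div_comm, one_mul]
  rw [h]
  ring

/-- The majorant of a product of two kernels over two consecutive sites. -/
lemma majG_two {b k k' : ℕ} {ψ : ℝ → ℝ} (hb : 3 ≤ b) (hψ : ∀ y, ψ y = phi k y * phi k' y)
    (hk0 : 0 < k) (hk'0 : 0 < k') (hk1 : 2 * (k - 1) ≤ b) (hk'1 : 2 * (k' - 1) ≤ b) :
    HasMajG ψ b 2 1 (1 / ((k : ℝ) * k')) := by
  have hkr : (0 : ℝ) < k := by exact_mod_cast hk0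
  have hk'r : (0 : ℝ) < k' := by exact_mod_cast hk'0
  have hbound : ∀ s t : ℤ, 2 * |s| ≤ b → 2 * |t| ≤ b → |s + b * t| < (b : ℤ) ^ 2 := by
    intro s t hs ht
    have h1 : |s + b * t| ≤ |s| + b * |t| := by
      refine (abs_add_le _ _).trans ?_
      rw [abs_mul, Nat.abs_cast]
    have h2 : (b : ℤ) * (2 * |t|) ≤ b * b := mul_le_mul_of_nonneg_left ht (by positivity)
    have h3 : (3 : ℤ) ≤ b := by exact_mod_cast hb
    nlinarith
  have hdiff : ∀ (n : ℕ) (a a' : Fin n), 2 * (n - 1) ≤ b →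
      2 * |((a : ℕ) : ℤ) - ((a' : ℕ) : ℤ)| ≤ b := by
    intro n a a' hn
    have h1 := a.2
    have h2 := a'.2
    rcases abs_cases (((a : ℕ) : ℤ) - ((a' : ℕ) : ℤ)) with ⟨h, _⟩ | ⟨h, _⟩ <;> rw [h] <;> omega
  have hzero : ∀ s t : ℤ, s + b * t = 0 → b * s + t = 0 → s = 0 ∧ t = 0 := by
    intro s t h1 h2
    have h3 : (3 : ℤ) ≤ b := by exact_mod_cast hb
    have h4 : ((b : ℤ) ^ 2 - 1) * t = 0 := by
      have : (b : ℤ) * (s + b * t) - (b * s + t) = 0 := by rw [h1, h2]; ring
      linarith [this]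
    have h5 : (b : ℤ) ^ 2 - 1 ≠ 0 := by nlinarith
    have h6 : t = 0 := by
      rcases mul_eq_zero.mp h4 with h | h
      · exact absurd h h5
      · exact h
    rw [h6] at h1
    exact ⟨by linarith, h6⟩
  set sg : (Fin k × Fin k) → ℤ := fun p => ((p.1 : ℕ) : ℤ) - ((p.2 : ℕ) : ℤ) with hsg
  set tg : (Fin k' × Fin k') → ℤ := fun q => ((q.1 : ℕ) : ℤ) - ((q.2 : ℕ) : ℤ) with htg
  set h : (Bool × (Fin k × Fin k) × (Fin k' × Fin k')) → ℤ :=
    fun i => if i.1 then sg i.2.1 + b * tg i.2.2 else tg i.2.2 + b * sg i.2.1 with hh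
  set h' : (Bool × (Fin k × Fin k) × (Fin k' × Fin k')) → ℤ :=
    fun i => if i.1 then tg i.2.2 + b * sg i.2.1 else sg i.2.1 + b * tg i.2.2 with hh'
  set C : ℝ := 1 / (2 * (k : ℝ) ^ 2 * (k' : ℝ) ^ 2) with hC
  have hC0 : 0 ≤ C := by positivity
  have hsgb : ∀ p, 2 * |sg p| ≤ b := fun p => hdiff k p.1 p.2 hk1
  have htgb : ∀ q, 2 * |tg q| ≤ b := fun q => hdiff k' q.1 q.2 hk'1
  refine ⟨(Bool × (Fin k × Fin k) × (Fin k' × Fin k')), inferInstance, fun _ => C, h, h',
    fun w v => 1 / 2 * (phi k (w + b * v) ^ 2 * phi k' (b * w + v) ^ 2) +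
      1 / 2 * (phi k (b * w + v) ^ 2 * phi k' (w + b * v) ^ 2), fun _ => hC0, ?_, ?_, ?_, ?_, ?_, ?_⟩
  · rintro ⟨β, p, q⟩
    cases β
    · simp only [hh, Bool.false_eq_true, if_false]
      exact hbound _ _ (htgb q) (hsgb p)
    · simp only [hh, if_true]
      exact hbound _ _ (hsgb p) (htgb q)
  · rintro ⟨β, p, q⟩
    cases β
    · simp only [hh', Bool.false_eq_true, if_false]
      exact hbound _ _ (hsgb p) (htgb q)
    · simp only [hh', if_true]
      exact hbound _ _ (htgb q) (hsgb p)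
  · intro w v
    have hsplit : ∀ f : (Bool × (Fin k × Fin k) × (Fin k' × Fin k')) → ℂ,
        ∑ i, f i = ∑ x, f (true, x) + ∑ x, f (false, x) := by
      intro f
      rw [Fintype.sum_prod_type, Fintype.sum_bool]
    rw [hsplit, Complex.ofReal_add, Complex.ofReal_mul (1 / 2), Complex.ofReal_mul (1 / 2),
      phi_sq_mul_mix, phi_sq_mul_mix, Finset.mul_sum, Finset.mul_sum]
    congr 1
    · rw [Fintype.sum_prod_type (f := fun x : (Fin k × Fin k) × (Fin k' × Fin k') =>
        (C : ℂ) * ex ((h (true, x) : ℝ) * w + (h' (true, x) : ℝ) * v))]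
      refine Finset.sum_congr rfl fun p _ => ?_
      rw [Finset.mul_sum]
      refine Finset.sum_congr rfl fun q _ => ?_
      simp only [hh, hh', if_true]
      rw [← mul_assoc, ← Complex.ofReal_mul]
      congr 2
      · rw [hC]; field_simp
      · simp only [hsg, htg]
        push_cast
        ring
    · rw [Fintype.sum_prod_type (f := fun x : (Fin k × Fin k) × (Fin k' × Fin k') =>
        (C : ℂ) * ex ((h (false, x) : ℝ) * w + (h' (false, x) : ℝ) * v))]
      refine Finset.sum_congr rfl fun p _ => ?_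
      rw [Finset.mul_sum]
      refine Finset.sum_congr rfl fun q _ => ?_
      simp only [hh, hh', Bool.false_eq_true, if_false]
      rw [← mul_assoc, ← Complex.ofReal_mul]
      congr 2
      · rw [hC]; field_simp
      · simp only [hsg, htg]
        push_cast
        ring
  · rw [Finset.sum_const, card_univ, nsmul_eq_mul]
    simp only [Fintype.card_prod, Fintype.card_bool, Fintype.card_fin]
    push_cast
    rw [hC]
    field_simp
  · have h1 : (∑ i with h i = 0 ∧ h' i = 0, C) ≤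
        ∑ i : Bool × (Fin k × Fin k) × (Fin k' × Fin k'),
          (if i.2.1.1 = i.2.1.2 then (if i.2.2.1 = i.2.2.2 then C else 0) else 0) := by
      rw [Finset.sum_filter]
      refine Finset.sum_le_sum fun i _ => ?_
      obtain ⟨β, p, q⟩ := i
      by_cases hc : h (β, p, q) = 0 ∧ h' (β, p, q) = 0
      · rw [if_pos hc]
        have h2 : sg p = 0 ∧ tg q = 0 := by
          obtain ⟨c1, c2⟩ := hc
          cases β
          · simp only [hh, hh', Bool.false_eq_true, if_false] at c1 c2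
            have := hzero _ _ c2 (by linarith)
            exact this
          · simp only [hh, hh', if_true] at c1 c2
            have := hzero _ _ c1 (by linarith)
            exact this
        have h3 : p.1 = p.2 := by
          have := h2.1
          simp only [hsg] at this
          ext
          omega
        have h4 : q.1 = q.2 := by
          have := h2.2
          simp only [htg] at this
          ext
          omega
        simp only [h3, h4, if_true]
        exact le_rfl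
      · rw [if_neg hc]
        split_ifs <;> [exact hC0; exact le_rfl; exact le_rfl]
    refine h1.trans (le_of_eq ?_)
    simp only [Fintype.sum_prod_type, Finset.sum_ite_irrel, Finset.sum_const_zero,
      Finset.sum_ite_eq, Finset.mem_univ, if_true, Finset.sum_const, card_univ, Fintype.card_fin,
      nsmul_eq_mul]
    have hcb : Fintype.card Bool = 2 := rfl
    rw [hC, hcb]
    push_cast
    field_simp
  · intro w v
    rw [Real.rpow_one]
    have e1 : PhiG ψ b 2 w v = (phi k (w + b * v) * phi k' (w + b * v)) *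
        (phi k (b * w + v) * phi k' (b * w + v)) := by
      unfold PhiG
      rw [Finset.prod_range_succ, Finset.prod_range_one, hψ, hψ]
      norm_num
    rw [e1]
    nlinarith [sq_nonneg (phi k (w + b * v) * phi k' (b * w + v) -
      phi k (b * w + v) * phi k' (w + b * v))]

/-- The majorant of the pair family over two consecutive sites. -/
lemma majG_pair {b : ℕ} (hb : 3 ≤ b) :
    HasMajG (psi (gP b)) b 2 1 (1 / ((kA b : ℝ) * kB b)) := by
  refine majG_two hb (psi_pair b) (kA_pos (by omega)) (kB_pos b) ?_ ?_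
  · unfold kA
    omega
  · unfold kB
    omega

end Pool.Agent.PalW
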