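import Pool.Agent.PalW.Count
import Pool.Agent.PalT.Check
import Pool.Agent.PalM.Family
import Pool.Agent.PalM.Small4
import Pool.Agent.PalM.Small5
import Pool.Agent.PalM.Small6

/-!
# The family of all palindromes
-/

namespace Pool.Agent.PalW

open Finset Pool.Agent.Pal Pool.Agent.PalM

/-- The digits. -/
def gU (b : ℕ) (a : Fin b) : ℕ := a

lemma psi_unif (b : ℕ) (y : ℝ) : psi (gU b) y = phi b y := by
  unfold psi phi dir gU
  rw [Fintype.card_fin, Fin.sum_univ_eq_sum_range (fun n : ℕ => ex (n * y))]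

lemma site_unif {b : ℕ} (hb : 2 ≤ b) : ∃ κ, Site b (psi (gU b)) κ := by
  have hb0 : (2 : ℝ) ≤ b := by exact_mod_cast hb
  have hτ : (0 : ℝ) < 1 / (4 * (b : ℝ) ^ 2) := by positivity
  have hτ2 : 1 / (4 * (b : ℝ) ^ 2) ≤ 1 / 2 := by
    refine one_div_le_one_div_of_le (by norm_num) ?_
    nlinarith
  obtain ⟨κ, h0, h1, h2⟩ := exists_phi_le hb hτ hτ2
  refine ⟨κ, ⟨?_, ?_, ?_, h0, h1, ?_⟩⟩
  · intro x
    rw [psi_unif]
    exact phi_nonneg _ _
  · intro x
    rw [psi_unif]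
    exact phi_le_one _ _
  · intro x k
    rw [psi_unif, psi_unif, phi_add_int]
  · intro x hx
    rw [psi_unif]
    exact h2 x hx

lemma majG_unif {b L : ℕ} {γ z : ℝ} (h : HasMaj b L γ z) : HasMajG (psi (gU b)) b L γ z := by
  obtain ⟨ι, hι, c, h1, h2, G, p1, p2, p3, p4, p5, p6, p7⟩ := h
  refine ⟨ι, hι, c, h1, h2, G, p1, p2, p3, p4, p5, p6, fun w v => ?_⟩
  refine le_trans (le_of_eq ?_) (p7 w v)
  congr 1
  unfold PhiG Phi
  exact Finset.prod_congr rfl fun r _ => psi_unif b _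

/-- Comparison of a number with a fractional power. -/
lemma lt_rpow_of_pow {x y : ℝ} (hx : 0 ≤ x) (hy : 0 < y) {n k : ℕ} (hk : k ≠ 0)
    (h : x ^ k < y ^ n) : x < y ^ ((n : ℝ) / k) := by
  have hk0 : (0 : ℝ) < k := by
    have : 0 < k := Nat.pos_of_ne_zero hk
    exact_mod_cast this
  have h1 : (y ^ ((n : ℝ) / k)) ^ k = y ^ n := by
    rw [← Real.rpow_natCast, ← Real.rpow_mul hy.le, div_mul_cancel₀ _ hk0.ne', Real.rpow_natCast]
  refine lt_of_pow_lt_pow_left₀ k (by positivity) ?_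
  rw [h1]
  exact h

lemma lt_rpow_neg {x y : ℝ} (hx : 0 ≤ x) (hy : 0 < y) {n k : ℕ} (hk : k ≠ 0)
    (h : x ^ k * y ^ n < 1) : x < y ^ (-((n : ℝ) / k)) := by
  have h1 : x < y⁻¹ ^ ((n : ℝ) / k) := by
    refine lt_rpow_of_pow hx (by positivity) hk ?_
    rw [inv_pow, ← one_div, lt_div_iff₀ (by positivity)]
    exact h
  rwa [Real.inv_rpow hy.le, ← Real.rpow_neg hy.le] at h1

lemma harm_lt {b : ℕ} (hb : 7 ≤ b) : 3 / 20 + 17 / 20 * HH b < (b : ℝ) ^ ((23 : ℝ) / 50) := by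
  induction b, hb using Nat.le_induction with
  | base =>
    have h1 : HH 7 = 363 / 140 := by
      unfold HH
      norm_num [Finset.sum_range_succ]
    rw [h1]
    have h2 := lt_rpow_of_pow (x := 3 / 20 + 17 / 20 * (363 / 140)) (y := ((7 : ℕ) : ℝ)) (n := 23)
      (k := 50) (by norm_num) (by norm_num) (by norm_num) (by norm_num)
    exact_mod_cast h2
  | succ n hn ih =>
    have hn0 : (7 : ℝ) ≤ n := by exact_mod_cast hn
    have h1 : HH (n + 1) = HH n + 1 / ((n : ℝ) + 1) := by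
      unfold HH
      rw [Finset.sum_range_succ]
    rw [h1]
    have h2 : (2 : ℝ) ≤ ((n : ℝ) + 1) ^ ((23 : ℝ) / 50) := by
      have e1 := lt_rpow_of_pow (x := 2) (y := 8) (n := 23) (k := 50) (by norm_num) (by norm_num)
        (by norm_num) (by norm_num)
      have e2 : (8 : ℝ) ^ ((23 : ℝ) / 50) ≤ ((n : ℝ) + 1) ^ ((23 : ℝ) / 50) :=
        Real.rpow_le_rpow (by norm_num) (by linarith) (by norm_num)
      have e3 : (2 : ℝ) < (8 : ℝ) ^ ((23 : ℝ) / 50) := by exact_mod_cast e1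
      linarith
    have h3 : (n : ℝ) ^ ((23 : ℝ) / 50) ≤ ((n : ℝ) + 1) ^ ((23 : ℝ) / 50) *
        (1 + 23 / 50 * (-(1 / ((n : ℝ) + 1)))) := by
      have e1 : (n : ℝ) = ((n : ℝ) + 1) * (1 + -(1 / ((n : ℝ) + 1))) := by
        field_simp
        ring
      have e4 : 1 / ((n : ℝ) + 1) ≤ 1 := by
        rw [div_le_one (by linarith)]
        linarith
      have e2 := rpow_one_add_le_one_add_mul_self (s := -(1 / ((n : ℝ) + 1)))
        (p := 23 / 50) (by linarith) (by norm_num) (by norm_num)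
      have e3 : (n : ℝ) ^ ((23 : ℝ) / 50) = ((n : ℝ) + 1) ^ ((23 : ℝ) / 50) *
          (1 + -(1 / ((n : ℝ) + 1))) ^ ((23 : ℝ) / 50) := by
        rw [← Real.mul_rpow (by linarith) (by linarith), ← e1]
      rw [e3]
      exact mul_le_mul_of_nonneg_left e2 (by positivity)
    push_cast
    set P := ((n : ℝ) + 1) ^ ((23 : ℝ) / 50) with hP
    set t := 1 / ((n : ℝ) + 1) with ht
    have ht0 : 0 < t := by positivity
    have h4 : P * (1 + 23 / 50 * -t) = P - 23 / 50 * (P * t) := by ring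
    rw [h4] at h3
    have h5 : 2 * t ≤ P * t := mul_le_mul_of_nonneg_right h2 ht0.le
    linarith

/-- The level of distribution of all palindromes suffices for four prime factors. -/
theorem core_unif {b : ℕ} (hb : 4 ≤ b) :
    ∃ c : ℝ, 0 < c ∧ ∃ m0 : ℕ, ∀ m : ℕ, m0 ≤ m → Odd m →
      c * (Fintype.card (Fin b) : ℝ) ^ m / m ≤ ((GW (gU b) b m 4 175 3565).card : ℝ) := by
  have : Nonempty (Fin b) := ⟨⟨0, by omega⟩⟩
  have hb2 : 2 ≤ b := by omega
  have hb0 : (4 : ℝ) ≤ b := by exact_mod_cast hb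
  obtain ⟨κ, hψ⟩ := site_unif hb2
  have key : ∀ (L : ℕ) (z : ℝ), 1 ≤ L → HasMaj b L 1 z →
      z < (b : ℝ) ^ (-(2 * (27 / 100 : ℝ) * L)) →
      ∃ c : ℝ, 0 < c ∧ ∃ m0 : ℕ, ∀ m : ℕ, m0 ≤ m → Odd m →
      c * (Fintype.card (Fin b) : ℝ) ^ m / m ≤ ((GW (gU b) b m 4 175 3565).card : ℝ) := by
    intro L z hL hmaj h
    exact coreW hb2 (fun a => a.2) (fun d hd => ⟨⟨d, hd⟩, rfl⟩) hψ Sv.chk4 (θ := 27 / 100)
      (by norm_num) (by norm_num)
      (hasF_of_majG hb2 hL hψ (majG_unif hmaj) (by norm_num) (by norm_num) h)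
      (hasFS_of_majG hb2 hL hψ (majG_unif hmaj) (by norm_num) (by norm_num) h)
  rcases Nat.lt_or_ge b 7 with h7 | h7
  · interval_cases b
    · refine key 2 _ (by norm_num) hasMaj_four ?_
      have e : (2 * (27 / 100 : ℝ) * ((2 : ℕ) : ℝ)) = ((27 : ℕ) : ℝ) / ((25 : ℕ) : ℝ) := by
        norm_num
      rw [e]
      exact lt_rpow_neg (by norm_num) (by norm_num) (by norm_num) (by norm_num)
    · refine key 2 _ (by norm_num) hasMaj_five ?_
      have e : (2 * (27 / 100 : ℝ) * ((2 : ℕ) : ℝ)) = ((27 : ℕ) : ℝ) / ((25 : ℕ) : ℝ) := by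
        norm_num
      rw [e]
      exact lt_rpow_neg (by norm_num) (by norm_num) (by norm_num) (by norm_num)
    · refine key 1 _ le_rfl hasMaj_six ?_
      have e : (2 * (27 / 100 : ℝ) * ((1 : ℕ) : ℝ)) = ((27 : ℕ) : ℝ) / ((50 : ℕ) : ℝ) := by
        norm_num
      rw [e]
      exact lt_rpow_neg (by norm_num) (by norm_num) (by norm_num) (by norm_num)
  · refine key 1 _ le_rfl (hasMaj h7) ?_
    have h1 := harm_lt h7
    have e : (b : ℝ) ^ (-(2 * (27 / 100 : ℝ) * ((1 : ℕ) : ℝ))) =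
        (b : ℝ) ^ ((23 : ℝ) / 50) / b := by
      rw [← Real.rpow_sub_one (by positivity)]
      norm_num
    rw [e]
    exact div_lt_div_of_pos_right h1 (by positivity)

end Pool.Agent.PalW
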