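import Pool.Agent.PalW.Count
import Pool.Agent.PalT.Check
import Pool.Agent.PalW.Pair
import Pool.Agent.PalW.Unif

/-!
# The pair family: at most three prime factors
-/

namespace Pool.Agent.PalW

open Finset Pool.Agent.Pal Pool.Agent.PalM

/-- The pair family, from the level of distribution. -/
theorem core_pair {b : ℕ} (hb : 3 ≤ b) {E a1 a0 v r X : ℕ} (hchk : Sv.chkT E a1 a0 v r X = true)
    {θ : ℝ} (hθE : (E : ℝ) < θ * X) (hθ0 : 0 ≤ θ) (hθ : θ < 1 / 2)
    (hz : 1 / ((kA b : ℝ) * kB b) < (b : ℝ) ^ (-(4 * θ))) :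
    ∃ c : ℝ, 0 < c ∧ ∃ m0 : ℕ, ∀ m : ℕ, m0 ≤ m → Odd m →
      c * (Fintype.card (PL b) : ℝ) ^ m / m ≤ ((GW (gP b) b m r a0 X).card : ℝ) := by
  have hb2 : 2 ≤ b := by omega
  have : Nonempty (PL b) := by
    obtain ⟨a, _⟩ := gP_surj (by omega : 1 ≤ b) 0 (by omega)
    exact ⟨a⟩
  obtain ⟨κ, hψ⟩ := site_pair hb
  have h : 1 / ((kA b : ℝ) * kB b) < (b : ℝ) ^ (-(2 * θ * ((2 : ℕ) : ℝ))) := by
    have e : 2 * θ * ((2 : ℕ) : ℝ) = 4 * θ := by push_cast; ring
    rw [e]
    exact hz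
  exact coreW hb2 (fun a => gP_lt a) (gP_surj (by omega)) hψ hchk hθE hθ
    (hasF_of_majG hb2 (by norm_num) hψ (majG_pair hb) hθ0 hθ h)
    (hasFS_of_majG hb2 (by norm_num) hψ (majG_pair hb) hθ0 hθ h)

/-- The level condition for three prime factors. -/
lemma lev_three {b : ℕ} (hb : 9 ≤ b) :
    1 / ((kA b : ℝ) * kB b) < (b : ℝ) ^ (-(4 * (183 / 500 : ℝ))) := by
  have hb0 : (9 : ℝ) ≤ b := by exact_mod_cast hb
  rcases Nat.eq_or_lt_of_le hb with h9 | h9
  · subst h9
    have e1 : kA 9 = 5 := rfl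
    have e2 : kB 9 = 5 := rfl
    rw [e1, e2]
    have e : (4 * (183 / 500 : ℝ)) = ((183 : ℕ) : ℝ) / ((125 : ℕ) : ℝ) := by norm_num
    rw [e]
    exact lt_rpow_neg (by norm_num) (by norm_num) (by norm_num) (by norm_num)
  · have hb1 : (10 : ℝ) ≤ b := by exact_mod_cast h9
    have h1 : (b : ℝ) * (b + 2) / 4 ≤ (kA b : ℝ) * kB b := by
      have h2 : b * (b + 2) ≤ 4 * (kA b * kB b) := by
        unfold kA kB
        rcases Nat.even_or_odd' b with ⟨k, hk | hk⟩
        · have e1 : (b + 1) / 2 = k := by omega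
          have e2 : b / 2 + 1 = k + 1 := by omega
          rw [e1, e2, hk]
          nlinarith
        · have e1 : (b + 1) / 2 = k + 1 := by omega
          have e2 : b / 2 + 1 = k + 1 := by omega
          rw [e1, e2, hk]
          nlinarith
      have h3 : (b : ℝ) * (b + 2) ≤ 4 * ((kA b : ℝ) * kB b) := by exact_mod_cast h2
      linarith
    have h2 : (b : ℝ) ^ ((58 : ℝ) / 125) < (b + 2) / 4 := by
      have e1 := lt_rpow_of_pow (x := 10) (y := 3) (n := 125) (k := 58) (by norm_num) (by norm_num)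
        (by norm_num) (by norm_num)
      -- `10 ^ (58/125) < 3`
      have e2 : (10 : ℝ) ^ ((58 : ℝ) / 125) < 3 := by
        have e3 : ((10 : ℝ) ^ ((58 : ℝ) / 125)) ^ 125 < 3 ^ 125 := by
          rw [← Real.rpow_natCast, ← Real.rpow_mul (by norm_num)]
          have : (58 : ℝ) / 125 * ((125 : ℕ) : ℝ) = ((58 : ℕ) : ℝ) := by norm_num
          rw [this, Real.rpow_natCast]
          norm_num
        exact lt_of_pow_lt_pow_left₀ 125 (by norm_num) e3
      have e4 : (b : ℝ) ^ ((58 : ℝ) / 125) ≤ 10 ^ ((58 : ℝ) / 125) *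
          (1 + 58 / 125 * (((b : ℝ) - 10) / 10)) := by
        have e5 : (b : ℝ) = 10 * (1 + ((b : ℝ) - 10) / 10) := by ring
        have e6 := rpow_one_add_le_one_add_mul_self (s := ((b : ℝ) - 10) / 10)
          (p := 58 / 125) (by
            have : 0 ≤ ((b : ℝ) - 10) / 10 := by
              apply div_nonneg <;> linarith
            linarith) (by norm_num) (by norm_num)
        have e7 : (b : ℝ) ^ ((58 : ℝ) / 125) = 10 ^ ((58 : ℝ) / 125) *
            (1 + ((b : ℝ) - 10) / 10) ^ ((58 : ℝ) / 125) := by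
          rw [← Real.mul_rpow (by norm_num) (by
            have : 0 ≤ ((b : ℝ) - 10) / 10 := by
              apply div_nonneg <;> linarith
            linarith), ← e5]
        rw [e7]
        exact mul_le_mul_of_nonneg_left e6 (by positivity)
      have e8 : 0 < 1 + 58 / 125 * (((b : ℝ) - 10) / 10) := by
        have : 0 ≤ ((b : ℝ) - 10) / 10 := by
          apply div_nonneg <;> linarith
        linarith
      have e9 := mul_lt_mul_of_pos_right e2 e8
      linarith
    have h3 : (b : ℝ) ^ ((183 : ℝ) / 125) < (kA b : ℝ) * kB b := by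
      have e1 : (b : ℝ) ^ ((183 : ℝ) / 125) = b * (b : ℝ) ^ ((58 : ℝ) / 125) := by
        rw [show (183 : ℝ) / 125 = 1 + 58 / 125 by norm_num, Real.rpow_add (by linarith),
          Real.rpow_one]
      rw [e1]
      have e2 := mul_lt_mul_of_pos_left h2 (by linarith : (0 : ℝ) < b)
      linarith
    have e : (4 * (183 / 500 : ℝ)) = (183 : ℝ) / 125 := by norm_num
    rw [e, Real.rpow_neg (by linarith), ← one_div]
    exact one_div_lt_one_div_of_lt (by positivity) h3

/-- **At most three prime factors**, in every base `b ≥ 9`. -/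
theorem three {b : ℕ} (hb : 9 ≤ b) :
    ∃ c x₀ : ℝ, 0 < c ∧ ∀ x : ℝ, x₀ ≤ x →
      c * x ^ (Real.log (3 * b / 4) / (2 * Real.log b)) / (Real.log x) ^ 2 ≤
        ((PXr b x 3 15).card : ℝ) := by
  have hb0 : (9 : ℝ) ≤ b := by exact_mod_cast hb
  have : Nonempty (PL b) := by
    obtain ⟨a, _⟩ := gP_surj (by omega : 1 ≤ b) 0 (by omega)
    exact ⟨a⟩
  exact count_dist (by omega) (fun a => gP_lt a) (X := 2623) (a0 := 175) (by norm_num) (by norm_num)
    (core_pair (by omega) Sv.chk3 (θ := 183 / 500) (by norm_num) (by norm_num) (by norm_num)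
      (lev_three hb)) (by linarith) (rho_pair (by omega))

/-- **At most four prime factors**, base `3`. -/
theorem four_three :
    ∃ c x₀ : ℝ, 0 < c ∧ ∀ x : ℝ, x₀ ≤ x →
      c * x ^ (Real.log (8 / 3) / (2 * Real.log 3)) / (Real.log x) ^ 2 ≤
        ((PXr 3 x 4 21).card : ℝ) := by
  have : Nonempty (PL 3) := by
    obtain ⟨a, _⟩ := gP_surj (b := 3) (by norm_num) 0 (by norm_num)
    exact ⟨a⟩
  have hR : R2 (gP 3) = 6 := by decide
  have hz : 1 / ((kA 3 : ℝ) * kB 3) < ((3 : ℕ) : ℝ) ^ (-(4 * (27 / 100 : ℝ))) := by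
    have e1 : kA 3 = 2 := rfl
    have e2 : kB 3 = 2 := rfl
    rw [e1, e2]
    have e : (4 * (27 / 100 : ℝ)) = ((27 : ℕ) : ℝ) / ((25 : ℕ) : ℝ) := by norm_num
    rw [e]
    exact lt_rpow_neg (by norm_num) (by norm_num) (by norm_num) (by norm_num)
  exact_mod_cast count_dist (b := 3) (g := gP 3) (ρ := 8 / 3) (by norm_num) (fun a => gP_lt a)
    (X := 3565) (a0 := 175) (e := 21) (r := 4) (by norm_num) (by norm_num)
    (core_pair (by norm_num) Sv.chk4 (θ := 27 / 100) (by norm_num) (by norm_num) (by norm_num)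
      hz) (by norm_num) (by rw [hR, card_PL]; unfold kA kB; norm_num)

/-- **At most four prime factors**, in every base `b ≥ 4`, with the full count. -/
theorem four_full {b : ℕ} (hb : 4 ≤ b) :
    ∃ c x₀ : ℝ, 0 < c ∧ ∀ x : ℝ, x₀ ≤ x →
      c * ((PX b x).card : ℝ) / Real.log x ≤ ((PXr b x 4 21).card : ℝ) := by
  have : Nonempty (Fin b) := ⟨⟨0, by omega⟩⟩
  exact count_full (by omega) (fun a => a.2) (fun a a' h => Fin.ext h) (Fintype.card_fin b)
    (X := 3565) (a0 := 175) (by norm_num) (by norm_num) (core_unif hb)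

end Pool.Agent.PalW
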