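import Pool.Agent.PalW.Base

/-!
# Palindromes built from letters
-/

namespace Pool.Agent.PalW

open Finset Pool.Agent.Pal

/-- The normalised modulus of the exponential sum over the letters. -/
noncomputable def psi {A : Type} [Fintype A] (g : A → ℕ) (y : ℝ) : ℝ :=
  ‖∑ a, ex (g a * y)‖ / Fintype.card A

/-- The palindrome with `2 m + 3` digits, outer digit `1`, middle digit `1` and the digits `g (ω j)`
at the positions `j + 1` and `2 m + 1 - j`. -/
def nv {A : Type} (g : A → ℕ) (b m : ℕ) (ω : Fin m → A) : ℕ :=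
  1 + b ^ (2 * m + 2) + b ^ (m + 1) + b * ∑ j : Fin m, g (ω j) * wt b (2 * m) j

/-- The inner leading half. -/
def hv {A : Type} (g : A → ℕ) (b m : ℕ) (ω : Fin m → A) : ℕ :=
  1 + ∑ j : Fin m, g (ω j) * b ^ (m - (j : ℕ))

section

variable {A : Type} (g : A → ℕ) {b : ℕ}

lemma hv_succ (m : ℕ) (ω : Fin (m + 1) → A) :
    hv g b (m + 1) ω = g (ω 0) * b ^ (m + 1) + hv g b m (fun j => ω j.succ) := by
  unfold hv
  rw [Fin.sum_univ_succ]
  simp only [Fin.val_zero, Fin.val_succ, Nat.sub_zero, Nat.add_sub_add_right]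
  ring

private lemma wt_succ_gen (ℓ j : ℕ) (hj : j ≤ ℓ) : wt b (ℓ + 2) (j + 1) = b * wt b ℓ j := by
  unfold wt
  have e : ℓ + 2 - (j + 1) = (ℓ - j) + 1 := by omega
  rw [e]
  ring

lemma hv_lt (hb : 2 ≤ b) (hg : ∀ a, g a < b) (m : ℕ) (ω : Fin m → A) :
    hv g b m ω < b ^ (m + 1) := by
  induction m with
  | zero =>
    simp only [hv, Finset.univ_eq_empty, Finset.sum_empty]
    simpa using (by omega : 1 < b)
  | succ m ih =>
    rw [hv_succ]
    have h1 := ih (fun j => ω j.succ)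
    have h2 : (g (ω 0) + 1) * b ^ (m + 1) ≤ b * b ^ (m + 1) := Nat.mul_le_mul_right _ (hg (ω 0))
    calc g (ω 0) * b ^ (m + 1) + hv g b m (fun j => ω j.succ)
        < g (ω 0) * b ^ (m + 1) + b ^ (m + 1) := by omega
      _ = (g (ω 0) + 1) * b ^ (m + 1) := by ring
      _ ≤ b * b ^ (m + 1) := h2
      _ = b ^ (m + 1 + 1) := by ring

/-- The inner part is a palindrome. -/
lemma inner_eq_pal (hb : 2 ≤ b) (hg : ∀ a, g a < b) (m : ℕ) (ω : Fin m → A) :
    b ^ m + ∑ j : Fin m, g (ω j) * wt b (2 * m) j = pal b (2 * m) (hv g b m ω) := by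
  induction m with
  | zero => simp [hv, pal_zero]
  | succ m ih =>
    have e : 2 * (m + 1) = 2 * m + 2 := by ring
    have e2 : 2 * m / 2 + 1 = m + 1 := by omega
    rw [e, hv_succ]
    have hs := pal_split (b := b) (2 * m) (g (ω 0)) (hv g b m (fun j => ω j.succ))
      (by rw [e2]; exact hv_lt g hb hg m _)
    rw [e2] at hs
    rw [hs, ← ih (fun j => ω j.succ), Fin.sum_univ_succ]
    have h0 : wt b (2 * m + 2) ((0 : Fin (m + 1)) : ℕ) = 1 + b ^ (2 * m + 2) := by
      simp [wt]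
    have h1 : ∀ j : Fin m, g (ω j.succ) * wt b (2 * m + 2) ((j.succ : Fin (m + 1)) : ℕ) =
        b * (g (ω j.succ) * wt b (2 * m) j) := by
      intro j
      rw [Fin.val_succ, wt_succ_gen (2 * m) j (by have := j.isLt; omega)]
      ring
    rw [h0, Finset.sum_congr rfl (fun j _ => h1 j), ← Finset.mul_sum]
    ring

lemma nv_eq_pal (hb : 2 ≤ b) (hg : ∀ a, g a < b) (m : ℕ) (ω : Fin m → A) :
    nv g b m ω = pal b (2 * m + 2) (1 * b ^ (m + 1) + hv g b m ω) := by
  have e2 : 2 * m / 2 + 1 = m + 1 := by omega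
  have hs := pal_split (b := b) (2 * m) 1 (hv g b m ω)
    (by rw [e2]; exact hv_lt g hb hg m _)
  rw [e2] at hs
  rw [hs, ← inner_eq_pal g hb hg m ω]
  unfold nv
  ring

lemma nv_isPal (hb : 2 ≤ b) (hg : ∀ a, g a < b) (m : ℕ) (ω : Fin m → A) :
    IsPal b (nv g b m ω) := by
  rw [nv_eq_pal g hb hg m ω]
  have h := hv_lt g hb hg m ω
  have e : (2 * m + 2) / 2 = m + 1 := by omega
  have h3 : 2 * b ^ (m + 1) ≤ b * b ^ (m + 1) := Nat.mul_le_mul_right _ hb
  refine (isPal_pal hb (by rw [e]; omega) ?_).1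
  rw [e, pow_succ b (m + 1), mul_comm (b ^ (m + 1)) b]
  omega

lemma nv_lt (hb : 2 ≤ b) (hg : ∀ a, g a < b) (m : ℕ) (ω : Fin m → A) :
    nv g b m ω < b ^ (2 * m + 3) := by
  rw [nv_eq_pal g hb hg m ω]
  have h := hv_lt g hb hg m ω
  have e : (2 * m + 2) / 2 = m + 1 := by omega
  have h3 : 2 * b ^ (m + 1) ≤ b * b ^ (m + 1) := Nat.mul_le_mul_right _ hb
  refine pal_lt (by omega) (2 * m + 2) _ ?_
  rw [e, pow_succ b (m + 1), mul_comm (b ^ (m + 1)) b]
  omega

lemma nv_pos (g : A → ℕ) (b m : ℕ) (ω : Fin m → A) : 0 < nv g b m ω := by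
  unfold nv
  omega

lemma nv_mod_b (hb : 2 ≤ b) (m : ℕ) (ω : Fin m → A) : nv g b m ω % b = 1 := by
  have e : nv g b m ω = 1 + b * (b ^ (2 * m + 1) + b ^ m +
      ∑ j : Fin m, g (ω j) * wt b (2 * m) j) := by
    unfold nv
    ring
  rw [e, Nat.add_mul_mod_self_left, Nat.mod_eq_of_lt (by omega)]

lemma hv_inj (hb : 2 ≤ b) (hg : ∀ a, g a < b) (m : ℕ) (ω ω' : Fin m → A)
    (h : hv g b m ω = hv g b m ω') : ∀ j, g (ω j) = g (ω' j) := by
  induction m with
  | zero => exact fun j => j.elim0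
  | succ m ih =>
    rw [hv_succ, hv_succ] at h
    have hpos : 0 < b ^ (m + 1) := by positivity
    have h1 := hv_lt g hb hg m (fun j => ω j.succ)
    have h2 := hv_lt g hb hg m (fun j => ω' j.succ)
    have hd := congrArg (· / b ^ (m + 1)) h
    rw [mul_comm (g (ω 0)), mul_comm (g (ω' 0)), Nat.mul_add_div hpos, Nat.mul_add_div hpos,
      Nat.div_eq_of_lt h1, Nat.div_eq_of_lt h2, add_zero, add_zero] at hd
    rw [hd] at h
    have h3 := ih (fun j => ω j.succ) (fun j => ω' j.succ) (Nat.add_left_cancel h)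
    intro j
    refine Fin.cases hd (fun i => h3 i) j

lemma nv_inj (hb : 2 ≤ b) (hg : ∀ a, g a < b) (m : ℕ) (ω ω' : Fin m → A)
    (h : nv g b m ω = nv g b m ω') : ∀ j, g (ω j) = g (ω' j) := by
  rw [nv_eq_pal g hb hg m ω, nv_eq_pal g hb hg m ω'] at h
  have h1 := hv_lt g hb hg m ω
  have h2 := hv_lt g hb hg m ω'
  have e : (2 * m + 2) / 2 + 1 = m + 1 + 1 := by omega
  have h3 : 2 * b ^ (m + 1) ≤ b ^ (m + 1 + 1) := by
    rw [pow_succ b (m + 1), mul_comm (b ^ (m + 1)) b]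
    exact Nat.mul_le_mul_right _ hb
  refine hv_inj g hb hg m ω ω' ?_
  rcases Nat.lt_trichotomy (hv g b m ω) (hv g b m ω') with hlt | heq | hgt
  · exfalso
    have := pal_strictMono (b := b) (by omega) (2 * m + 2) (1 * b ^ (m + 1) + hv g b m ω)
      (1 * b ^ (m + 1) + hv g b m ω') (by omega) (by rw [e]; omega)
    omega
  · exact heq
  · exfalso
    have := pal_strictMono (b := b) (by omega) (2 * m + 2) (1 * b ^ (m + 1) + hv g b m ω')
      (1 * b ^ (m + 1) + hv g b m ω) (by omega) (by rw [e]; omega)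
    omega

end

end Pool.Agent.PalW
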