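import Pool.Agent.PalW.Pow
import Pool.Agent.PalM.Hol

/-!
# Large moduli: interpolation between the majorant and a high power
-/

namespace Pool.Agent.PalW

open Finset Pool.Agent.Pal Pool.Agent.PalM

/-- Interpolation, for a general family of fractions. -/
theorem large_abs {b : ℕ} (hb : 2 ≤ b) {ψ : ℝ → ℝ} {κ : ℝ} (hψ : Site b ψ κ) {L : ℕ} (hL : 1 ≤ L)
    {γ z θ c0 : ℝ} (hγ0 : 0 ≤ γ) (hγ1 : γ < 1) (hz0 : 0 ≤ z) (hθ0 : 0 ≤ θ) (hθ1 : θ < 1 / 2)
    (hz : z ≤ (b : ℝ) ^ (-(2 * θ * L))) (hc0 : 0 < c0) :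
    ∃ η : ℝ, 0 < η ∧ ∀ K : ℝ, 0 < K → ∃ (σ C : ℝ) (m0 : ℕ), 0 < σ ∧ 0 < C ∧
    ∀ (m D : ℕ) (I : Finset (ℕ × ℕ)) (V : ℝ) (F : ℝ → ℝ), m0 ≤ m → 2 ≤ D → 0 < V →
      Real.log D ≤ θ * Real.log b * (2 * m) → c0 * Real.log b * (2 * m) ≤ Real.log D →
      (∀ α, 0 ≤ F α) → (∀ α, (Bk ψ b (2 * m) 0 (m / L * L) α) ^ γ ≤ F α) →
      ∑ x ∈ I, F (pt b x) ≤ K * V * ((D : ℝ) * z ^ (m / L) + ((b : ℝ) ^ (2 * m + 1)) ^ η) →
      Fam b I ((D : ℝ) ^ 2) (K * V / D) →
      ∑ x ∈ I, Bk ψ b (2 * m) 0 m (pt b x) ≤ C * V * Real.exp (-σ * (2 * m)) := by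
  have hβ := log_pos_b hb
  set β := Real.log b with hβdef
  have hbp : (0 : ℝ) < b := by
    have : 0 < b := by omega
    exact_mod_cast this
  have hb1 : (1 : ℝ) < b := by
    have : 1 < b := by omega
    exact_mod_cast this
  -- the parameters
  set μ : ℝ := min c0 ((1 / 2 - θ) / 4) with hμdef
  have hμ0 : 0 < μ := lt_min hc0 (by linarith)
  have hμc : μ ≤ c0 := min_le_left _ _
  have hμθ : μ ≤ (1 / 2 - θ) / 4 := min_le_right _ _
  obtain ⟨lam, hlam1, hlam⟩ : ∃ lam : ℕ, 1 ≤ lam ∧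
      1 + (b : ℝ) * κ ^ lam ≤ Real.exp (β * (μ / 4)) := by
    have h1 : (1 : ℝ) < Real.exp (β * (μ / 4)) := Real.one_lt_exp_iff.mpr (by positivity)
    have h2 : Filter.Tendsto (fun n : ℕ => 1 + (b : ℝ) * κ ^ n) Filter.atTop
        (nhds (1 + b * 0)) :=
      ((tendsto_pow_atTop_nhds_zero_of_lt_one hψ.kpos.le hψ.klt).const_mul _).const_add _
    rw [mul_zero, add_zero] at h2
    have h3 := (h2.eventually_lt_const h1).and (Filter.eventually_ge_atTop 1)
    obtain ⟨n, hn, hn1⟩ := h3.exists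
    exact ⟨n, hn1, hn.le⟩
  have hlamR : (1 : ℝ) ≤ lam := by exact_mod_cast hlam1
  set s : ℝ := (3 * lam - 1) / (3 * lam - γ) with hs
  have hden : 0 < 3 * (lam : ℝ) - γ := by linarith
  have hs0 : 0 < s := div_pos (by linarith) hden
  have hs1 : s < 1 := by
    rw [hs, div_lt_one hden]; linarith
  have hseq : γ * s + 3 * lam * (1 - s) = 1 := by
    have : s * (3 * lam - γ) = 3 * lam - 1 := by
      rw [hs]; exact div_mul_cancel₀ _ hden.ne'
    linarith
  have h1s : 0 < 1 - s := by linarith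
  set η : ℝ := (1 - s) * μ / 8 with hη
  have hη0 : 0 < η := by positivity
  refine ⟨η, hη0, ?_⟩
  intro K hK
  set CL := Real.exp (2 * θ * L * β) with hCL
  have hCL1 : 1 ≤ CL := Real.one_le_exp (by positivity)
  obtain ⟨m0, hm0⟩ := exists_nat_ge (2 / μ + 1)
  refine ⟨(1 - s) * β * μ / 4, (2 * K * CL) ^ s * (36 * K * (b : ℝ) ^ 4) ^ (1 - s) *
    Real.exp (η * β), m0, by positivity, by positivity, ?_⟩
  intro m D I V F hm hD hV hlogD hlogD' hF0 hF hS hFam
  have hDp : (0 : ℝ) < D := by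
    have : 0 < D := by omega
    exact_mod_cast this
  have hmR : 2 / μ + 1 ≤ (m : ℝ) := hm0.trans (by exact_mod_cast hm)
  have hμm : 2 ≤ μ * m := by
    have h1 : 2 / μ ≤ (m : ℝ) := by linarith
    rw [div_le_iff₀ hμ0] at h1
    linarith
  have hm0' : (0 : ℝ) ≤ m := Nat.cast_nonneg _
  obtain ⟨hk1, hk2, hk3, hk4⟩ := clog_bounds hb hD
  set k := Nat.clog b D with hk
  set g := ⌊μ * m⌋₊ with hg
  have hg1 : (g : ℝ) ≤ μ * m := Nat.floor_le (by positivity)
  have hg2 : μ * m < g + 1 := Nat.lt_floor_add_one _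
  have hkR : 2 * c0 * m ≤ k := by
    have h1 : c0 * β * (2 * m) ≤ β * k := hlogD'.trans hk3
    have h2 : β * (2 * c0 * m) ≤ β * k := by linarith
    exact le_of_mul_le_mul_left h2 hβ
  have hkR' : (k : ℝ) ≤ 1 + 2 * θ * m := by
    have h1 : β * k ≤ β * (1 + 2 * θ * m) := by
      have : β * (1 + 2 * θ * m) = β + θ * β * (2 * m) := by ring
      rw [this]; linarith
    exact le_of_mul_le_mul_left h1 hβ
  have hgk : g + 1 ≤ k := by
    have h1 : (g : ℝ) + 1 ≤ k := by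
      have : μ * m ≤ c0 * m := mul_le_mul_of_nonneg_right hμc hm0'
      have : (g : ℝ) + 1 ≤ 2 * (c0 * m) := by linarith
      linarith
    exact_mod_cast h1
  have hkgm : k + g + 1 ≤ m := by
    have h1 : (k : ℝ) + g + 1 ≤ m := by
      have h2 : μ * m ≤ (1 / 2 - θ) / 4 * m := mul_le_mul_of_nonneg_right hμθ hm0'
      have h3 : (1 / 2 - θ) * m ≥ 8 := by linarith
      have h4 : (1 / 2 - θ) * m = m / 2 - θ * m := by ring
      linarith
    exact_mod_cast h1
  -- the high power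
  have hR : (D : ℝ) ^ 2 ≤ (b : ℝ) ^ ((m + 1 - (m - k + g)) + (m - (m - k - g - 1) - 1)) := by
    have e1 : (m + 1 - (m - k + g)) + (m - (m - k - g - 1) - 1) = k + k + 1 := by omega
    rw [e1, pow_add, pow_add, pow_one, sq]
    have h2 : (D : ℝ) * D ≤ (b : ℝ) ^ k * (b : ℝ) ^ k :=
      mul_le_mul hk1 hk1 hDp.le (by positivity)
    calc (D : ℝ) * D ≤ ((b : ℝ) ^ k * (b : ℝ) ^ k) * 1 := by rw [mul_one]; exact h2
      _ ≤ _ := mul_le_mul_of_nonneg_left hb1.le (by positivity)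
  have hpow := sum_Bk_pow hb hψ hFam (m := m) (a := m - k + g) (i0 := m - k - g - 1)
    (by omega) (by omega) hR lam
  set W : ℕ × ℕ → ℝ := fun x => (Bk ψ b (2 * m) (m - k - g - 1) m (pt b x)) ^ (3 * lam) with hW
  set B : ℝ := 36 * K * (b : ℝ) ^ 4 * V * Real.exp (-(3 / 4 * (β * μ * m))) with hB
  have hB0 : 0 < B := by positivity
  have hWB : ∑ x ∈ I, W x ≤ B := by
    refine hpow.trans ?_
    have e1 : m + 1 - (m - k + g) = k - g + 1 := by omega
    have e2 : m - (m - k - g - 1) - 1 = k + g := by omega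
    rw [e1, e2]
    have hbk : (b : ℝ) ^ (k - g + 1) * (b : ℝ) ^ g = (b : ℝ) ^ k * b := by
      rw [← pow_add, ← pow_succ]; congr 1; omega
    have hbg0 : (0 : ℝ) < (b : ℝ) ^ g := by positivity
    have hbk2 : (b : ℝ) ^ (k - g + 1) ≤ b * D * b / (b : ℝ) ^ g := by
      rw [le_div_iff₀ hbg0, hbk]
      exact mul_le_mul_of_nonneg_right hk2 hbp.le
    have hpw : (1 + (b : ℝ) * κ ^ lam) ^ (k + g) ≤ Real.exp (β * (μ / 4) * m) := by
      calc (1 + (b : ℝ) * κ ^ lam) ^ (k + g) ≤ (Real.exp (β * (μ / 4))) ^ (k + g) :=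
            pow_le_pow_left₀ (by have := hψ.kpos; positivity) hlam _
        _ ≤ (Real.exp (β * (μ / 4))) ^ m :=
            pow_le_pow_right₀ (Real.one_le_exp (by positivity)) (by omega)
        _ = Real.exp (β * (μ / 4) * m) := by rw [← Real.exp_nat_mul]; congr 1; ring
    have hbg : 1 / (b : ℝ) ^ g ≤ b * Real.exp (-(β * μ * m)) := by
      rw [div_le_iff₀ hbg0, pow_eq_exp hb]
      have : (b : ℝ) = Real.exp β := by rw [hβdef, Real.exp_log hbp]
      rw [this, ← Real.exp_add, ← Real.exp_add, Real.log_exp]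
      rw [Real.one_le_exp_iff]
      have h9 : β * (μ * m) ≤ β * (g + 1) := mul_le_mul_of_nonneg_left hg2.le hβ.le
      have h10 : β * (μ * m) = β * μ * m := by ring
      have h11 : β * ((g : ℝ) + 1) = β * g + β := by ring
      linarith
    have hKV : 0 < K * V / D := by positivity
    have hpw0 : (0 : ℝ) ≤ (1 + (b : ℝ) * κ ^ lam) ^ (k + g) := by
      have := hψ.kpos; positivity
    calc 36 * (K * V / D) * (b : ℝ) ^ (k - g + 1) * (b * (1 + b * κ ^ lam) ^ (k + g))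
        ≤ 36 * (K * V / D) * (b * D * b / (b : ℝ) ^ g) *
            (b * Real.exp (β * (μ / 4) * m)) := by
          refine mul_le_mul (mul_le_mul_of_nonneg_left hbk2 (by positivity))
            (mul_le_mul_of_nonneg_left hpw hbp.le) (by positivity) (by positivity)
      _ = (36 * K * V * b ^ 3 * Real.exp (β * (μ / 4) * m)) * (1 / (b : ℝ) ^ g) := by
          field_simp
      _ ≤ (36 * K * V * b ^ 3 * Real.exp (β * (μ / 4) * m)) * (b * Real.exp (-(β * μ * m))) :=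
          mul_le_mul_of_nonneg_left hbg (by positivity)
      _ = 36 * K * (b : ℝ) ^ 4 * V * (Real.exp (β * (μ / 4) * m) * Real.exp (-(β * μ * m))) := by
          ring
      _ = B := by
          rw [hB, ← Real.exp_add]
          congr 2
          ring
  -- the majorant
  set E := Real.exp (η * β * (2 * m + 1)) with hE
  have hE1 : 1 ≤ E := Real.one_le_exp (by positivity)
  set A : ℝ := 2 * K * CL * V * E with hA
  have hA0 : 0 < A := by positivity
  have hSA : ∑ x ∈ I, F (pt b x) ≤ A := by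
    refine hS.trans ?_
    have h1 := diag_le (ℓ := 2 * m) hb hL hz0 hθ0 hz (by omega : 1 ≤ D)
    have e1 : (2 * m + 1) / 2 = m := by omega
    rw [e1] at h1
    have h2 : Real.exp (Real.log D - θ * (Real.log b * ((2 * m : ℕ) : ℝ))) ≤ 1 := by
      rw [Real.exp_le_one_iff]
      push_cast
      linarith
    have h3 : (D : ℝ) * z ^ (m / L) ≤ CL := by
      refine h1.trans ?_
      calc _ ≤ Real.exp (2 * θ * L * Real.log b) * 1 :=
            mul_le_mul_of_nonneg_left h2 (Real.exp_pos _).le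
        _ = CL := by rw [mul_one]
    have h4 : ((b : ℝ) ^ (2 * m + 1)) ^ η = E := by
      rw [pow_eq_exp hb, ← Real.exp_mul]
      congr 1
      push_cast
      ring
    rw [h4]
    have h5 : (D : ℝ) * z ^ (m / L) + E ≤ 2 * CL * E := by nlinarith
    calc K * V * ((D : ℝ) * z ^ (m / L) + E) ≤ K * V * (2 * CL * E) :=
          mul_le_mul_of_nonneg_left h5 (by positivity)
      _ = A := by rw [hA]; ring
  -- Hölder
  have hHol := holder2 I (fun x => Bk ψ b (2 * m) 0 m (pt b x)) (fun x => F (pt b x)) W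
    hA0 hB0 hs0.le hs1.le (fun x _ => hF0 _)
    (fun x _ => pow_nonneg (Bk_nonneg hψ _ _ _ _) _)
    (by
      intro x _
      set f := Bk ψ b (2 * m) 0 m (pt b x) with hf
      have f0 : 0 ≤ f := Bk_nonneg hψ _ _ _ _
      have f1 : f ≤ Bk ψ b (2 * m) 0 (m / L * L) (pt b x) :=
        Bk_le_of_le hψ _ le_rfl (Nat.div_mul_le_self _ _) _
      have f2 : f ≤ Bk ψ b (2 * m) (m - k - g - 1) m (pt b x) :=
        Bk_le_of_le hψ _ (Nat.zero_le _) le_rfl _
      have e1 : f = f ^ (γ * s) * f ^ (3 * lam * (1 - s)) := by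
        rw [← Real.rpow_add_of_nonneg f0 (mul_nonneg hγ0 hs0.le) (by positivity), hseq,
          Real.rpow_one]
      have e2 : f ^ (γ * s) ≤ F (pt b x) ^ s := by
        rw [Real.rpow_mul f0]
        refine Real.rpow_le_rpow (Real.rpow_nonneg f0 _) ?_ hs0.le
        exact (Real.rpow_le_rpow f0 f1 hγ0).trans (hF _)
      have e3 : f ^ (3 * lam * (1 - s)) ≤ (W x) ^ (1 - s) := by
        rw [Real.rpow_mul f0]
        refine Real.rpow_le_rpow (Real.rpow_nonneg f0 _) ?_ h1s.le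
        have e4 : f ^ (3 * (lam : ℝ)) = f ^ (3 * lam) := by
          rw [← Real.rpow_natCast]
          push_cast
          rfl
        rw [e4]
        exact pow_le_pow_left₀ f0 f2 _
      calc f = f ^ (γ * s) * f ^ (3 * lam * (1 - s)) := e1
        _ ≤ _ := mul_le_mul e2 e3 (Real.rpow_nonneg f0 _) (Real.rpow_nonneg (hF0 _) _))
    hSA hWB
  refine hHol.trans ?_
  have eA : A ^ s = (2 * K * CL) ^ s * V ^ s * E ^ s := by
    rw [hA, Real.mul_rpow (by positivity) (by positivity),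
      Real.mul_rpow (by positivity) (by positivity)]
  have eB : B ^ (1 - s) = (36 * K * (b : ℝ) ^ 4) ^ (1 - s) * V ^ (1 - s) *
      Real.exp (-(3 / 4 * (β * μ * m))) ^ (1 - s) := by
    rw [hB, Real.mul_rpow (by positivity) (by positivity),
      Real.mul_rpow (by positivity) (by positivity)]
  have eV : V ^ s * V ^ (1 - s) = V := by
    rw [← Real.rpow_add hV, add_sub_cancel, Real.rpow_one]
  have eE : E ^ s ≤ E := by
    calc E ^ s ≤ E ^ (1 : ℝ) := Real.rpow_le_rpow_of_exponent_le hE1 hs1.le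
      _ = E := Real.rpow_one _
  have eX : Real.exp (-(3 / 4 * (β * μ * m))) ^ (1 - s) =
      Real.exp (-(3 / 4 * (β * μ * m)) * (1 - s)) := by
    rw [← Real.exp_mul]
  have eF : E * Real.exp (-(3 / 4 * (β * μ * m)) * (1 - s)) =
      Real.exp (η * β) * Real.exp (-((1 - s) * β * μ / 4) * (2 * m)) := by
    rw [hE, ← Real.exp_add, ← Real.exp_add]
    congr 1
    rw [hη]
    ring
  rw [eA, eB, eX]
  have hc1 : 0 ≤ (2 * K * CL) ^ s := by positivity
  have hc2 : 0 ≤ (36 * K * (b : ℝ) ^ 4) ^ (1 - s) := by positivity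
  calc (2 * K * CL) ^ s * V ^ s * E ^ s * ((36 * K * (b : ℝ) ^ 4) ^ (1 - s) * V ^ (1 - s) *
        Real.exp (-(3 / 4 * (β * μ * m)) * (1 - s)))
      = ((2 * K * CL) ^ s * (36 * K * (b : ℝ) ^ 4) ^ (1 - s) * (V ^ s * V ^ (1 - s)) *
        Real.exp (-(3 / 4 * (β * μ * m)) * (1 - s))) * E ^ s := by ring
    _ ≤ ((2 * K * CL) ^ s * (36 * K * (b : ℝ) ^ 4) ^ (1 - s) * (V ^ s * V ^ (1 - s)) *
        Real.exp (-(3 / 4 * (β * μ * m)) * (1 - s))) * E := by
        refine mul_le_mul_of_nonneg_left eE ?_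
        rw [eV]
        positivity
    _ = (2 * K * CL) ^ s * (36 * K * (b : ℝ) ^ 4) ^ (1 - s) * V *
        (E * Real.exp (-(3 / 4 * (β * μ * m)) * (1 - s))) := by rw [eV]; ring
    _ = _ := by rw [eF]; ring

end Pool.Agent.PalW
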