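import Pool.Agent.PalW.Base

/-!
# Positive definite majorants of the products
-/

namespace Pool.Agent.PalW

open Finset Pool.Agent.Pal Pool.Agent.PalM

lemma PhiG_nonneg {ψ : ℝ → ℝ} {b : ℕ} {κ : ℝ} (hψ : Site b ψ κ) (L : ℕ) (w v : ℝ) :
    0 ≤ PhiG ψ b L w v :=
  Finset.prod_nonneg fun _ _ => hψ.nonneg _

/-- A convex combination with the constant `1` majorises a smaller power. -/
lemma HasMajG.perturb {ψ : ℝ → ℝ} {b L : ℕ} {κ z : ℝ} (hψ : Site b ψ κ) (h : HasMajG ψ b L 1 z)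
    {δ : ℝ} (hδ : 0 ≤ δ) (hδ1 : δ ≤ 1) (hb : 2 ≤ b) :
    HasMajG ψ b L (1 - δ) ((1 - δ) * z + δ) := by
  obtain ⟨ι, hι, c, h1, h2, G, hc, hh1, hh2, hG, hs, hz, hmaj⟩ := h
  have hbL : (0 : ℤ) < (b : ℤ) ^ L := by
    have : (0 : ℤ) < b := by omega
    positivity
  refine ⟨Option ι, inferInstance, fun o => o.elim δ (fun i => (1 - δ) * c i),
    fun o => o.elim 0 h1, fun o => o.elim 0 h2, fun w v => (1 - δ) * G w v + δ,
    ?_, ?_, ?_, ?_, ?_, ?_, ?_⟩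
  · intro i
    cases i with
    | none => exact hδ
    | some i => exact mul_nonneg (by linarith) (hc i)
  · intro i
    cases i with
    | none => simpa using hbL
    | some i => exact hh1 i
  · intro i
    cases i with
    | none => simpa using hbL
    | some i => exact hh2 i
  · intro w v
    rw [Fintype.sum_option]
    simp only [Option.elim]
    push_cast
    rw [hG, Finset.mul_sum]
    rw [zero_mul, zero_mul, add_zero, ex_zero, mul_one, add_comm]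
    congr 1
    refine Finset.sum_congr rfl fun i _ => ?_
    ring
  · rw [Fintype.sum_option]
    simp only [Option.elim]
    rw [← Finset.mul_sum, hs]
    ring
  · rw [Finset.sum_filter, Fintype.sum_option]
    have key : ∑ i, (if h1 i = 0 ∧ h2 i = 0 then (1 - δ) * c i else 0) =
        (1 - δ) * ∑ i with h1 i = 0 ∧ h2 i = 0, c i := by
      rw [Finset.mul_sum, Finset.sum_filter]
    have : (1 - δ) * ∑ i with h1 i = 0 ∧ h2 i = 0, c i ≤ (1 - δ) * z :=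
      mul_le_mul_of_nonneg_left hz (by linarith)
    show (if (0 : ℤ) = 0 ∧ (0 : ℤ) = 0 then δ else 0) +
      ∑ i, (if h1 i = 0 ∧ h2 i = 0 then (1 - δ) * c i else 0) ≤ (1 - δ) * z + δ
    rw [if_pos ⟨rfl, rfl⟩, key]
    linarith
  · intro w v
    have e1 := hmaj w v
    rw [Real.rpow_one] at e1
    have p0 := PhiG_nonneg hψ L w v
    have e2 : PhiG ψ b L w v ^ (1 - δ) ≤ (1 - δ) * PhiG ψ b L w v + δ * 1 := by
      have := Real.geom_mean_le_arith_mean2_weighted (w₁ := 1 - δ) (w₂ := δ) (p₁ := PhiG ψ b L w v)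
        (p₂ := 1) (by linarith) hδ p0 zero_le_one (by ring)
      rwa [Real.one_rpow, mul_one] at this
    have e3 : (1 - δ) * PhiG ψ b L w v ≤ (1 - δ) * G w v := mul_le_mul_of_nonneg_left e1 (by linarith)
    show _ ≤ (1 - δ) * G w v + δ
    linarith

lemma HasMajG.nonneg {ψ : ℝ → ℝ} {b L : ℕ} {γ z : ℝ} (h : HasMajG ψ b L γ z) : 0 ≤ z := by
  obtain ⟨ι, hι, c, h1, h2, G, hc, hh1, hh2, hG, hs, hz, hmaj⟩ := h
  exact (Finset.sum_nonneg fun i _ => hc i).trans hz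

/-- The block decomposition of the product over the outer sites. -/
lemma Bk_eq_prod (ψ : ℝ → ℝ) (b ℓ L : ℕ) (α : ℝ) : ∀ n : ℕ, 2 * (n * L) ≤ ℓ + 1 →
    Bk ψ b ℓ 0 (n * L) α = ∏ j ∈ range n,
      PhiG ψ b L ((b : ℝ) ^ (j * L) * α) ((b : ℝ) ^ (ℓ + 1 - (j + 1) * L) * α) := by
  intro n
  induction n with
  | zero => intro _; simp [Bk]
  | succ n ih =>
    intro h
    have h0 : 2 * (n * L) ≤ ℓ + 1 := by
      have : n * L ≤ (n + 1) * L := Nat.mul_le_mul_right _ (by omega)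
      omega
    rw [Finset.prod_range_succ, ← ih h0]
    have e1 : (n + 1) * L = n * L + L := by ring
    rw [← Bk_mul ψ b ℓ (Nat.zero_le (n * L)) (by omega : n * L ≤ (n + 1) * L)]
    congr 1
    unfold Bk PhiG
    rw [e1, Finset.prod_Ico_eq_prod_range, Nat.add_sub_cancel_left]
    refine Finset.prod_congr rfl fun r hr => ?_
    rw [mem_range] at hr
    congr 1
    unfold wt
    have e2 : ℓ - (n * L + r) = (L - 1 - r) + (ℓ + 1 - (n * L + L)) := by omega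
    rw [e2]
    push_cast
    rw [pow_add, pow_add]
    ring

/-- The majorant of the outer product. -/
lemma majG_core {ψ : ℝ → ℝ} {b L : ℕ} (hb : 2 ≤ b) {κ₀ γ z : ℝ} (hψ : Site b ψ κ₀)
    (h : HasMajG ψ b L γ z) {κ : Type}
    {ℓ n : ℕ} (hn : 2 * (n * L) ≤ ℓ + 1) :
    ∃ F : ℝ → ℝ, (∀ α, 0 ≤ F α) ∧ (∀ α, (Bk ψ b ℓ 0 (n * L) α) ^ γ ≤ F α) ∧
      ∀ (Q : Finset κ) (q : κ → ℕ), (∀ k ∈ Q, 0 < q k) → ∀ V U : ℝ, 0 ≤ U →
        ∑ k ∈ Q, (q k : ℝ) ≤ V →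
        (∀ N : ℤ, N ≠ 0 → |N| ≤ (b : ℤ) ^ (ℓ + 1) →
          ∑ k ∈ Q, (if (q k : ℤ) ∣ N then (q k : ℝ) else 0) ≤ U) →
        ∑ k ∈ Q, ∑ a ∈ range (q k), F ((a : ℝ) / q k) ≤ V * z ^ n + U := by
  obtain ⟨ι, hι, c, h1, h2, G, hc, hh1, hh2, hG, hs, hz, hmaj⟩ := h
  set g : Fin n → ℝ → ℝ := fun j α =>
    G ((b : ℝ) ^ ((j : ℕ) * L) * α) ((b : ℝ) ^ (ℓ + 1 - ((j : ℕ) + 1) * L) * α) with hg
  have hG0 : ∀ w v, 0 ≤ G w v := fun w v =>
    (Real.rpow_nonneg (PhiG_nonneg hψ L w v) γ).trans (hmaj w v)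
  refine ⟨fun α => ∏ j, g j α, fun α => Finset.prod_nonneg fun j _ => hG0 _ _, ?_, ?_⟩
  · intro α
    rw [Bk_eq_prod ψ b ℓ L α n hn, ← Real.finsetProd_rpow _ _ fun j _ => PhiG_nonneg hψ _ _ _]
    rw [← Fin.prod_univ_eq_prod_range (fun j => PhiG ψ b L ((b : ℝ) ^ (j * L) * α)
      ((b : ℝ) ^ (ℓ + 1 - (j + 1) * L) * α) ^ γ) n]
    exact Finset.prod_le_prod (fun j _ => Real.rpow_nonneg (PhiG_nonneg hψ _ _ _) _)
      fun j _ => hmaj _ _
  · intro Q q hq V U hU0 hV hU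
    refine sum_prod_le n c hc hs (fun i => h1 i = 0 ∧ h2 i = 0) hz
      (fun j i => h1 i * (b : ℤ) ^ ((j : ℕ) * L) + h2 i * (b : ℤ) ^ (ℓ + 1 - ((j : ℕ) + 1) * L)) g
      ?_ Q q hq hU0 ?_ hV ?_
    · intro j α
      simp only [hg]
      rw [hG]
      refine Finset.sum_congr rfl fun i _ => ?_
      congr 2
      push_cast
      ring
    · intro p h0
      exact freq_uniq hb hn (fun j => h1 (p j)) (fun j => h2 (p j)) (fun j => hh1 _)
        (fun j => hh2 _) h0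
    · intro p h0
      exact hU _ h0 (freq_le hb hn (fun j => h1 (p j)) (fun j => h2 (p j)) (fun j => hh1 _)
        (fun j => hh2 _))

open Classical in
/-- The majorant summed over the fractions of `J`. -/
theorem majG_J {ψ : ℝ → ℝ} {b L : ℕ} (hb : 2 ≤ b) {κ γ z : ℝ} (hψ : Site b ψ κ)
    (h : HasMajG ψ b L γ z) {η C : ℝ} (hη : 0 < η)
    (hC : 1 ≤ C) (hdiv : ∀ n : ℕ, 1 ≤ n → (n.divisors.card : ℝ) ≤ C * (n : ℝ) ^ η)
    {ℓ n D : ℕ} (hn : 2 * (n * L) ≤ ℓ + 1) (hD : 1 ≤ D) :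
    ∃ F : ℝ → ℝ, (∀ α, 0 ≤ F α) ∧ (∀ α, (Bk ψ b ℓ 0 (n * L) α) ^ γ ≤ F α) ∧
      ∑ x ∈ J b D, F (pt b x) ≤ 2 * BB b * ((D : ℝ) ^ 2 * z ^ n +
        D * (C * ((b : ℝ) ^ (ℓ + 1)) ^ η)) := by
  obtain ⟨F, hF0, hF1, hF2⟩ := majG_core hb hψ h (κ := ℕ) hn
  refine ⟨F, hF0, hF1, ?_⟩
  have hBp := BB_pos hb
  have hB3 := sq_sub_one_pos hb
  set B : ℕ := b ^ 2 - 1 with hB
  have hBB : BB b = (B : ℝ) := rfl
  have h1 : ∑ x ∈ J b D, F (pt b x) ≤
      ∑ d ∈ Ico D (2 * D), ∑ a ∈ range (B * d), F ((a : ℝ) / ((B * d : ℕ) : ℝ)) := by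
    rw [Finset.sum_sigma']
    have h2 : ∑ x ∈ J b D, F (pt b x) =
        ∑ y ∈ (J b D).image (fun x => (⟨x.1, x.2⟩ : Σ _ : ℕ, ℕ)),
          F ((y.2 : ℝ) / ((B * y.1 : ℕ) : ℝ)) := by
      rw [sum_image]
      · rfl
      · intro x _ y _ hxy
        simp only [Sigma.mk.injEq, heq_eq_eq] at hxy
        exact Prod.ext hxy.1 hxy.2
    rw [h2]
    refine sum_le_sum_of_subset_of_nonneg ?_ fun y _ _ => hF0 _
    intro y hy
    obtain ⟨x, hx, rfl⟩ := mem_image.mp hy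
    rw [mem_J] at hx
    rw [mem_sigma, mem_Ico, mem_range]
    exact ⟨⟨hx.1, hx.2.1⟩, hx.2.2.2.1⟩
  refine h1.trans ?_
  have hX : 0 ≤ C * ((b : ℝ) ^ (ℓ + 1)) ^ η := by positivity
  have hDD : 2 * D - D = D := by omega
  have h3 := hF2 (Ico D (2 * D)) (fun d => B * d) (by
      intro d hd
      rw [mem_Ico] at hd
      exact Nat.mul_pos (by omega) (by omega)) (2 * BB b * (D : ℝ) ^ 2)
      (2 * BB b * (D * (C * ((b : ℝ) ^ (ℓ + 1)) ^ η))) (by positivity)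
    (by
      have e1 : ∀ d ∈ Ico D (2 * D), (((B * d : ℕ)) : ℝ) ≤ 2 * BB b * D := by
        intro d hd
        rw [mem_Ico] at hd
        have : (d : ℝ) ≤ 2 * D := by exact_mod_cast hd.2.le
        rw [hBB]
        push_cast
        nlinarith
      refine (Finset.sum_le_sum e1).trans ?_
      rw [sum_const, Nat.card_Ico, hDD, nsmul_eq_mul]
      exact le_of_eq (by ring))
    (by
      intro N hN0 hN
      have e1 : ∀ d ∈ Ico D (2 * D), (if ((B * d : ℕ) : ℤ) ∣ N then ((B * d : ℕ) : ℝ) else 0) ≤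
          2 * BB b * D * (if (d : ℤ) ∣ N then (1 : ℝ) else 0) := by
        intro d hd
        rw [mem_Ico] at hd
        have hd2 : (d : ℝ) ≤ 2 * D := by exact_mod_cast hd.2.le
        by_cases hdvd : ((B * d : ℕ) : ℤ) ∣ N
        · have : (d : ℤ) ∣ N := (Int.natCast_dvd_natCast.mpr (Dvd.intro_left _ rfl)).trans hdvd
          rw [if_pos hdvd, if_pos this, hBB]
          push_cast
          nlinarith
        · rw [if_neg hdvd]
          split_ifs <;> positivity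
      refine (Finset.sum_le_sum e1).trans ?_
      rw [← Finset.mul_sum, ← Finset.sum_filter, sum_const, nsmul_eq_mul, mul_one]
      have e2 := card_dvd_le hη hC hdiv hN0 (X := b ^ (ℓ + 1)) (by push_cast; exact hN)
        (Ico D (2 * D))
      push_cast at e2
      calc 2 * BB b * D * (((Ico D (2 * D)).filter (fun d : ℕ => (d : ℤ) ∣ N)).card : ℝ)
          ≤ 2 * BB b * D * (C * ((b : ℝ) ^ (ℓ + 1)) ^ η) :=
            mul_le_mul_of_nonneg_left e2 (by positivity)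
        _ = _ := by ring)
  refine h3.trans (le_of_eq ?_)
  ring

open Classical in
/-- The majorant summed over the fractions of `JS`. -/
theorem majG_JS {ψ : ℝ → ℝ} {b L : ℕ} (hb : 2 ≤ b) {κ γ z : ℝ} (hψ : Site b ψ κ)
    (h : HasMajG ψ b L γ z) {η C : ℝ} (hη : 0 < η)
    (hC : 1 ≤ C) (hdiv : ∀ n : ℕ, 1 ≤ n → (n.divisors.card : ℝ) ≤ C * (n : ℝ) ^ η)
    {ℓ n P : ℕ} (hn : 2 * (n * L) ≤ ℓ + 1) (hP : 1 ≤ P) :
    ∃ F : ℝ → ℝ, (∀ α, 0 ≤ F α) ∧ (∀ α, (Bk ψ b ℓ 0 (n * L) α) ^ γ ≤ F α) ∧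
      ∑ x ∈ JS b P, F (pt b x) ≤ 4 * BB b * ((P : ℝ) ^ 3 * z ^ n +
        (P : ℝ) ^ 2 * (C * ((b : ℝ) ^ (ℓ + 1)) ^ η)) := by
  obtain ⟨F, hF0, hF1, hF2⟩ := majG_core hb hψ h (κ := ℕ) hn
  refine ⟨F, hF0, hF1, ?_⟩
  have hBp := BB_pos hb
  have hB3 := sq_sub_one_pos hb
  set B : ℕ := b ^ 2 - 1 with hB
  have hBB : BB b = (B : ℝ) := rfl
  have h1 : ∑ x ∈ JS b P, F (pt b x) ≤
      ∑ p ∈ Ico P (2 * P), ∑ c ∈ range (B * p ^ 2), F ((c : ℝ) / ((B * p ^ 2 : ℕ) : ℝ)) := by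
    rw [Finset.sum_sigma']
    have hsub : JS b P ⊆ ((Ico P (2 * P)).sigma (fun p => range (B * p ^ 2))).image
        (fun y : (Σ _ : ℕ, ℕ) => (y.1 ^ 2, y.2)) := by
      intro x hx
      obtain ⟨p, q1, q2, q3, q4, q5, q6⟩ := mem_JS.mp hx
      rw [mem_image]
      refine ⟨⟨p, x.2⟩, ?_, ?_⟩
      · rw [mem_sigma, mem_Ico, mem_range]
        exact ⟨⟨q1, q2⟩, q5⟩
      · simp only
        rw [← q4]
    refine (sum_le_sum_of_subset_of_nonneg hsub fun _ _ _ => hF0 _).trans (le_of_eq ?_)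
    rw [sum_image]
    · rfl
    · intro x _ y _ hxy
      simp only [Prod.mk.injEq] at hxy
      have h1 : x.1 = y.1 := by
        exact Nat.pow_left_injective (by norm_num : (2:ℕ) ≠ 0) hxy.1
      obtain ⟨x1, x2⟩ := x
      obtain ⟨y1, y2⟩ := y
      simp only at h1 hxy
      rw [h1, hxy.2]
  refine h1.trans ?_
  have hX : 0 ≤ C * ((b : ℝ) ^ (ℓ + 1)) ^ η := by positivity
  have hDD : 2 * P - P = P := by omega
  have hsq : ∀ p ∈ Ico P (2 * P), ((p : ℝ)) ^ 2 ≤ 4 * (P : ℝ) ^ 2 := by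
    intro p hp
    rw [mem_Ico] at hp
    have h81 : (p : ℝ) ≤ 2 * P := by exact_mod_cast hp.2.le
    have h82 : (p : ℝ) ^ 2 ≤ (2 * P) ^ 2 := pow_le_pow_left₀ (Nat.cast_nonneg _) h81 2
    linarith
  have h3 := hF2 (Ico P (2 * P)) (fun p => B * p ^ 2) (by
      intro p hp
      rw [mem_Ico] at hp
      exact Nat.mul_pos (by omega) (pow_pos (by omega) 2)) (4 * BB b * (P : ℝ) ^ 3)
      (4 * BB b * ((P : ℝ) ^ 2 * (C * ((b : ℝ) ^ (ℓ + 1)) ^ η))) (by positivity)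
    (by
      have e1 : ∀ p ∈ Ico P (2 * P), (((B * p ^ 2 : ℕ)) : ℝ) ≤ 4 * BB b * (P : ℝ) ^ 2 := by
        intro p hp
        have := hsq p hp
        rw [hBB]
        push_cast
        have hB0 : (0 : ℝ) ≤ B := Nat.cast_nonneg _
        nlinarith
      refine (Finset.sum_le_sum e1).trans ?_
      rw [sum_const, Nat.card_Ico, hDD, nsmul_eq_mul]
      exact le_of_eq (by ring))
    (by
      intro N hN0 hN
      have e1 : ∀ p ∈ Ico P (2 * P),
          (if ((B * p ^ 2 : ℕ) : ℤ) ∣ N then ((B * p ^ 2 : ℕ) : ℝ) else 0) ≤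
          4 * BB b * (P : ℝ) ^ 2 * (if (p : ℤ) ∣ N then (1 : ℝ) else 0) := by
        intro p hp
        have hp2 := hsq p hp
        by_cases hdvd : ((B * p ^ 2 : ℕ) : ℤ) ∣ N
        · have : (p : ℤ) ∣ N :=
            (Int.natCast_dvd_natCast.mpr (Dvd.dvd.mul_left (dvd_pow_self p two_ne_zero) B)).trans hdvd
          rw [if_pos hdvd, if_pos this, hBB]
          push_cast
          have hB0 : (0 : ℝ) ≤ B := Nat.cast_nonneg _
          nlinarith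
        · rw [if_neg hdvd]
          split_ifs <;> positivity
      refine (Finset.sum_le_sum e1).trans ?_
      rw [← Finset.mul_sum, ← Finset.sum_filter, sum_const, nsmul_eq_mul, mul_one]
      have e2 := card_dvd_le hη hC hdiv hN0 (X := b ^ (ℓ + 1)) (by push_cast; exact hN)
        (Ico P (2 * P))
      push_cast at e2
      calc 4 * BB b * (P : ℝ) ^ 2 * (((Ico P (2 * P)).filter (fun d : ℕ => (d : ℤ) ∣ N)).card : ℝ)
          ≤ 4 * BB b * (P : ℝ) ^ 2 * (C * ((b : ℝ) ^ (ℓ + 1)) ^ η) :=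
            mul_le_mul_of_nonneg_left e2 (by positivity)
        _ = _ := by ring)
  refine h3.trans (le_of_eq ?_)
  ring

end Pool.Agent.PalW
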