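import Pool.Agent.PalW.Small
import Pool.Agent.PalW.MajG
import Pool.Agent.PalW.Large

/-!
# First moments from a majorant, for a general site function
-/

namespace Pool.Agent.PalW

open Finset Pool.Agent.Pal Pool.Agent.PalM

/-- The choice of the auxiliary level. -/
lemma exists_paramsG {ψ : ℝ → ℝ} {b L : ℕ} (hb : 2 ≤ b) {κ z θ : ℝ} (hψ : Site b ψ κ)
    (h : HasMajG ψ b L 1 z) (hθ1 : θ < 1 / 2) (hz : z < (b : ℝ) ^ (-(2 * θ * L))) :
    ∃ (γ z' : ℝ), 0 ≤ γ ∧ γ < 1 ∧ HasMajG ψ b L γ z' ∧ z' ≤ (b : ℝ) ^ (-(2 * θ * L)) := by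
  have hz0 := h.nonneg
  set f : ℝ := (b : ℝ) ^ (-(2 * θ * L)) with hf
  set δ : ℝ := min (f - z) (1 / 2) with hδ
  have hδ0 : 0 < δ := by
    have : 0 < f - z := by linarith
    positivity
  have hδ1 : δ ≤ 1 / 2 := min_le_right _ _
  have hδ2 : δ ≤ f - z := min_le_left _ _
  refine ⟨1 - δ, (1 - δ) * z + δ, by linarith, by linarith,
    h.perturb hψ hδ0.le (by linarith) hb, ?_⟩
  nlinarith

lemma Fam.mono {b : ℕ} {I : Finset (ℕ × ℕ)} {R F F' : ℝ} (h : Fam b I R F) (hF : F ≤ F') :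
    Fam b I R F' where
  lt_one := h.lt_one
  perm := h.perm
  count M K U c hR := (h.count M K U c hR).trans hF

/-- **First moments from a majorant.** -/
theorem hasF_of_majG {ψ : ℝ → ℝ} {b L : ℕ} (hb : 2 ≤ b) (hL : 1 ≤ L) {κ z θ : ℝ}
    (hψ : Site b ψ κ) (h : HasMajG ψ b L 1 z) (hθ0 : 0 ≤ θ) (hθ1 : θ < 1 / 2)
    (hz : z < (b : ℝ) ^ (-(2 * θ * L))) :
    HasF b θ (fun m α => Bk ψ b (2 * m) 0 m α) := by
  classical
  have hlb := log_pos_b hb
  have hBp := BB_pos hb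
  obtain ⟨γ, z', hγ0, hγ1, h', hz'⟩ := exists_paramsG hb hψ h hθ1 hz
  have hz0 := h'.nonneg
  obtain ⟨c0, σ1, δ1, C1, hc0, hσ1, hδ1, hC1, g1⟩ := small_all hb hψ.kpos hψ.klt
  obtain ⟨η, hη, hlarge⟩ := large_abs hb hψ hL hγ0 hγ1 hz0 hθ0 hθ1 hz' hc0
  obtain ⟨Cd, hCd, hdiv⟩ := card_divisors_le_rpow hη
  have hK0 : 0 < 4 * BB b * Cd := by positivity
  obtain ⟨σ2, C2, m0, hσ2, hC2, g2⟩ := hlarge (4 * BB b * Cd) hK0
  set σ := min σ1 (σ2 / 2) with hσ
  set δ := min δ1 (σ2 / Real.log b) with hδ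
  have hσ0 : 0 < σ := by positivity
  have hδ0 : 0 < δ := by positivity
  set C6 : ℝ := 2 * ((b ^ 2 - 1 : ℕ) : ℝ) * Real.exp (Real.log b * m0) *
    Real.exp (σ * (2 * m0) + δ * (Real.log b * m0)) with hC6
  have hC60 : 0 ≤ C6 := by positivity
  refine ⟨σ, δ, C1 + C2 + C6, hσ0, hδ0, by positivity, ?_⟩
  intro m D hD hDL
  simp only
  have hDr : (2 : ℝ) ≤ D := by exact_mod_cast hD
  have hD0 : (0 : ℝ) < D := by linarith
  have hlogD : 0 < Real.log D := Real.log_pos (by linarith)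
  have hsq : Real.sqrt (2 * (m : ℝ)) ≤ 2 * m := by
    have := sqrt_nat_le (2 * m)
    push_cast at this
    exact this
  have hsq0 : 0 ≤ Real.sqrt (2 * (m : ℝ)) := Real.sqrt_nonneg _
  have hDL' : Real.log D ≤ Real.log b * m := by
    refine hDL.trans ?_
    have : 0 ≤ Real.log b * (m : ℝ) := by positivity
    nlinarith
  set E := Real.exp (-σ * Real.sqrt (2 * m) - δ * Real.log D) with hE
  have hE0 : 0 < E := Real.exp_pos _
  have hDE : 0 < D * E := by positivity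
  rcases le_or_gt (Real.log D) (c0 * Real.log b * (2 * m)) with a1 | a1
  · -- small moduli
    have e1 : ∑ x ∈ J b D, Bk ψ b (2 * m) 0 m (pt b x) ≤
        C1 * D * Real.exp (-σ1 * Real.sqrt (2 * m) - δ1 * Real.log D) :=
      (Finset.sum_le_sum fun x _ => Bk_le_pow_bad hψ (2 * m) 0 m (pt b x)).trans (g1 m D hD a1)
    have e2 : Real.exp (-σ1 * Real.sqrt (2 * m) - δ1 * Real.log D) ≤ E := by
      rw [hE, Real.exp_le_exp]
      have h1 : σ * Real.sqrt (2 * m) ≤ σ1 * Real.sqrt (2 * m) :=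
        mul_le_mul_of_nonneg_right (min_le_left _ _) hsq0
      have h2 : δ * Real.log D ≤ δ1 * Real.log D :=
        mul_le_mul_of_nonneg_right (min_le_left _ _) hlogD.le
      linarith
    calc ∑ x ∈ J b D, Bk ψ b (2 * m) 0 m (pt b x)
        ≤ C1 * D * Real.exp (-σ1 * Real.sqrt (2 * m) - δ1 * Real.log D) := e1
      _ ≤ C1 * D * E := mul_le_mul_of_nonneg_left e2 (by positivity)
      _ = C1 * (D * E) := by ring
      _ ≤ (C1 + C2 + C6) * (D * E) := mul_le_mul_of_nonneg_right (by linarith) hDE.le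
      _ = _ := by ring
  · rcases Nat.lt_or_ge m m0 with a2 | a2
    · -- bounded length
      have hmr : (m : ℝ) ≤ m0 := by exact_mod_cast a2.le
      have e1 : ∑ x ∈ J b D, Bk ψ b (2 * m) 0 m (pt b x) ≤
          2 * ((b ^ 2 - 1 : ℕ) : ℝ) * (D : ℝ) ^ 2 := by
        refine le_trans ?_ card_J_le
        refine (Finset.sum_le_sum fun x _ => Bk_le_one hψ (2 * m) 0 m (pt b x)).trans ?_
        simp
      have hDb : (D : ℝ) ≤ Real.exp (Real.log b * m0) := by
        rw [← Real.exp_log hD0, Real.exp_le_exp]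
        exact hDL'.trans (mul_le_mul_of_nonneg_left hmr hlb.le)
      have e3 : 1 ≤ Real.exp (σ * (2 * m0) + δ * (Real.log b * m0)) * E := by
        rw [hE, ← Real.exp_add]
        refine Real.one_le_exp ?_
        have h1 : σ * Real.sqrt (2 * m) ≤ σ * (2 * m0) :=
          mul_le_mul_of_nonneg_left (hsq.trans (by linarith)) hσ0.le
        have h2 : δ * Real.log D ≤ δ * (Real.log b * m0) :=
          mul_le_mul_of_nonneg_left (hDL'.trans (mul_le_mul_of_nonneg_left hmr hlb.le)) hδ0.le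
        linarith
      have e4 : (0 : ℝ) ≤ 2 * ((b ^ 2 - 1 : ℕ) : ℝ) := by positivity
      calc ∑ x ∈ J b D, Bk ψ b (2 * m) 0 m (pt b x)
          ≤ 2 * ((b ^ 2 - 1 : ℕ) : ℝ) * (D : ℝ) ^ 2 := e1
        _ = 2 * ((b ^ 2 - 1 : ℕ) : ℝ) * D * D := by ring
        _ ≤ 2 * ((b ^ 2 - 1 : ℕ) : ℝ) * Real.exp (Real.log b * m0) * D := by
            refine mul_le_mul_of_nonneg_right ?_ hD0.le
            exact mul_le_mul_of_nonneg_left hDb e4
        _ = 2 * ((b ^ 2 - 1 : ℕ) : ℝ) * Real.exp (Real.log b * m0) * D * 1 := by ring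
        _ ≤ 2 * ((b ^ 2 - 1 : ℕ) : ℝ) * Real.exp (Real.log b * m0) * D *
            (Real.exp (σ * (2 * m0) + δ * (Real.log b * m0)) * E) :=
            mul_le_mul_of_nonneg_left e3 (by positivity)
        _ = C6 * (D * E) := by rw [hC6]; ring
        _ ≤ (C1 + C2 + C6) * (D * E) := mul_le_mul_of_nonneg_right (by linarith) hDE.le
        _ = _ := by ring
    · -- large moduli
      have hnL : m / L * L ≤ m := Nat.div_mul_le_self _ _
      obtain ⟨F, hF0, hF1, hF2⟩ := majG_J hb hψ h' hη hCd hdiv (ℓ := 2 * m) (n := m / L) (D := D)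
        (by omega) (by omega)
      have hX : 0 < ((b : ℝ) ^ (2 * m + 1)) ^ η := by
        have : (0 : ℝ) < b := by
          have : 0 < b := by omega
          exact_mod_cast this
        positivity
      have e1 : 0 ≤ (D : ℝ) * z' ^ (m / L) := by positivity
      have hS1 : ∑ x ∈ J b D, F (pt b x) ≤ (4 * BB b * Cd) * D *
          ((D : ℝ) * z' ^ (m / L) + ((b : ℝ) ^ (2 * m + 1)) ^ η) := by
        refine hF2.trans ?_
        calc 2 * BB b * ((D : ℝ) ^ 2 * z' ^ (m / L) + D * (Cd * ((b : ℝ) ^ (2 * m + 1)) ^ η))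
            = 2 * BB b * D * (D * z' ^ (m / L) + Cd * ((b : ℝ) ^ (2 * m + 1)) ^ η) := by ring
          _ ≤ 2 * BB b * D *
              (Cd * (D * z' ^ (m / L)) + Cd * ((b : ℝ) ^ (2 * m + 1)) ^ η) := by
              refine mul_le_mul_of_nonneg_left ?_ (by positivity)
              nlinarith
          _ = (2 * BB b * Cd * D) * (D * z' ^ (m / L) + ((b : ℝ) ^ (2 * m + 1)) ^ η) := by ring
          _ ≤ _ := by
              refine mul_le_mul_of_nonneg_right ?_ (by positivity)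
              have : 0 ≤ BB b * Cd * (D : ℝ) := by positivity
              linarith
      have hfam : Fam b (J b D) ((D : ℝ) ^ 2) (4 * BB b * Cd * D / D) := by
        refine Fam.mono (fam_J hb D) ?_
        rw [mul_div_assoc, div_self hD0.ne', mul_one]
        have : 0 ≤ 4 * BB b := by positivity
        nlinarith
      have e2 := g2 m D (J b D) D F a2 hD hD0 hDL a1.le hF0 hF1 hS1 hfam
      have e3 : Real.exp (-σ2 * (2 * m)) ≤ E := by
        rw [hE, Real.exp_le_exp]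
        have h1 : σ * Real.sqrt (2 * m) ≤ σ2 / 2 * (2 * m) :=
          mul_le_mul (min_le_right _ _) hsq hsq0 (by positivity)
        have h2 : δ * Real.log D ≤ σ2 / Real.log b * (Real.log b * m) :=
          mul_le_mul (min_le_right _ _) hDL' hlogD.le (by positivity)
        have h3 : σ2 / Real.log b * (Real.log b * m) = σ2 * m := by field_simp
        linarith
      calc ∑ x ∈ J b D, Bk ψ b (2 * m) 0 m (pt b x) ≤ C2 * D * Real.exp (-σ2 * (2 * m)) := e2
        _ ≤ C2 * D * E := mul_le_mul_of_nonneg_left e3 (by positivity)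
        _ = C2 * (D * E) := by ring
        _ ≤ (C1 + C2 + C6) * (D * E) := mul_le_mul_of_nonneg_right (by linarith) hDE.le
        _ = _ := by ring

/-- **First moments from a majorant, square denominators.** -/
theorem hasFS_of_majG {ψ : ℝ → ℝ} {b L : ℕ} (hb : 2 ≤ b) (hL : 1 ≤ L) {κ z θ : ℝ}
    (hψ : Site b ψ κ) (h : HasMajG ψ b L 1 z) (hθ0 : 0 ≤ θ) (hθ1 : θ < 1 / 2)
    (hz : z < (b : ℝ) ^ (-(2 * θ * L))) :
    HasFS b θ (fun m α => Bk ψ b (2 * m) 0 m α) := by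
  intro c0 hc0
  have hlb := log_pos_b hb
  have hBp := BB_pos hb
  obtain ⟨γ, z', hγ0, hγ1, h', hz'⟩ := exists_paramsG hb hψ h hθ1 hz
  have hz0 := h'.nonneg
  obtain ⟨η, hη, hlarge⟩ := large_abs hb hψ hL hγ0 hγ1 hz0 hθ0 hθ1 hz' hc0
  obtain ⟨Cd, hCd, hdiv⟩ := card_divisors_le_rpow hη
  have hK0 : 0 < 4 * BB b * Cd := by positivity
  obtain ⟨σ2, C2, m0, hσ2, hC2, g2⟩ := hlarge (4 * BB b * Cd) hK0
  refine ⟨σ2, C2, m0, hσ2, hC2, ?_⟩
  intro m P hm hP hPL hPc
  simp only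
  have hPr : (2 : ℝ) ≤ P := by exact_mod_cast hP
  have hP0 : (0 : ℝ) < P := by linarith
  have hnL : m / L * L ≤ m := Nat.div_mul_le_self _ _
  obtain ⟨F, hF0, hF1, hF2⟩ := majG_JS hb hψ h' hη hCd hdiv (ℓ := 2 * m) (n := m / L) (P := P)
    (by omega) (by omega)
  have hX : 0 < ((b : ℝ) ^ (2 * m + 1)) ^ η := by
    have : (0 : ℝ) < b := by
      have : 0 < b := by omega
      exact_mod_cast this
    positivity
  have e1 : 0 ≤ (P : ℝ) * z' ^ (m / L) := by positivity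
  have hS1 : ∑ x ∈ JS b P, F (pt b x) ≤ (4 * BB b * Cd) * (P : ℝ) ^ 2 *
      ((P : ℝ) * z' ^ (m / L) + ((b : ℝ) ^ (2 * m + 1)) ^ η) := by
    refine hF2.trans ?_
    calc 4 * BB b * ((P : ℝ) ^ 3 * z' ^ (m / L) +
          (P : ℝ) ^ 2 * (Cd * ((b : ℝ) ^ (2 * m + 1)) ^ η))
        = 4 * BB b * (P : ℝ) ^ 2 * (P * z' ^ (m / L) + Cd * ((b : ℝ) ^ (2 * m + 1)) ^ η) := by
          ring
      _ ≤ 4 * BB b * (P : ℝ) ^ 2 *
          (Cd * (P * z' ^ (m / L)) + Cd * ((b : ℝ) ^ (2 * m + 1)) ^ η) := by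
          refine mul_le_mul_of_nonneg_left ?_ (by positivity)
          nlinarith
      _ = _ := by ring
  have hfam : Fam b (JS b P) ((P : ℝ) ^ 2) (4 * BB b * Cd * (P : ℝ) ^ 2 / P) := by
    refine Fam.mono (fam_JS hb P) ?_
    have e2 : 4 * BB b * Cd * (P : ℝ) ^ 2 / P = 4 * BB b * P * Cd := by
      field_simp
    rw [e2]
    have : 0 ≤ 4 * BB b * (P : ℝ) := by positivity
    nlinarith
  exact g2 m P (JS b P) ((P : ℝ) ^ 2) F hm hP (by positivity) hPL hPc hF0 hF1 hS1 hfam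

end Pool.Agent.PalW
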