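import Pool.Agent.PalW.Base

/-!
# High powers of the inner product
-/

namespace Pool.Agent.PalW

open Finset Pool.Agent.Pal

/-- Sum of a high power of the product over the inner sites `i0 ≤ i < m`. -/
lemma sum_Bk_pow {b : ℕ} (hb : 2 ≤ b) {ψ : ℝ → ℝ} {κ : ℝ} (hψ : Site b ψ κ)
    {I : Finset (ℕ × ℕ)} {R F : ℝ} (hI : Fam b I R F) {m a i0 : ℕ} (h0 : i0 < m) (ha : a ≤ m)
    (hR : R ≤ (b : ℝ) ^ ((m + 1 - a) + (m - i0 - 1))) (lam : ℕ) :
    ∑ x ∈ I, (Bk ψ b (2 * m) i0 m (pt b x)) ^ (3 * lam) ≤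
      36 * F * (b : ℝ) ^ (m + 1 - a) * (b * (1 + b * κ ^ lam) ^ (m - i0 - 1)) := by
  have hκ0 := hψ.kpos
  have hε : 0 ≤ κ ^ lam := by positivity
  set K := m - i0 - 1 with hK
  set M := m + 1 - a with hM
  set Φ : ℝ → ℝ := fun y => (κ ^ lam) ^ chg b K (pat b M K (BB b * y)) with hΦ
  have hper : ∀ (y : ℝ) (n : ℤ), Φ (y + n) = Φ y := by
    intro y n
    simp only [hΦ]
    have : BB b * (y + n) = BB b * y + (((b ^ 2 - 1 : ℕ) * n : ℤ) : ℝ) := by
      unfold BB; push_cast; ring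
    rw [this, pat_add_int]
  have hpt : ∀ x ∈ I, (Bk ψ b (2 * m) i0 m (pt b x)) ^ (3 * lam) ≤ Φ ((b : ℝ) ^ a * pt b x) := by
    intro x _
    simp only [hΦ]
    have e3 := Bk_pow_le_chg hψ hb h0 (by omega : 2 * m ≤ 2 * m + 1) lam (pt b x)
    have e4 := pat_shift b (2 * m - m + 1) a K (by omega) (BB b) (pt b x)
    have e5 : 2 * m - m + 1 - a = M := by omega
    rw [e5] at e4
    rw [← e4]
    exact e3
  refine (Finset.sum_le_sum hpt).trans ?_
  rw [hI.perm a Φ hper]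
  have h1 := hI.sum_blk_sq_pattern hb (M := M) (K := K) (ℓ := 0) (k := 0)
    (by omega) (by omega) hR hε
  have h2 : ∀ x : ℕ × ℕ, blk b 0 0 0 (pt b x) = 1 := by
    intro x
    simp [blk]
  simp only [h2, one_pow, one_mul, pow_zero, div_one] at h1
  exact h1

/-- The fractions of `J` form a family. -/
lemma fam_J {b : ℕ} (hb : 2 ≤ b) (D : ℕ) : Fam b (J b D) ((D : ℝ) ^ 2) (4 * BB b) where
  lt_one := fun x hx => pt_lt_one hx
  perm := fun a Φ hΦ => sum_J_mul a Φ hΦ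
  count := by
    intro M K U c hR
    have h3 := sq_sub_one_pos hb
    have := card_fiber_le (B := b ^ 2 - 1) (M := M) (K := K) (U := U) (c := c) (by omega : 0 < b)
      ((J b D).filter (fun x => pat b M K (BB b * pt b x) = U ∧ ⌊(b : ℝ) ^ M * pt b x⌋₊ = c)) (pt b)
      (fun x _ => pt_nonneg b x) (by omega)
      (Q := 4 * ((b ^ 2 - 1 : ℕ) : ℝ) * (D : ℝ) ^ 2)
      (fun x hx y hy hxy => pt_sep (mem_filter.mp hx).1 (mem_filter.mp hy).1 hxy)
      (mul_le_mul_of_nonneg_left hR (by positivity))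
      (fun x hx => (mem_filter.mp hx).2.1)
      (fun x hx => (mem_filter.mp hx).2.2)
    unfold BB
    exact_mod_cast this

end Pool.Agent.PalW
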