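import Pool.Agent.PalW.Bad

/-!
# The first moments for small moduli
-/

namespace Pool.Agent.PalW

open Finset Pool.Agent.Pal

open Classical in
/-- The first moment of the powers of `κ` with the number of bad indices. -/
noncomputable def kbS (b : ℕ) (κ : ℝ) (m D : ℕ) : ℝ :=
  ∑ x ∈ J b D, κ ^ ((Ico 0 m).filter (bad b (2 * m) (pt b x))).card

/-- The target bound. -/
def BdK (b : ℕ) (κ σ δ C : ℝ) (m D : ℕ) : Prop :=
  kbS b κ m D ≤ C * D * Real.exp (-σ * Real.sqrt (2 * m) - δ * Real.log D)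

lemma BdK.mono {b : ℕ} {κ σ σ' δ δ' C C' : ℝ} {m D : ℕ} (h : BdK b κ σ δ C m D) (hσ : σ' ≤ σ)
    (hδ : δ' ≤ δ) (hD : 1 ≤ D) (hC0 : 0 ≤ C) (hC : C ≤ C') : BdK b κ σ' δ' C' m D := by
  unfold BdK at *
  refine h.trans ?_
  have hlog : 0 ≤ Real.log D := Real.log_nonneg (by exact_mod_cast hD)
  have h1 : Real.exp (-σ * Real.sqrt (2 * m) - δ * Real.log D) ≤
      Real.exp (-σ' * Real.sqrt (2 * m) - δ' * Real.log D) := by
    rw [Real.exp_le_exp]
    have := Real.sqrt_nonneg (2 * m : ℝ)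
    nlinarith
  have hC' : 0 ≤ C' := hC0.trans hC
  gcongr

lemma BdK_of_exp {b : ℕ} {κ σ δ C : ℝ} (hC : 0 ≤ C) {m D : ℕ} {E : ℝ}
    (hT : kbS b κ m D ≤ C * D * Real.exp E)
    (hE : E ≤ -σ * Real.sqrt (2 * m) - δ * Real.log D) :
    BdK b κ σ δ C m D := by
  unfold BdK
  refine hT.trans ?_
  exact mul_le_mul_of_nonneg_left (Real.exp_le_exp.mpr hE) (by positivity)

lemma kbS_le_windows {b : ℕ} (hb : 2 ≤ b) {κ : ℝ} (h0 : 0 < κ) (h1 : κ < 1) {m s D : ℕ}
    (hD : 2 ≤ D) (hs : 2 * D ≤ b ^ (s + 1)) (N : ℕ) (hN : N * (s + 2) ≤ m) :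
    kbS b κ m D ≤ 2 * BB b * (D : ℝ) ^ 2 * κ ^ N := by
  classical
  unfold kbS
  calc _ ≤ ∑ x ∈ J b D, κ ^ N :=
        Finset.sum_le_sum fun x hx => pow_le_pow_of_le_one h0.le h1.le
          (card_bad_ge hb hD hx hs N hN)
    _ = ((J b D).card : ℝ) * κ ^ N := by rw [sum_const, nsmul_eq_mul]
    _ ≤ _ := mul_le_mul_of_nonneg_right card_J_le (pow_nonneg h0.le _)

lemma kbS_le_trivial {b : ℕ} {κ : ℝ} (h0 : 0 < κ) (h1 : κ < 1) (m D : ℕ) :
    kbS b κ m D ≤ 2 * BB b * (D : ℝ) ^ 2 := by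
  classical
  unfold kbS
  calc _ ≤ ∑ x ∈ J b D, (1 : ℝ) :=
        Finset.sum_le_sum fun x hx => pow_le_one₀ h0.le h1.le
    _ = ((J b D).card : ℝ) := by simp
    _ ≤ _ := card_J_le

/-- Very small moduli. -/
lemma caseK_small {b : ℕ} (hb : 2 ≤ b) {κ : ℝ} (hκ0 : 0 < κ) (hκ1 : κ < 1) :
    ∃ (σ δ C c : ℝ) (m0 : ℕ), 0 < σ ∧ 0 < δ ∧ 0 < C ∧ 0 < c ∧
    ∀ m D : ℕ, m0 ≤ m → 2 ≤ D → Real.log D ≤ c * Real.sqrt (2 * m) → BdK b κ σ δ C m D := by
  have hL := log_pos_b hb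
  have hBp := BB_pos hb
  have hb0 : (2 : ℝ) ≤ b := by exact_mod_cast hb
  have hbp : (0 : ℝ) < b := by linarith
  set u : ℝ := -Real.log κ with hu
  have hu0 : 0 < u := by rw [hu]; have := Real.log_neg hκ0 hκ1; linarith
  set L := Real.log b with hLdef
  -- `c` with `c^2 ≤ u L / 16`
  set c : ℝ := min 1 (u * L / 16) with hc
  have hc0 : 0 < c := by rw [hc]; positivity
  have hc1 : c ≤ 1 := min_le_left _ _
  have hc2 : c ≤ u * L / 16 := min_le_right _ _
  have hcc : c * c ≤ u * L / 16 := by nlinarith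
  obtain ⟨m0, hm0⟩ := exists_nat_ge ((5 * L / c) ^ 2)
  refine ⟨c, 1, (2 * BB b) * Real.exp u, c, m0, by positivity, one_pos, by positivity,
    hc0, ?_⟩
  intro m D hm hD hDc
  have hmr : (5 * L / c) ^ 2 ≤ (2 * m : ℝ) := by
    have h1 : (m0 : ℝ) ≤ m := by exact_mod_cast hm
    have h2 : (0 : ℝ) ≤ m := Nat.cast_nonneg _
    linarith
  have hsq : 5 * L / c ≤ Real.sqrt (2 * m) := by
    rw [Real.le_sqrt' (by positivity)]
    exact hmr
  set q : ℝ := Real.sqrt (2 * m) with hq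
  have hq0 : 0 < q := lt_of_lt_of_le (by positivity) hsq
  have hqq : q * q = 2 * m := Real.mul_self_sqrt (by positivity)
  have hcq : 5 * L ≤ c * q := by rwa [div_le_iff₀ hc0, mul_comm q c] at hsq
  have hDp : (0 : ℝ) < D := by
    have : 0 < D := by omega
    exact_mod_cast this
  -- `s + 1 = clog b (2 D)`
  have h2D : 2 ≤ 2 * D := by omega
  obtain ⟨k1, k2, k3, k4⟩ := clog_bounds hb h2D
  set k := Nat.clog b (2 * D) with hk
  have hk0 : 0 < k := Nat.clog_pos (by omega) (by omega)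
  obtain ⟨s, hs⟩ : ∃ s, k = s + 1 := ⟨k - 1, by omega⟩
  have hsD : 2 * D ≤ b ^ (s + 1) := by rw [← hs]; exact Nat.le_pow_clog (by omega) _
  -- upper bound for `s + 2`
  have hlog2D : Real.log ((2 * D : ℕ) : ℝ) ≤ L + Real.log D := by
    push_cast
    rw [Real.log_mul (by norm_num) hDp.ne']
    have : Real.log 2 ≤ L := Real.log_le_log (by norm_num) hb0
    linarith
  have hs2 : L * ((s : ℝ) + 2) ≤ 2 * (c * q) := by
    have h1 : (k : ℝ) = (s : ℝ) + 1 := by rw [hs]; push_cast; ring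
    rw [h1] at k4
    nlinarith
  set N := m / (s + 2) with hN
  have hNm : N * (s + 2) ≤ m := Nat.div_mul_le_self _ _
  have hNlow : (m : ℝ) < ((N : ℝ) + 1) * ((s : ℝ) + 2) := by
    have : m < (N + 1) * (s + 2) := by
      rw [hN]
      have := Nat.lt_div_mul_add (a := m) (b := s + 2) (by omega)
      nlinarith
    exact_mod_cast this
  -- `(1/4) L q ≤ c (N + 1)`
  have hNq : 1 / 4 * L * q ≤ c * ((N : ℝ) + 1) := by
    have h1 : L * (1 / 2 * (q * q)) ≤ ((N : ℝ) + 1) * (2 * (c * q)) := by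
      calc L * (1 / 2 * (q * q)) = L * m := by rw [hqq]; ring
        _ ≤ L * (((N : ℝ) + 1) * ((s : ℝ) + 2)) := mul_le_mul_of_nonneg_left hNlow.le hL.le
        _ = ((N : ℝ) + 1) * (L * ((s : ℝ) + 2)) := by ring
        _ ≤ _ := mul_le_mul_of_nonneg_left hs2 (by positivity)
    have h2 : q * (1 / 2 * L * q) ≤ q * (2 * (c * ((N : ℝ) + 1))) := by linarith
    have h3 := le_of_mul_le_mul_left h2 hq0
    linarith
  have h := kbS_le_windows hb hκ0 hκ1 (m := m) (s := s) (D := D) hD hsD N hNm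
  refine BdK_of_exp (by positivity) (E := Real.log D - u * ((N : ℝ) + 1)) ?_ ?_
  · have h1 : κ ^ N = Real.exp (-u * N) := by
      rw [hu, neg_neg, mul_comm, Real.exp_nat_mul, Real.exp_log hκ0]
    calc kbS b κ m D ≤ 2 * BB b * (D : ℝ) ^ 2 * κ ^ N := h
      _ = (2 * BB b) * D * (D * κ ^ N) := by ring
      _ = (2 * BB b) * D * (Real.exp (Real.log D) * Real.exp (-u * N)) := by
          rw [h1, Real.exp_log hDp]
      _ = (2 * BB b) * Real.exp u * D * Real.exp (Real.log D - u * ((N : ℝ) + 1)) := by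
          have e1 : Real.log D - u * ((N : ℝ) + 1) = Real.log D + (-u * N) + -u := by ring
          have e2 : Real.exp u * Real.exp (-u) = 1 := by rw [← Real.exp_add]; simp
          rw [e1, Real.exp_add, Real.exp_add]
          linear_combination (-(2 * BB b) * D * Real.exp (Real.log D) * Real.exp (-u * N)) * e2
  · -- `log D ≤ c q`, and `u (N+1) ≥ 4 c q`
    have h8 : 4 * (c * q) ≤ u * ((N : ℝ) + 1) := by
      have h9 : c * (4 * (c * q)) ≤ c * (u * ((N : ℝ) + 1)) := by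
        calc c * (4 * (c * q)) = 4 * (c * c) * q := by ring
          _ ≤ 4 * (u * L / 16) * q := by gcongr
          _ = u * (1 / 4 * L * q) := by ring
          _ ≤ u * (c * ((N : ℝ) + 1)) := mul_le_mul_of_nonneg_left hNq (by positivity)
          _ = c * (u * ((N : ℝ) + 1)) := by ring
      exact le_of_mul_le_mul_left h9 hc0
    have h10 : 0 ≤ c * q := by positivity
    linarith

/-- Moduli of intermediate size. -/
lemma caseK_mid {b : ℕ} (hb : 2 ≤ b) {κ : ℝ} (hκ0 : 0 < κ) (hκ1 : κ < 1) {c : ℝ} (hc : 0 < c) :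
    ∃ (σ δ C c0 : ℝ) (m0 : ℕ), 0 < σ ∧ 0 < δ ∧ 0 < C ∧ 0 < c0 ∧
    ∀ m D : ℕ, m0 ≤ m → 2 ≤ D → Real.log D ≤ c0 * Real.log b * (2 * m) →
      c * Real.sqrt (2 * m) ≤ Real.log D → BdK b κ σ δ C m D := by
  have hL := log_pos_b hb
  have hBp := BB_pos hb
  have hb0 : (2 : ℝ) ≤ b := by exact_mod_cast hb
  have hbp : (0 : ℝ) < b := by linarith
  obtain ⟨n, hn⟩ := exists_pow_lt_of_lt_one (by positivity : (0 : ℝ) < 1 / (64 * b)) hκ1
  set lam := n + 1 with hlam
  have hlam1 : (1 : ℝ) ≤ lam := by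
    rw [hlam]; push_cast; linarith [(Nat.cast_nonneg n : (0:ℝ) ≤ n)]
  have h1 : b * κ ^ lam ≤ 1 / 64 := by
    have h2 : κ ^ lam ≤ κ ^ n := pow_le_pow_of_le_one hκ0.le hκ1.le (by omega)
    have h3 : κ ^ lam ≤ 1 / (64 * b) := h2.trans hn.le
    calc b * κ ^ lam ≤ b * (1 / (64 * b)) := mul_le_mul_of_nonneg_left h3 hbp.le
      _ = 1 / 64 := by field_simp
  have h4 : (1 + b * κ ^ lam) ^ 4 ≤ b := by
    calc (1 + b * κ ^ lam) ^ 4 ≤ (1 + 1 / 64) ^ 4 := pow_le_pow_left₀ (by positivity) (by linarith) 4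
      _ ≤ 2 := by norm_num
      _ ≤ b := hb0
  obtain ⟨m0, hm0⟩ := exists_nat_ge (36 * (lam : ℝ) + 1)
  set L := Real.log b with hLdef
  refine ⟨c / 4, 1 / 4, (12 * lam * BB b * b) * Real.exp (L / 2), 1 / (24 * lam), m0,
    by positivity, by norm_num, by positivity, by positivity, ?_⟩
  intro m D hm hD hDc0 hDc
  have hmr : 36 * (lam : ℝ) + 1 ≤ (m : ℝ) := hm0.trans (by exact_mod_cast hm)
  obtain ⟨k1, k2, k3, k4⟩ := clog_bounds hb hD
  set k := Nat.clog b D with hk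
  have hkup : (k : ℝ) ≤ 1 + 1 / (24 * lam) * (2 * m) := by
    have : L * k ≤ L * (1 + 1 / (24 * lam) * (2 * m)) := by linarith
    exact le_of_mul_le_mul_left this hL
  have hK : 3 * lam * (2 * k + 1) ≤ m := by
    have h5 : (3 : ℝ) * lam * (2 * k + 1) ≤ 3 * lam * (2 * (1 + 1 / (24 * lam) * (2 * m)) + 1) := by
      gcongr
    have h6 : (3 : ℝ) * lam * (2 * (1 + 1 / (24 * lam) * (2 * m)) + 1) = 9 * lam + m / 2 := by
      field_simp; ring
    have h7 : ((3 * lam * (2 * k + 1) : ℕ) : ℝ) ≤ (m : ℝ) := by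
      push_cast
      linarith
    exact_mod_cast h7
  have hD2 : (D : ℝ) ^ 2 ≤ (b : ℝ) ^ (2 * k) := by
    rw [mul_comm, pow_mul]; exact pow_le_pow_left₀ (by positivity) k1 2
  have h : kbS b κ m D ≤ 3 * lam * (4 * BB b * (b * (1 + b * κ ^ lam) ^ (2 * k))) :=
    kb_blocks hb hκ0 hκ1 (lam := lam) (by omega) (K := 2 * k) hK hD2
  have hDp : (0 : ℝ) < D := by
    have : 0 < D := by omega
    exact_mod_cast this
  refine BdK_of_exp (by positivity) (E := - (Real.log D / 2)) ?_ ?_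
  · have h5 : ((1 + b * κ ^ lam) ^ (2 * k)) ^ 2 ≤ b * D := by
      calc ((1 + b * κ ^ lam) ^ (2 * k)) ^ 2 = ((1 + b * κ ^ lam) ^ 4) ^ k := by
            rw [← pow_mul, ← pow_mul]; congr 1; ring
        _ ≤ (b : ℝ) ^ k := pow_le_pow_left₀ (by positivity) h4 k
        _ ≤ b * D := k2
    have h6 : (b : ℝ) * D = (Real.exp (L / 2) * Real.exp (Real.log D / 2)) ^ 2 := by
      rw [← Real.exp_add, ← Real.exp_nat_mul]
      have : ((2 : ℕ) : ℝ) * (L / 2 + Real.log D / 2) = L + Real.log D := by push_cast; ring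
      rw [this, Real.exp_add, hLdef, Real.exp_log hbp, Real.exp_log hDp]
    have h7 : (1 + b * κ ^ lam) ^ (2 * k) ≤ Real.exp (L / 2) * Real.exp (Real.log D / 2) := by
      rw [h6] at h5
      exact (pow_le_pow_iff_left₀ (by positivity) (by positivity) (by norm_num)).mp h5
    have h8 : Real.exp (Real.log D / 2) = D * Real.exp (-(Real.log D / 2)) := by
      have : Real.log D / 2 = Real.log D + -(Real.log D / 2) := by ring
      conv_lhs => rw [this, Real.exp_add, Real.exp_log hDp]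
    calc kbS b κ m D ≤ 3 * lam * (4 * BB b * (b * (1 + b * κ ^ lam) ^ (2 * k))) := h
      _ = (12 * lam * BB b * b) * (1 + b * κ ^ lam) ^ (2 * k) := by ring
      _ ≤ (12 * lam * BB b * b) * (Real.exp (L / 2) * Real.exp (Real.log D / 2)) :=
          mul_le_mul_of_nonneg_left h7 (by positivity)
      _ = _ := by rw [h8]; ring
  · linarith

/-- Bounded length. -/
lemma caseK_bounded {b : ℕ} (hb : 2 ≤ b) {κ : ℝ} (hκ0 : 0 < κ) (hκ1 : κ < 1) (m0 : ℕ) (c0 : ℝ)
    (hc0 : 0 < c0) : ∃ C : ℝ, 0 < C ∧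
    ∀ m D : ℕ, m ≤ m0 → 2 ≤ D → Real.log D ≤ c0 * Real.log b * (2 * m) → BdK b κ 1 1 C m D := by
  have hL := log_pos_b hb
  have hBp := BB_pos hb
  refine ⟨(2 * BB b) * Real.exp (2 * (c0 * Real.log b * (2 * m0)) + Real.sqrt (2 * m0)),
    by positivity, ?_⟩
  intro m D hm hD hDL
  have h1 := kbS_le_trivial (b := b) hκ0 hκ1 m D
  have hmr : (m : ℝ) ≤ m0 := by exact_mod_cast hm
  have hsq : Real.sqrt (2 * m) ≤ Real.sqrt (2 * m0) := Real.sqrt_le_sqrt (by linarith)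
  have h9 : c0 * Real.log b * (2 * m) ≤ c0 * Real.log b * (2 * m0) :=
    mul_le_mul_of_nonneg_left (by linarith) (by positivity)
  have hDp : (0 : ℝ) < D := by
    have : 0 < D := by omega
    exact_mod_cast this
  refine BdK_of_exp (by positivity)
    (E := -(Real.sqrt (2 * m0)) - c0 * Real.log b * (2 * m0)) ?_ ?_
  · calc kbS b κ m D ≤ 2 * BB b * (D : ℝ) ^ 2 := h1
      _ = (2 * BB b) * D * Real.exp (Real.log D) := by rw [Real.exp_log hDp]; ring
      _ ≤ (2 * BB b) * D * Real.exp (c0 * Real.log b * (2 * m0)) := by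
          refine mul_le_mul_of_nonneg_left ?_ (by positivity)
          rw [Real.exp_le_exp]
          linarith
      _ = (2 * BB b) * Real.exp (2 * (c0 * Real.log b * (2 * m0)) + Real.sqrt (2 * m0)) * D *
            Real.exp (-(Real.sqrt (2 * m0)) - c0 * Real.log b * (2 * m0)) := by
          have : Real.exp (c0 * Real.log b * (2 * m0)) =
              Real.exp (2 * (c0 * Real.log b * (2 * m0)) + Real.sqrt (2 * m0)) *
              Real.exp (-(Real.sqrt (2 * m0)) - c0 * Real.log b * (2 * m0)) := by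
            rw [← Real.exp_add]; congr 1; ring
          rw [this]; ring
  · linarith

open Classical in
/-- Moduli up to a small power of `b ^ m`: only the number of bad indices is needed. -/
theorem small_all {b : ℕ} (hb : 2 ≤ b) {κ : ℝ} (h0 : 0 < κ) (h1 : κ < 1) :
    ∃ (c0 σ δ C : ℝ), 0 < c0 ∧ 0 < σ ∧ 0 < δ ∧ 0 < C ∧ ∀ m D : ℕ, 2 ≤ D →
      Real.log D ≤ c0 * Real.log b * (2 * m) →
      ∑ x ∈ J b D, κ ^ ((Ico 0 m).filter (bad b (2 * m) (pt b x))).card ≤
        C * D * Real.exp (-σ * Real.sqrt (2 * m) - δ * Real.log D) := by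
  obtain ⟨σ1, δ1, C1, c, m1, hσ1, hδ1, hC1, hc, hs⟩ := caseK_small hb h0 h1
  obtain ⟨σ2, δ2, C2, c0, m2, hσ2, hδ2, hC2, hc0, hm⟩ := caseK_mid hb h0 h1 hc
  obtain ⟨C3, hC3, hbd⟩ := caseK_bounded hb h0 h1 (m1 + m2) c0 hc0
  refine ⟨c0, min σ1 (min σ2 1), min δ1 (min δ2 1), C1 + C2 + C3, hc0, by positivity,
    by positivity, by positivity, ?_⟩
  intro m D hD hDL
  have hD1 : 1 ≤ D := by omega
  change BdK b κ _ _ _ m D
  rcases Nat.lt_or_ge m (m1 + m2) with hlt | hge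
  · exact (hbd m D hlt.le hD hDL).mono ((min_le_right _ _).trans (min_le_right _ _))
      ((min_le_right _ _).trans (min_le_right _ _)) hD1 hC3.le (by linarith)
  · rcases le_or_gt (Real.log D) (c * Real.sqrt (2 * m)) with h2 | h2
    · exact (hs m D (by omega) hD h2).mono (min_le_left _ _) (min_le_left _ _) hD1 hC1.le
        (by linarith)
    · exact (hm m D (by omega) hD hDL h2.le).mono ((min_le_right _ _).trans (min_le_left _ _))
        ((min_le_right _ _).trans (min_le_left _ _)) hD1 hC2.le (by linarith)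

end Pool.Agent.PalW
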